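import Mathlib

/-!
The Lie-Poisson algebra of a nilpotent Lie algebra in adapted coordinates.
-/

open MvPolynomial

set_option linter.unusedSectionVars false

namespace Pool.Agent.H865_nil

section general

variable {k A : Type*} [CommRing k] [CommRing A] [Algebra k A]

/-- products of elements killed by powers of a derivation are killed by a power -/
lemma locnil_mul (D : Derivation k A A) : ∀ (n m : ℕ) (f g : A), D^[n] f = 0 → D^[m] g = 0 →
    D^[n + m] (f * g) = 0 := by
  intro n
  induction n with
  | zero =>
    intro m f g hf _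
    have : f = 0 := hf
    rw [this, zero_mul]
    exact iterate_map_zero D _
  | succ n ihn =>
    intro m
    induction m with
    | zero =>
      intro f g _ hg
      have : g = 0 := hg
      rw [this, mul_zero]
      exact iterate_map_zero D _
    | succ m ihm =>
      intro f g hf hg
      have e : n + 1 + (m + 1) = (n + 1 + m) + 1 := by ring
      rw [e, Function.iterate_succ_apply, Derivation.leibniz, smul_eq_mul, smul_eq_mul,
        iterate_map_add D]
      have h1 := ihm f (D g) hf (by rw [← Function.iterate_succ_apply]; exact hg)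
      have h2 := ihn (m + 1) (D f) g (by rw [← Function.iterate_succ_apply]; exact hf) hg
      rw [h1, zero_add, mul_comm, show n + 1 + m = n + (m + 1) by ring]
      exact h2

lemma locnil_ge (D : Derivation k A A) {n m : ℕ} (h : n ≤ m) {f : A} (hf : D^[n] f = 0) :
    D^[m] f = 0 := by
  obtain ⟨q, rfl⟩ := Nat.exists_eq_add_of_le h
  rw [add_comm, Function.iterate_add_apply, hf]
  exact iterate_map_zero D _

lemma locnil_add (D : Derivation k A A) {n m : ℕ} {f g : A} (hf : D^[n] f = 0)
    (hg : D^[m] g = 0) : D^[max n m] (f + g) = 0 := by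
  rw [iterate_map_add D, locnil_ge D (le_max_left _ _) hf, locnil_ge D (le_max_right _ _) hg,
    add_zero]

end general

/-- Structure constants of a nilpotent Lie algebra in an adapted basis. -/
structure NData (K : Type*) [Field K] (N : ℕ) where
  g : Fin N → Fin N → Fin N → K
  anti : ∀ i j l, g i j l = - g j i l
  jac : ∀ i j m l, ∑ p, g j m p * g i p l = ∑ p, g i j p * g p m l + ∑ p, g i m p * g j p l
  nil : ∀ i j l, g i j l ≠ 0 → l < i ∧ l < j

namespace NData

variable {K : Type*} [Field K] {N : ℕ} (d : NData K N)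

/-- `[X_i, X_j]` as a linear form -/
noncomputable def Γ (i j : Fin N) : MvPolynomial (Fin N) K := ∑ l, C (d.g i j l) * X l

lemma Γ_anti (i j : Fin N) : d.Γ i j = - d.Γ j i := by
  simp only [Γ]
  rw [← Finset.sum_neg_distrib]
  refine Finset.sum_congr rfl fun l _ => ?_
  rw [d.anti i j l, map_neg]; ring

/-- the adjoint action of `X_i` on polynomials -/
noncomputable def D (i : Fin N) :
    Derivation K (MvPolynomial (Fin N) K) (MvPolynomial (Fin N) K) :=
  mkDerivation K (fun j => d.Γ i j)

@[simp] lemma D_X (i j : Fin N) : d.D i (X j) = d.Γ i j := by simp [D]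

@[simp] lemma D_C (i : Fin N) (c : K) : d.D i (C c) = 0 := derivation_C _ _

lemma sum_deriv_apply {J : Type*} (s : Finset J)
    (f : J → Derivation K (MvPolynomial (Fin N) K) (MvPolynomial (Fin N) K))
    (x : MvPolynomial (Fin N) K) : (∑ i ∈ s, f i) x = ∑ i ∈ s, f i x := by
  classical
  induction s using Finset.induction_on with
  | empty => simp
  | insert a s ha ih => rw [Finset.sum_insert ha, Finset.sum_insert ha, Derivation.add_apply, ih]

lemma D_eq (i : Fin N) (f : MvPolynomial (Fin N) K) :
    d.D i f = ∑ m, d.Γ i m * pderiv m f := by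
  classical
  have h : d.D i = ∑ j, d.Γ i j •
      (pderiv j : Derivation K (MvPolynomial (Fin N) K) (MvPolynomial (Fin N) K)) := by
    apply derivation_ext
    intro j
    rw [sum_deriv_apply]
    simp [pderiv_X, Pi.single_apply]
  rw [h, sum_deriv_apply]
  simp

lemma D_Γ (i j m : Fin N) : d.D i (d.Γ j m) = ∑ p, C (d.g j m p) * d.Γ i p := by
  rw [Γ, map_sum]
  refine Finset.sum_congr rfl fun p _ => ?_
  rw [Derivation.leibniz, D_C, smul_zero, add_zero, D_X, smul_eq_mul]

lemma D_comm (i j : Fin N) (f : MvPolynomial (Fin N) K) :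
    d.D i (d.D j f) - d.D j (d.D i f) = ∑ l, C (d.g i j l) * d.D l f := by
  have h : ⁅d.D i, d.D j⁆ = ∑ l, (C (d.g i j l) : MvPolynomial (Fin N) K) • d.D l := by
    apply derivation_ext
    intro m
    rw [Derivation.commutator_apply, D_X, D_X, D_Γ, D_Γ, sum_deriv_apply]
    simp only [Derivation.smul_apply, D_X, smul_eq_mul, Γ, Finset.mul_sum]
    rw [Finset.sum_comm, Finset.sum_comm (f := fun p l => C (d.g i m p) * (C (d.g j p l) * X l)),
      Finset.sum_comm (f := fun p l => C (d.g i j p) * (C (d.g p m l) * X l)),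
      ← Finset.sum_sub_distrib]
    refine Finset.sum_congr rfl fun l _ => ?_
    have h1 := congrArg (C : K → MvPolynomial (Fin N) K) (d.jac i j m l)
    simp only [map_sum, map_add, map_mul] at h1
    have e : ∀ (a b : Fin N → K), ∑ p, C (a p) * (C (b p) * (X l : MvPolynomial (Fin N) K)) =
        (∑ p, C (a p) * C (b p)) * X l := by
      intro a b
      rw [Finset.sum_mul]
      exact Finset.sum_congr rfl fun p _ => by ring
    rw [e, e, e, h1]; ring
  have h2 := congrArg (fun δ : Derivation K (MvPolynomial (Fin N) K) (MvPolynomial (Fin N) K) =>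
    δ f) h
  simp only [Derivation.commutator_apply, sum_deriv_apply, Derivation.smul_apply,
    smul_eq_mul] at h2
  exact h2

lemma D_comm' (i j : Fin N) (f : MvPolynomial (Fin N) K) :
    d.D i (d.D j f) - d.D j (d.D i f) = ∑ l, d.g i j l • d.D l f := by
  rw [D_comm]
  exact Finset.sum_congr rfl fun l _ => by rw [MvPolynomial.smul_eq_C_mul]

/-- the Lie-Poisson bracket as a derivation -/
noncomputable def pbD (f : MvPolynomial (Fin N) K) :
    Derivation K (MvPolynomial (Fin N) K) (MvPolynomial (Fin N) K) :=
  ∑ i, pderiv i f • d.D i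

/-- the Lie-Poisson bracket -/
noncomputable def pb (f h : MvPolynomial (Fin N) K) : MvPolynomial (Fin N) K := d.pbD f h

lemma pb_eq (f h : MvPolynomial (Fin N) K) : d.pb f h = ∑ i, pderiv i f * d.D i h := by
  rw [pb, pbD, sum_deriv_apply]
  simp

lemma pb_eq' (f h : MvPolynomial (Fin N) K) :
    d.pb f h = ∑ i, ∑ m, pderiv i f * d.Γ i m * pderiv m h := by
  rw [pb_eq]
  refine Finset.sum_congr rfl fun i _ => ?_
  rw [D_eq, Finset.mul_sum]
  exact Finset.sum_congr rfl fun m _ => by ring

lemma pb_anti (f h : MvPolynomial (Fin N) K) : d.pb f h = - d.pb h f := by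
  rw [pb_eq', pb_eq', Finset.sum_comm, ← Finset.sum_neg_distrib]
  refine Finset.sum_congr rfl fun i _ => ?_
  rw [← Finset.sum_neg_distrib]
  refine Finset.sum_congr rfl fun m _ => ?_
  rw [d.Γ_anti m i]; ring

lemma pb_mul_right (f g h : MvPolynomial (Fin N) K) :
    d.pb f (g * h) = g * d.pb f h + h * d.pb f g := by
  simp only [pb, Derivation.leibniz, smul_eq_mul]

lemma pb_add_right (f g h : MvPolynomial (Fin N) K) :
    d.pb f (g + h) = d.pb f g + d.pb f h := by
  simp only [pb, map_add]

lemma pb_C_right (f : MvPolynomial (Fin N) K) (c : K) : d.pb f (C c) = 0 := by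
  simp only [pb, derivation_C]

lemma pb_mul_left (f g h : MvPolynomial (Fin N) K) :
    d.pb (f * g) h = f * d.pb g h + g * d.pb f h := by
  rw [pb_anti, pb_mul_right, d.pb_anti g h, d.pb_anti f h]; ring

lemma pb_add_left (f g h : MvPolynomial (Fin N) K) :
    d.pb (f + g) h = d.pb f h + d.pb g h := by
  rw [pb_anti, pb_add_right, d.pb_anti f h, d.pb_anti g h]; ring

lemma pb_C_left (c : K) (h : MvPolynomial (Fin N) K) : d.pb (C c) h = 0 := by
  rw [pb_anti, pb_C_right, neg_zero]

lemma pb_X_left (i : Fin N) (h : MvPolynomial (Fin N) K) : d.pb (X i) h = d.D i h := by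
  classical
  rw [pb_eq, Finset.sum_eq_single i]
  · simp
  · intro j _ hj
    rw [pderiv_X_of_ne (Ne.symm hj), zero_mul]
  · simp

lemma pb_sum_left {J : Type*} (s : Finset J) (f : J → MvPolynomial (Fin N) K)
    (h : MvPolynomial (Fin N) K) : d.pb (∑ j ∈ s, f j) h = ∑ j ∈ s, d.pb (f j) h := by
  classical
  induction s using Finset.induction_on with
  | empty =>
    rw [Finset.sum_empty, Finset.sum_empty]
    have := d.pb_C_left 0 h
    rwa [map_zero] at this
  | insert a s ha ih => rw [Finset.sum_insert ha, Finset.sum_insert ha, pb_add_left, ih]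

lemma pb_self [CharZero K] (f : MvPolynomial (Fin N) K) : d.pb f f = 0 := by
  have h := d.pb_anti f f
  have h2 : (2 : MvPolynomial (Fin N) K) * d.pb f f = 0 := by linear_combination h
  exact (mul_eq_zero.1 h2).resolve_left two_ne_zero

/-- the adjoint action is by derivations of the bracket -/
lemma D_pb (l : Fin N) (f h : MvPolynomial (Fin N) K) :
    d.D l (d.pb f h) = d.pb (d.D l f) h + d.pb f (d.D l h) := by
  induction f using MvPolynomial.induction_on with
  | C c =>
    rw [pb_C_left, D_C, pb_C_left, map_zero]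
    have := d.pb_C_left 0 h
    rw [map_zero] at this
    rw [this, add_zero]
  | add p q hp hq =>
    rw [pb_add_left, map_add, hp, hq, map_add, pb_add_left, pb_add_left]; ring
  | mul_X p i hp =>
    rw [pb_mul_left, map_add, Derivation.leibniz, Derivation.leibniz, hp, pb_X_left,
      Derivation.leibniz]
    simp only [smul_eq_mul]
    rw [pb_add_left, pb_mul_left, pb_mul_left, pb_mul_left, D_X, pb_X_left, pb_X_left]
    have h1 : d.pb (d.Γ l i) h = ∑ p, C (d.g l i p) * d.D p h := by
      rw [Γ, pb_sum_left]
      refine Finset.sum_congr rfl fun p _ => ?_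
      rw [pb_mul_left, pb_C_left, pb_X_left]; ring
    rw [h1, ← D_comm]; ring

/-- local nilpotency of the adjoint action -/
lemma locnil_X (i : Fin N) : ∀ (m : ℕ) (j : Fin N), (j : ℕ) < m →
    (d.D i)^[m] (X j : MvPolynomial (Fin N) K) = 0 := by
  intro m
  induction m with
  | zero => intro j h; exact absurd h (Nat.not_lt_zero _)
  | succ m ih =>
    intro j hj
    rw [Function.iterate_succ_apply, D_X, Γ, ]
    have h1 : ∀ s : Finset (Fin N), (d.D i)^[m] (∑ l ∈ s, C (d.g i j l) * X l) = 0 := by
      intro s
      classical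
      induction s using Finset.induction_on with
      | empty => rw [Finset.sum_empty]; exact iterate_map_zero (d.D i) m
      | insert a s ha ihs =>
        rw [Finset.sum_insert ha, iterate_map_add (d.D i), ihs, add_zero]
        by_cases hg : d.g i j a = 0
        · rw [hg, map_zero, zero_mul]; exact iterate_map_zero (d.D i) m
        · have h2 := (d.nil i j a hg).2
          have h3 := ih a (by
            have : (a : ℕ) < j := h2
            omega)
          have h4 : ∀ n, (d.D i)^[n] (C (d.g i j a) * X a) =
              C (d.g i j a) * (d.D i)^[n] (X a : MvPolynomial (Fin N) K) := by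
            intro n
            induction n with
            | zero => rfl
            | succ n ihn =>
              rw [Function.iterate_succ_apply', ihn, Function.iterate_succ_apply',
                Derivation.leibniz, D_C, smul_zero, add_zero, smul_eq_mul]
          rw [h4, h3, mul_zero]
    exact h1 _

lemma locnil (i : Fin N) (f : MvPolynomial (Fin N) K) : ∃ n, (d.D i)^[n] f = 0 := by
  induction f using MvPolynomial.induction_on with
  | C c => exact ⟨1, by simp⟩
  | add p q hp hq =>
    obtain ⟨n, hn⟩ := hp
    obtain ⟨m, hm⟩ := hq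
    exact ⟨_, locnil_add (d.D i) hn hm⟩
  | mul_X p j hp =>
    obtain ⟨n, hn⟩ := hp
    exact ⟨_, locnil_mul (d.D i) n (j + 1) _ _ hn (d.locnil_X i (j + 1) j (Nat.lt_succ_self _))⟩

/-- relative Engel lemma -/
lemma engel (U U' : Submodule K (MvPolynomial (Fin N) K)) (hU : ∀ i, ∀ f ∈ U, d.D i f ∈ U)
    (hU' : ∀ i, ∀ f ∈ U', d.D i f ∈ U') {f : MvPolynomial (Fin N) K} (hf : f ∈ U') (hf' : f ∉ U) :
    ∃ h ∈ U', h ∉ U ∧ ∀ i, d.D i h ∈ U := by
  classical
  have claim : ∀ m, m ≤ N → ∃ h ∈ U', h ∉ U ∧ ∀ i : Fin N, (i : ℕ) < m → d.D i h ∈ U := by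
    intro m
    induction m with
    | zero => intro _; exact ⟨f, hf, hf', fun i hi => absurd hi (Nat.not_lt_zero _)⟩
    | succ m ih =>
      intro hm
      obtain ⟨h, hh, hh', hD⟩ := ih (by omega)
      set j : Fin N := ⟨m, by omega⟩ with hj
      have hit : ∀ n, (d.D j)^[n] h ∈ U' := by
        intro n
        induction n with
        | zero => exact hh
        | succ n ihn => rw [Function.iterate_succ_apply']; exact hU' _ _ ihn
      have hlow : ∀ n (i : Fin N), (i : ℕ) < m → d.D i ((d.D j)^[n] h) ∈ U := by
        intro n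
        induction n with
        | zero => exact hD
        | succ n ihn =>
          intro i hi
          rw [Function.iterate_succ_apply']
          have h1 : d.D i (d.D j ((d.D j)^[n] h)) = d.D j (d.D i ((d.D j)^[n] h)) +
              ∑ l, d.g i j l • d.D l ((d.D j)^[n] h) := by
            rw [← D_comm']; ring
          rw [h1]
          refine U.add_mem (hU _ _ (ihn i hi)) (U.sum_mem fun l _ => ?_)
          by_cases hg : d.g i j l = 0
          · rw [hg, zero_smul]; exact U.zero_mem
          · have h2 := (d.nil i j l hg).1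
            have h3 : (l : ℕ) < i := h2
            exact U.smul_mem _ (ihn l (by omega))
      have hex : ∃ n, (d.D j)^[n] h ∈ U := by
        obtain ⟨n, hn⟩ := d.locnil j h
        exact ⟨n, by rw [hn]; exact U.zero_mem⟩
      have hpos : 0 < Nat.find hex := by
        rw [Nat.pos_iff_ne_zero]
        intro h0
        have := Nat.find_spec hex
        rw [h0] at this
        exact hh' this
      refine ⟨(d.D j)^[Nat.find hex - 1] h, hit _, Nat.find_min hex (by omega), ?_⟩
      intro i hi
      rcases Nat.lt_or_ge (i : ℕ) m with h1 | h1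
      · exact hlow _ i h1
      · have hij : i = j := Fin.ext (by simp only [hj]; omega)
        rw [hij, ← Function.iterate_succ_apply' (d.D j)]
        have e : (Nat.find hex - 1).succ = Nat.find hex := by omega
        rw [e]
        exact Nat.find_spec hex
  obtain ⟨h, h1, h2, h3⟩ := claim N le_rfl
  exact ⟨h, h1, h2, fun i => h3 i i.2⟩

/-- stable commutative subalgebras -/
structure SC (B : Subalgebra K (MvPolynomial (Fin N) K)) : Prop where
  comm : ∀ f ∈ B, ∀ h ∈ B, d.pb f h = 0
  stab : ∀ i, ∀ f ∈ B, d.D i f ∈ B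

/-- the commutant -/
noncomputable def commutant (B : Subalgebra K (MvPolynomial (Fin N) K)) :
    Subalgebra K (MvPolynomial (Fin N) K) where
  carrier := {f | ∀ h ∈ B, d.pb h f = 0}
  mul_mem' := by
    intro f g hf hg h hh
    rw [pb_mul_right, hf h hh, hg h hh]; ring
  add_mem' := by
    intro f g hf hg h hh
    rw [pb_add_right, hf h hh, hg h hh, add_zero]
  algebraMap_mem' := by
    intro r h _
    exact d.pb_C_right h r

lemma mem_commutant {B : Subalgebra K (MvPolynomial (Fin N) K)} {f : MvPolynomial (Fin N) K} :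
    f ∈ d.commutant B ↔ ∀ h ∈ B, d.pb h f = 0 := Iff.rfl

lemma commutant_stab {B : Subalgebra K (MvPolynomial (Fin N) K)} (hB : d.SC B) (i : Fin N)
    {f : MvPolynomial (Fin N) K} (hf : f ∈ d.commutant B) : d.D i f ∈ d.commutant B := by
  rw [mem_commutant] at hf ⊢
  intro h hh
  have h1 := d.D_pb i h f
  rw [hf h hh, map_zero, hf _ (hB.stab i h hh), zero_add] at h1
  exact h1.symm

/-- a maximal stable commutative subalgebra is its own commutant -/
theorem exists_maximal [CharZero K] : ∃ B : Subalgebra K (MvPolynomial (Fin N) K), d.SC B ∧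
    ∀ f, (∀ h ∈ B, d.pb h f = 0) → f ∈ B := by
  classical
  obtain ⟨B, hB⟩ : ∃ B, Maximal (· ∈ {B | d.SC B}) B := by
    apply zorn_le₀
    intro c hc hchain
    rcases c.eq_empty_or_nonempty with h0 | hne
    · refine ⟨⊥, ⟨?_, ?_⟩, ?_⟩
      · intro f hf h _
        rw [Algebra.mem_bot] at hf
        obtain ⟨r, rfl⟩ := hf
        exact d.pb_C_left r h
      · intro i f hf
        rw [Algebra.mem_bot] at hf
        obtain ⟨r, rfl⟩ := hf
        rw [MvPolynomial.algebraMap_eq, D_C]
        exact Subalgebra.zero_mem _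
      · rw [h0]; simp
    · have hdir : DirectedOn (· ≤ ·) c := hchain.directedOn
      have hmem : ∀ f, f ∈ sSup c ↔ ∃ B ∈ c, f ∈ B := by
        intro f
        rw [sSup_eq_iSup']
        have : Nonempty c := hne.to_subtype
        rw [← SetLike.mem_coe, Subalgebra.coe_iSup_of_directed hdir.directed_val]
        simp
      refine ⟨sSup c, ⟨?_, ?_⟩, fun B hB => le_sSup hB⟩
      · intro f hf h hh
        obtain ⟨B₁, hB₁, hf⟩ := (hmem f).1 hf
        obtain ⟨B₂, hB₂, hh⟩ := (hmem h).1 hh
        obtain ⟨B₃, hB₃, h13, h23⟩ := hdir B₁ hB₁ B₂ hB₂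
        exact (hc hB₃).comm f (h13 hf) h (h23 hh)
      · intro i f hf
        obtain ⟨B₁, hB₁, hf⟩ := (hmem f).1 hf
        exact (hmem _).2 ⟨B₁, hB₁, (hc hB₁).stab i f hf⟩
  have hSC : d.SC B := hB.1
  refine ⟨B, hSC, ?_⟩
  by_contra hcon
  push Not at hcon
  obtain ⟨f, hf, hfB⟩ := hcon
  obtain ⟨h, hh, hhB, hD⟩ := d.engel (Subalgebra.toSubmodule B)
    (Subalgebra.toSubmodule (d.commutant B)) (fun i f hf => hSC.stab i f hf)
    (fun i f hf => d.commutant_stab hSC i hf) (f := f) hf hfB
  have hh' : ∀ b ∈ B, d.pb b h = 0 := hh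
  set B' := Algebra.adjoin K ((B : Set (MvPolynomial (Fin N) K)) ∪ {h}) with hB'
  have hBB' : B ≤ B' := fun x hx => Algebra.subset_adjoin (Or.inl hx)
  have hgen : ∀ x ∈ (B : Set (MvPolynomial (Fin N) K)) ∪ {h},
      ∀ y ∈ (B : Set (MvPolynomial (Fin N) K)) ∪ {h}, d.pb x y = 0 := by
    rintro x (hx | hx) y (hy | hy)
    · exact hSC.comm x hx y hy
    · rw [Set.mem_singleton_iff.1 hy]; exact hh' x hx
    · rw [Set.mem_singleton_iff.1 hx, pb_anti, hh' y hy, neg_zero]
    · rw [Set.mem_singleton_iff.1 hx, Set.mem_singleton_iff.1 hy, pb_self]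
  have hSC' : d.SC B' := by
    constructor
    · intro x hx y hy
      have h1 : ∀ x ∈ (B : Set (MvPolynomial (Fin N) K)) ∪ {h}, ∀ y ∈ B', d.pb x y = 0 := by
        intro x hx y hy
        induction hy using Algebra.adjoin_induction with
        | mem y hy => exact hgen x hx y hy
        | algebraMap r => exact d.pb_C_right x r
        | add y z _ _ h1 h2 => rw [pb_add_right, h1, h2, add_zero]
        | mul y z _ _ h1 h2 => rw [pb_mul_right, h1, h2]; ring
      induction hx using Algebra.adjoin_induction with
      | mem x hx => exact h1 x hx y hy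
      | algebraMap r => exact d.pb_C_left r y
      | add x z _ _ h1 h2 => rw [pb_add_left, h1, h2, add_zero]
      | mul x z _ _ h1 h2 => rw [pb_mul_left, h1, h2]; ring
    · intro i x hx
      induction hx using Algebra.adjoin_induction with
      | mem x hx =>
        rcases hx with hx | hx
        · exact hBB' (hSC.stab i x hx)
        · rw [Set.mem_singleton_iff.1 hx]; exact hBB' (hD i)
      | algebraMap r =>
        rw [MvPolynomial.algebraMap_eq, D_C]; exact B'.zero_mem
      | add x z _ _ h1 h2 => rw [map_add]; exact B'.add_mem h1 h2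
      | mul x z hx hz h1 h2 =>
        rw [Derivation.leibniz]
        exact B'.add_mem (B'.mul_mem hx h2) (B'.mul_mem hz h1)
  have := hB.2 hSC' hBB'
  exact hhB (this (Algebra.subset_adjoin (Or.inr rfl)))

end NData

end Pool.Agent.H865_nil
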