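import Mathlib

/-!
Extension of `∑ v_m ∂_m` to the fraction field of a polynomial ring.
-/

open MvPolynomial

namespace Pool.Agent.H865_nil

variable {K : Type*} [Field K] {N : ℕ} {F : Type*} [Field F]
  [Algebra (MvPolynomial (Fin N) K) F] [IsFractionRing (MvPolynomial (Fin N) K) F]

variable (K) in
/-- `f ↦ f + ε ∑ v_m ∂_m f` -/
noncomputable def dualHom (v : Fin N → F) :
    MvPolynomial (Fin N) K →+* TrivSqZeroExt F F where
  toFun f := TrivSqZeroExt.inl (algebraMap _ F f) +
    TrivSqZeroExt.inr (∑ m, v m * algebraMap _ F (pderiv m f))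
  map_one' := by
    ext <;> simp
  map_zero' := by
    ext <;> simp
  map_add' f g := by
    ext
    · simp
    · simp [mul_add, Finset.sum_add_distrib]
  map_mul' f g := by
    ext
    · simp
    · have h1 : ∑ m, v m * algebraMap _ F (pderiv m (f * g)) =
          algebraMap _ F f * (∑ m, v m * algebraMap _ F (pderiv m g)) +
          algebraMap _ F g * ∑ m, v m * algebraMap _ F (pderiv m f) := by
        rw [Finset.mul_sum, Finset.mul_sum, ← Finset.sum_add_distrib]
        refine Finset.sum_congr rfl fun m _ => ?_
        rw [Derivation.leibniz, smul_eq_mul, smul_eq_mul, map_add, map_mul, map_mul]; ring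
      simp only [TrivSqZeroExt.snd_add, TrivSqZeroExt.snd_inl, TrivSqZeroExt.snd_inr, zero_add,
        TrivSqZeroExt.snd_mul, TrivSqZeroExt.fst_add, TrivSqZeroExt.fst_inl,
        TrivSqZeroExt.fst_inr, add_zero, smul_eq_mul, MulOpposite.smul_eq_mul_unop,
        MulOpposite.unop_op]
      rw [h1]; ring

lemma dualHom_unit (v : Fin N → F) (s : nonZeroDivisors (MvPolynomial (Fin N) K)) :
    IsUnit (dualHom K v s) := by
  rw [TrivSqZeroExt.isUnit_iff_isUnit_fst]
  have : (dualHom K v s).fst = algebraMap _ F (s : MvPolynomial (Fin N) K) := by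
    simp [dualHom]
  rw [this]
  exact IsLocalization.map_units F s

variable (K) in
/-- the derivation of the fraction field with components `v` -/
noncomputable def derF (v : Fin N → F) (x : F) : F :=
  (IsLocalization.lift (M := nonZeroDivisors (MvPolynomial (Fin N) K)) (dualHom_unit (K := K) v)
    x).snd

lemma derF_algebraMap (v : Fin N → F) (f : MvPolynomial (Fin N) K) :
    derF K v (algebraMap _ F f) = ∑ m, v m * algebraMap _ F (pderiv m f) := by
  rw [derF, IsLocalization.lift_eq]
  simp [dualHom]

lemma derF_fst (v : Fin N → F) (x : F) :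
    (IsLocalization.lift (M := nonZeroDivisors (MvPolynomial (Fin N) K))
      (dualHom_unit (K := K) v) x).fst = x := by
  have h : (TrivSqZeroExt.fstHom F F F : TrivSqZeroExt F F →+* F).comp
      (IsLocalization.lift (M := nonZeroDivisors (MvPolynomial (Fin N) K))
        (dualHom_unit (K := K) v)) = RingHom.id F := by
    apply IsLocalization.ringHom_ext (nonZeroDivisors (MvPolynomial (Fin N) K))
    refine RingHom.ext fun f => ?_
    rw [RingHom.comp_apply, RingHom.comp_apply, IsLocalization.lift_eq]
    simp [dualHom]
  exact RingHom.congr_fun h x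

lemma derF_add (v : Fin N → F) (x y : F) : derF K v (x + y) = derF K v x + derF K v y := by
  rw [derF, map_add, TrivSqZeroExt.snd_add]; rfl

lemma derF_mul (v : Fin N → F) (x y : F) :
    derF K v (x * y) = x * derF K v y + y * derF K v x := by
  rw [derF, map_mul, TrivSqZeroExt.snd_mul, derF_fst, derF_fst, smul_eq_mul,
    MulOpposite.smul_eq_mul_unop, MulOpposite.unop_op, mul_comm (TrivSqZeroExt.snd _) y]
  rfl

end Pool.Agent.H865_nil
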