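import Pool.Agent.H865_nil.Pencil

/-!
The dimension bound for constant vectors in the image of a pencil, with integral potentials
modulo an isotropic space.
-/

open Polynomial Module

set_option linter.unusedSectionVars false

namespace Pool.Agent.H865_nil

section

variable {N : ℕ}

/-- row vector times matrix -/
def vm {E : Type*} [CommRing E] (M : Fin N → Fin N → E) : (Fin N → E) →ₗ[E] (Fin N → E) where
  toFun η := fun m => ∑ l, η l * M l m
  map_add' x y := by
    funext m
    simp only [Pi.add_apply, add_mul, Finset.sum_add_distrib]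
  map_smul' a x := by
    funext m
    simp only [Pi.smul_apply, smul_eq_mul, RingHom.id_apply, Finset.mul_sum]
    exact Finset.sum_congr rfl fun l _ => by ring

lemma vm_apply {E : Type*} [CommRing E] (M : Fin N → Fin N → E) (η : Fin N → E) (m : Fin N) :
    vm M η m = ∑ l, η l * M l m := rfl

lemma vm_pair {E : Type*} [CommRing E] (M : Fin N → Fin N → E) (hM : ∀ i j, M i j = - M j i)
    (η κ : Fin N → E) : ∑ m, vm M η m * κ m = - ∑ m, vm M κ m * η m := by
  simp only [vm_apply, Finset.sum_mul]
  rw [Finset.sum_comm, ← Finset.sum_neg_distrib]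
  refine Finset.sum_congr rfl fun l _ => ?_
  rw [← Finset.sum_neg_distrib]
  refine Finset.sum_congr rfl fun m _ => ?_
  rw [hM l m]; ring

/-- the rank does not grow under an injective specialisation -/
lemma finrank_range_le {S : Type*} [CommRing S] [IsDomain S] {F E : Type*} [Field F] [Field E]
    [Algebra S F] [IsFractionRing S F] (τ : S →+* E) (hτ : Function.Injective τ)
    (M : Fin N → Fin N → S) :
    finrank E (LinearMap.range (vm (fun l m => τ (M l m)))) ≤
      finrank F (LinearMap.range (vm (fun l m => algebraMap S F (M l m)))) := by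
  classical
  set τ' : F →+* E := IsFractionRing.lift hτ with hτ'
  have hc : ∀ x, τ' (algebraMap S F x) = τ x := fun x => IsFractionRing.lift_algebraMap hτ x
  set V := LinearMap.range (vm (fun l m => algebraMap S F (M l m))) with hV
  let b := finBasis F V
  have h1 : ∀ l, ∃ c : Fin (finrank F V) → F, ∀ m, algebraMap S F (M l m) =
      ∑ i, c i * (b i : Fin N → F) m := by
    intro l
    have hmem : (fun m => algebraMap S F (M l m)) ∈ V := by
      refine ⟨Pi.single l 1, ?_⟩
      funext m
      rw [vm_apply, Finset.sum_eq_single l]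
      · simp
      · intro j _ hj; rw [Pi.single_eq_of_ne hj, zero_mul]
      · simp
    refine ⟨fun i => b.repr ⟨_, hmem⟩ i, fun m => ?_⟩
    have h2 := congrArg (Submodule.subtype V) (b.sum_repr ⟨_, hmem⟩)
    rw [map_sum] at h2
    have h3 := congrFun h2 m
    rw [Finset.sum_apply] at h3
    refine h3.symm.trans (Finset.sum_congr rfl fun i _ => ?_)
    rw [map_smul]; rfl
  choose c hcc using h1
  have h2 : LinearMap.range (vm (fun l m => τ (M l m))) ≤
      Submodule.span E (Set.range fun i : Fin (finrank F V) => fun m =>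
        τ' ((b i : Fin N → F) m)) := by
    rintro _ ⟨η, rfl⟩
    have e : vm (fun l m => τ (M l m)) η = ∑ i, (∑ l, η l * τ' (c l i)) •
        (fun m => τ' ((b i : Fin N → F) m)) := by
      funext m
      rw [vm_apply, Finset.sum_apply]
      simp only [Pi.smul_apply, smul_eq_mul, Finset.sum_mul]
      rw [Finset.sum_comm]
      refine Finset.sum_congr rfl fun l _ => ?_
      rw [← hc, hcc l m, map_sum, Finset.mul_sum]
      refine Finset.sum_congr rfl fun i _ => ?_
      rw [map_mul]; ring
    rw [e]
    exact Submodule.sum_mem _ fun i _ => Submodule.smul_mem _ _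
      (Submodule.subset_span ⟨i, rfl⟩)
  refine (Submodule.finrank_mono h2).trans ((finrank_range_le_card _).trans ?_)
  rw [Fintype.card_fin]

variable {F : Type*} [Field F] (A B : Fin N → Fin N → F)
  (hA : ∀ i j, A i j = - A j i) (hB : ∀ i j, B i j = - B j i)

lemma lead_lemma (E₁ : Submodule F (Fin N → F)) (hE : ∀ y ∈ E₁, vm A y = 0 → y = 0)
    (h : Fin N → F[X]) (hh : ∀ n, (fun l => (h l).coeff n) ∈ E₁) (p : F[X]) (hp : p.Monic)
    (v : Fin N → F) (hv : ∀ m, ∑ l, h l * pen A B l m = p * C (v m)) :
    (v = 0 → h = 0) ∧ vm A (fun l => (h l).coeff (p.natDegree - 1)) = v ∧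
      ∀ l, h l ≠ 0 → (h l).natDegree < p.natDegree := by
  classical
  by_cases h0 : h = 0
  · subst h0
    have hv0 : v = 0 := by
      funext m
      have := hv m
      simp only [Pi.zero_apply, zero_mul, Finset.sum_const_zero] at this
      have := (mul_eq_zero.1 this.symm).resolve_left hp.ne_zero
      rwa [C_eq_zero] at this
    refine ⟨fun _ => rfl, ?_, fun l hl => absurd rfl hl⟩
    rw [hv0]
    have : (fun l => ((0 : Fin N → F[X]) l).coeff (p.natDegree - 1)) = 0 := by
      funext l; simp
    rw [this, map_zero]
  · obtain ⟨l₁, hl₁⟩ : ∃ l, h l ≠ 0 := by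
      by_contra hcon
      push Not at hcon
      exact h0 (funext hcon)
    obtain ⟨l₀, hl₀, hmax⟩ := Finset.exists_max_image (Finset.univ.filter fun l => h l ≠ 0)
      (fun l => (h l).natDegree) ⟨l₁, by simp [hl₁]⟩
    rw [Finset.mem_filter] at hl₀
    set n := (h l₀).natDegree with hn
    have hle : ∀ l, (h l).natDegree ≤ n := by
      intro l
      by_cases hl : h l = 0
      · rw [hl, natDegree_zero]; exact Nat.zero_le _
      · exact hmax l (by simp [hl])
    have hcoef : ∀ l k, n < k → (h l).coeff k = 0 := fun l k hk =>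
      coeff_eq_zero_of_natDegree_lt (lt_of_le_of_lt (hle l) hk)
    have hne : (fun l => (h l).coeff n) ≠ 0 := by
      intro h1
      have := congrFun h1 l₀
      exact hl₀.2 (leadingCoeff_eq_zero.1 this)
    have hA1 : vm A (fun l => (h l).coeff n) ≠ 0 := fun h1 => hne (hE _ (hh n) h1)
    have hco : ∀ m k, v m * p.coeff (k + 1) = ∑ l, ((h l).coeff k * A l m +
        (h l).coeff (k + 1) * B l m) := by
      intro m k
      have h1 := congrArg (fun f => coeff f (k + 1)) (hv m)
      simp only [finsetSum_coeff, coeff_mul_C, pen_coeff_succ] at h1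
      rw [mul_comm, ← h1]
    have hco' : ∀ m, v m * p.coeff (n + 1) = vm A (fun l => (h l).coeff n) m := by
      intro m
      rw [hco m n, vm_apply]
      refine Finset.sum_congr rfl fun l _ => ?_
      rw [hcoef l (n + 1) (by omega), zero_mul, add_zero]
    obtain ⟨m₀, hm₀⟩ : ∃ m, vm A (fun l => (h l).coeff n) m ≠ 0 := by
      by_contra hcon
      push Not at hcon
      exact hA1 (funext hcon)
    rw [← hco' m₀] at hm₀
    have hv0 : v m₀ ≠ 0 := left_ne_zero_of_mul hm₀
    have hpc : p.coeff (n + 1) ≠ 0 := right_ne_zero_of_mul hm₀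
    have h1 : n + 1 ≤ p.natDegree := le_natDegree_of_ne_zero hpc
    have h2 : p.natDegree = n + 1 := by
      by_contra hne'
      have h3 := hco m₀ (p.natDegree - 1)
      have h4 : ∀ l, (h l).coeff (p.natDegree - 1) * A l m₀ +
          (h l).coeff (p.natDegree - 1 + 1) * B l m₀ = 0 := by
        intro l
        rw [hcoef l _ (by omega), hcoef l _ (by omega), zero_mul, zero_mul, add_zero]
      rw [Finset.sum_eq_zero fun l _ => h4 l, show p.natDegree - 1 + 1 = p.natDegree by omega,
        hp.coeff_natDegree, mul_one] at h3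
      exact hv0 h3
    refine ⟨fun h5 => absurd (congrFun h5 m₀) hv0, ?_, fun l _ => by
      rw [h2]; exact Nat.lt_succ_of_le (hle l)⟩
    funext m
    rw [h2, Nat.add_sub_cancel, ← hco' m, ← h2, hp.coeff_natDegree, mul_one]

include hA hB in
theorem dim_bound {E : Type*} [Field E] [Algebra F[X] E] [IsFractionRing F[X] E]
    (hrank : finrank E (LinearMap.range (vm fun l m => algebraMap F[X] E (pen A B l m))) ≤
      finrank F (LinearMap.range (vm A)))
    (W : Submodule E (Fin N → E))
    (hW : ∀ w ∈ W, ∀ w' ∈ W,
      ∑ m, vm (fun l m => algebraMap F[X] E (pen A B l m)) w m * w' m = 0)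
    (Z : Submodule F (Fin N → F))
    (hZ : ∀ v ∈ Z, ∃ (η : Fin N → E) (w : Fin N → F[X]),
      (fun m => η m - algebraMap F[X] E (w m)) ∈ W ∧
      vm (fun l m => algebraMap F[X] E (pen A B l m)) η = fun m => algebraMap F[X] E (C (v m))) :
    2 * finrank F Z ≤ finrank F (LinearMap.range (vm A)) := by
  classical
  set P : Fin N → Fin N → E := fun l m => algebraMap F[X] E (pen A B l m) with hP
  have hinj : Function.Injective (algebraMap F[X] E) := IsFractionRing.injective F[X] E
  have hPanti : ∀ i j, P i j = - P j i := by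
    intro i j
    simp only [hP, pen]
    rw [hA i j, hB i j, ← map_neg]
    congr 1
    simp only [map_neg]; ring
  obtain ⟨E₁, hE₁⟩ := Submodule.exists_isCompl (LinearMap.ker (vm A))
  have hE : ∀ y ∈ E₁, vm A y = 0 → y = 0 := fun y hy h =>
    Submodule.disjoint_def.1 hE₁.disjoint y h hy
  have hfE : finrank F E₁ = finrank F (LinearMap.range (vm A)) := by
    have h1 := Submodule.finrank_add_eq_of_isCompl hE₁
    have h2 := LinearMap.finrank_range_add_finrank_ker (vm A)
    omega
  let e := finBasis F E₁
  set s := finrank F E₁ with hs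
  -- polynomial combinations
  let hc : (Fin s → F[X]) → Fin N → F[X] := fun a l => ∑ j, a j * C ((e j : Fin N → F) l)
  have hcE : ∀ a n, (fun l => (hc a l).coeff n) ∈ E₁ := by
    intro a n
    have : (fun l => (hc a l).coeff n) = ∑ j, (a j).coeff n • (e j : Fin N → F) := by
      funext l
      simp only [hc, finsetSum_coeff, coeff_mul_C, Finset.sum_apply, Pi.smul_apply, smul_eq_mul]
    rw [this]
    exact Submodule.sum_mem _ fun j _ => Submodule.smul_mem _ _ (e j).2
  have hc0 : ∀ a, hc a = 0 → a = 0 := by
    intro a ha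
    funext j
    ext n
    have h1 : ∑ j, (a j).coeff n • e j = 0 := by
      apply Subtype.ext
      rw [Submodule.coe_sum]
      funext l
      have h2 := congrArg (fun f => coeff f n) (congrFun ha l)
      simp only [hc, finsetSum_coeff, coeff_mul_C, Pi.zero_apply, coeff_zero] at h2
      rw [Finset.sum_apply]
      exact h2
    have := Fintype.linearIndependent_iff.1 e.linearIndependent (fun j => (a j).coeff n) h1 j
    simpa using this
  -- the linear map T
  let T : (Fin s → E) →ₗ[E] (Fin N → E) := (vm P) ∘ₗ
    { toFun := fun φ l => ∑ j, φ j * algebraMap F[X] E (C ((e j : Fin N → F) l))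
      map_add' := by
        intro x y; funext l
        simp only [Pi.add_apply, add_mul, Finset.sum_add_distrib]
      map_smul' := by
        intro a x; funext l
        simp only [Pi.smul_apply, smul_eq_mul, RingHom.id_apply, Finset.mul_sum]
        exact Finset.sum_congr rfl fun j _ => by ring }
  have hT : ∀ φ, T φ = vm P (fun l => ∑ j, φ j * algebraMap F[X] E (C ((e j : Fin N → F) l))) :=
    fun φ => rfl
  -- clearing denominators
  have hclear : ∀ φ : Fin s → E, ∃ p : F[X], p.Monic ∧ ∃ a : Fin s → F[X],
      ∀ j, algebraMap F[X] E p * φ j = algebraMap F[X] E (a j) := by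
    intro φ
    obtain ⟨⟨b, hb⟩, hb2⟩ := IsLocalization.exist_integer_multiples_of_finite
      (nonZeroDivisors F[X]) φ
    have hb0 : b ≠ 0 := nonZeroDivisors.ne_zero hb
    have hlc : b.leadingCoeff ≠ 0 := leadingCoeff_ne_zero.2 hb0
    choose a ha using hb2
    refine ⟨b * C (b.leadingCoeff)⁻¹, monic_mul_leadingCoeff_inv hb0,
      fun j => a j * C (b.leadingCoeff)⁻¹, fun j => ?_⟩
    have h1 := ha j
    rw [Algebra.smul_def] at h1
    rw [map_mul, map_mul, h1]
    ring
  have hTpoly : ∀ (a : Fin s → F[X]) m, algebraMap F[X] E (∑ l, hc a l * pen A B l m) =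
      vm P (fun l => ∑ j, algebraMap F[X] E (a j) * algebraMap F[X] E
        (C ((e j : Fin N → F) l))) m := by
    intro a m
    rw [vm_apply, map_sum]
    refine Finset.sum_congr rfl fun l _ => ?_
    rw [map_mul, map_sum]
    simp only [map_mul, hP]
  have hscale : ∀ (p : F[X]) (φ : Fin s → E) (a : Fin s → F[X]),
      (∀ j, algebraMap F[X] E p * φ j = algebraMap F[X] E (a j)) →
      (fun l => ∑ j, algebraMap F[X] E (a j) * algebraMap F[X] E (C ((e j : Fin N → F) l))) =
      algebraMap F[X] E p • (fun l => ∑ j, φ j * algebraMap F[X] E (C ((e j : Fin N → F) l))) := by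
    intro p φ a h
    funext l
    simp only [Pi.smul_apply, smul_eq_mul, Finset.mul_sum]
    refine Finset.sum_congr rfl fun j _ => ?_
    rw [← h j]; ring
  have hTinj : Function.Injective T := by
    rw [← LinearMap.ker_eq_bot, LinearMap.ker_eq_bot']
    intro φ hφ
    obtain ⟨p, hp, a, ha⟩ := hclear φ
    have h1 : ∀ m, ∑ l, hc a l * pen A B l m = 1 * C ((0 : Fin N → F) m) := by
      intro m
      apply hinj
      rw [hTpoly a m, hscale p φ a ha, map_smul, ← hT, hφ]
      simp
    have h2 := (lead_lemma A B E₁ hE (hc a) (hcE a) 1 monic_one 0 h1).1 rfl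
    have h3 := hc0 a h2
    funext j
    have h4 := ha j
    rw [h3, Pi.zero_apply, map_zero] at h4
    exact (mul_eq_zero.1 h4).resolve_left
      (fun h5 => hp.ne_zero ((map_eq_zero_iff _ hinj).1 h5))
  have hTrange : LinearMap.range T = LinearMap.range (vm P) := by
    refine Submodule.eq_of_le_of_finrank_le ?_ ?_
    · rintro _ ⟨φ, rfl⟩
      exact ⟨_, (hT φ).symm⟩
    · rw [LinearMap.finrank_range_of_inj hTinj, finrank_fin_fun, hfE]
      exact hrank
  -- normal form
  have hnf : ∀ v : Fin N → F, (fun m => algebraMap F[X] E (C (v m))) ∈ LinearMap.range (vm P) →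
      ∃ p : F[X], p.Monic ∧ ∃ h : Fin N → F[X], (∀ n, (fun l => (h l).coeff n) ∈ E₁) ∧
      (∀ m, ∑ l, h l * pen A B l m = p * C (v m)) := by
    intro v hv
    rw [← hTrange] at hv
    obtain ⟨φ, hφ⟩ := hv
    obtain ⟨p, hp, a, ha⟩ := hclear φ
    refine ⟨p, hp, hc a, hcE a, fun m => ?_⟩
    apply hinj
    rw [hTpoly a m, hscale p φ a ha, map_smul, ← hT, hφ, map_mul]
    rfl
  -- the pairing vanishes
  have hpair : ∀ v ∈ Z, ∀ v' ∈ Z, ∃ y', vm A y' = v' ∧ ∑ m, v m * y' m = 0 := by
    intro v hv v' hv'
    obtain ⟨η, w, hw, hη⟩ := hZ v hv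
    obtain ⟨η', w', hw', hη'⟩ := hZ v' hv'
    obtain ⟨p, hp, h, hhE, hh⟩ := hnf v' ⟨η', hη'⟩
    have hl := lead_lemma A B E₁ hE h hhE p hp v' hh
    refine ⟨_, hl.2.1, ?_⟩
    have hpE : algebraMap F[X] E p ≠ 0 := by
      rw [Ne, map_eq_zero_iff _ hinj]; exact hp.ne_zero
    -- `v · h = p · (polynomial)`
    have hdiv : p ∣ ∑ m, C (v m) * h m := by
      -- pairing of v with h equals p * pairing of v with η'
      have e1 : ∑ m, algebraMap F[X] E (C (v m)) * algebraMap F[X] E (h m) =
          algebraMap F[X] E p * ∑ m, algebraMap F[X] E (C (v m)) * η' m := by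
        have f1 : vm P (fun m => algebraMap F[X] E (h m)) = algebraMap F[X] E p • vm P η' := by
          funext m
          rw [hη', Pi.smul_apply, smul_eq_mul, ← map_mul, ← hh m, map_sum, vm_apply]
          refine Finset.sum_congr rfl fun l _ => ?_
          rw [map_mul]
        have f2 : ∀ κ : Fin N → E, ∑ m, algebraMap F[X] E (C (v m)) * κ m =
            - ∑ m, vm P κ m * η m := by
          intro κ
          rw [← vm_pair P hPanti η κ, hη]
        rw [f2, f2, f1]
        simp only [Pi.smul_apply, smul_eq_mul, mul_neg, Finset.mul_sum, mul_assoc]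
      have e2 : ∑ m, algebraMap F[X] E (C (v m)) * η' m = algebraMap F[X] E
          (∑ m, C (v m) * w' m + ∑ m, C (v' m) * w m * (-1) +
            ∑ m, (∑ l, w' l * pen A B l m) * w m) := by
        -- η' = w' + ω'
        set ω : Fin N → E := fun m => η m - algebraMap F[X] E (w m) with hω
        set ω' : Fin N → E := fun m => η' m - algebraMap F[X] E (w' m) with hω'
        have g1 : ∑ m, algebraMap F[X] E (C (v m)) * η' m =
            ∑ m, algebraMap F[X] E (C (v m)) * algebraMap F[X] E (w' m) +
            ∑ m, algebraMap F[X] E (C (v m)) * ω' m := by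
          rw [← Finset.sum_add_distrib]
          refine Finset.sum_congr rfl fun m _ => ?_
          rw [hω']; ring
        have g2 : ∑ m, algebraMap F[X] E (C (v m)) * ω' m =
            ∑ m, vm P (fun m => algebraMap F[X] E (w m)) m * ω' m := by
          have k1 : (fun m => algebraMap F[X] E (C (v m))) =
              vm P (fun m => algebraMap F[X] E (w m)) + vm P ω := by
            rw [← hη, ← map_add]
            congr 1
            funext m
            rw [Pi.add_apply, hω]; ring
          have k2 : ∀ m, algebraMap F[X] E (C (v m)) =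
              vm P (fun m => algebraMap F[X] E (w m)) m + vm P ω m := fun m => congrFun k1 m
          rw [Finset.sum_congr rfl fun m _ => by rw [k2 m, add_mul], Finset.sum_add_distrib,
            hW ω hw ω' hw', add_zero]
        have g3 : ∑ m, vm P (fun m => algebraMap F[X] E (w m)) m * ω' m =
            - ∑ m, (algebraMap F[X] E (C (v' m)) - vm P (fun m => algebraMap F[X] E (w' m)) m) *
              algebraMap F[X] E (w m) := by
          rw [vm_pair P hPanti]
          congr 1
          refine Finset.sum_congr rfl fun m _ => ?_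
          congr 1
          have k1 : vm P ω' = vm P η' - vm P (fun m => algebraMap F[X] E (w' m)) := by
            rw [← map_sub]; rfl
          rw [k1, hη']; rfl
        rw [g1, g2, g3]
        simp only [map_add, map_sum, map_mul, map_neg, vm_apply, hP, sub_mul,
          Finset.sum_sub_distrib, mul_neg, mul_one, Finset.sum_neg_distrib]
        ring
      rw [e2] at e1
      rw [← map_mul] at e1
      have e3 : algebraMap F[X] E (∑ m, C (v m) * h m) = ∑ m, algebraMap F[X] E (C (v m)) *
          algebraMap F[X] E (h m) := by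
        rw [map_sum]
        exact Finset.sum_congr rfl fun m _ => by rw [map_mul]
      rw [← e3] at e1
      exact ⟨_, hinj e1⟩
    by_cases hh0 : h = 0
    · subst hh0; simp
    · obtain ⟨l₁, hl₁⟩ : ∃ l, h l ≠ 0 := by
        by_contra hcon
        push Not at hcon
        exact hh0 (funext hcon)
      have hpos : 0 < p.natDegree := lt_of_le_of_lt (Nat.zero_le _) (hl.2.2 l₁ hl₁)
      have hz : ∑ m, C (v m) * h m = 0 := by
        refine eq_zero_of_dvd_of_natDegree_lt hdiv ?_
        refine lt_of_le_of_lt (natDegree_sum_le_of_forall_le (n := p.natDegree - 1) _ _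
          fun m _ => ?_) (by omega)
        refine (natDegree_C_mul_le _ _).trans ?_
        by_cases hm : h m = 0
        · rw [hm, natDegree_zero]; exact Nat.zero_le _
        · have := hl.2.2 m hm
          omega
      have := congrArg (fun f => coeff f (p.natDegree - 1)) hz
      simp only [finsetSum_coeff, coeff_C_mul, coeff_zero] at this
      exact this
  -- dimension count
  set Y := Submodule.comap (vm A) Z with hY
  have hZr : Z ≤ LinearMap.range (vm A) := by
    intro v hv
    obtain ⟨y, hy, _⟩ := hpair v hv v hv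
    exact ⟨y, hy⟩
  have hYdim : finrank F Y = finrank F Z + finrank F (LinearMap.ker (vm A)) := by
    set f : Y →ₗ[F] Z := (vm A).restrict (p := Y) (q := Z) (fun y hy => hy) with hf
    have h1 := LinearMap.finrank_range_add_finrank_ker f
    have h2 : LinearMap.range f = ⊤ := by
      rw [LinearMap.range_eq_top]
      rintro ⟨v, hv⟩
      obtain ⟨y, hy⟩ := hZr hv
      exact ⟨⟨y, by rw [hY, Submodule.mem_comap, hy]; exact hv⟩, Subtype.ext hy⟩
    have h3 : finrank F (LinearMap.ker f) = finrank F (LinearMap.ker (vm A)) := by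
      refine LinearEquiv.finrank_eq ?_
      refine LinearEquiv.ofBijective
        { toFun := fun (y : LinearMap.ker f) => (⟨y.1.1, by
            have h7 : f y.1 = 0 := y.2
            rw [LinearMap.mem_ker]
            exact congrArg Subtype.val h7⟩ : LinearMap.ker (vm A))
          map_add' := fun _ _ => rfl
          map_smul' := fun _ _ => rfl } ⟨?_, ?_⟩
      · intro x y hxy
        apply Subtype.ext; apply Subtype.ext
        have h8 := congrArg (fun z : LinearMap.ker (vm A) => (z : Fin N → F)) hxy
        exact h8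
      · rintro ⟨y, hy⟩
        refine ⟨⟨⟨y, ?_⟩, ?_⟩, rfl⟩
        · rw [hY, Submodule.mem_comap, LinearMap.mem_ker.1 hy]; exact Z.zero_mem
        · rw [LinearMap.mem_ker]; exact Subtype.ext hy
    rw [h2, finrank_top, h3] at h1
    exact h1.symm
  have hYann : finrank F Y ≤ finrank F Z.dualAnnihilator := by
    have hmap : Y.map (dotProductEquiv F (Fin N)).toLinearMap ≤ Z.dualAnnihilator := by
      rintro _ ⟨y, hy, rfl⟩
      rw [Submodule.mem_dualAnnihilator]
      intro v hv
      obtain ⟨y', hy', h0⟩ := hpair v hv _ hy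
      have h1 : vm A (y - y') = 0 := by rw [map_sub, hy', sub_self]
      obtain ⟨x, hx⟩ := hZr hv
      have h2 : ∑ m, v m * (y - y') m = 0 := by
        rw [← hx, vm_pair A hA, h1]; simp
      have h3 : ∑ m, v m * y m = 0 := by
        have : ∑ m, v m * (y - y') m = ∑ m, v m * y m - ∑ m, v m * y' m := by
          rw [← Finset.sum_sub_distrib]
          exact Finset.sum_congr rfl fun m _ => by rw [Pi.sub_apply]; ring
        rw [this, h0, sub_zero] at h2
        exact h2
      show dotProduct y v = 0
      rw [dotProduct, ← h3]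
      exact Finset.sum_congr rfl fun m _ => by ring
    have h1 := Submodule.finrank_mono hmap
    rwa [LinearEquiv.finrank_map_eq] at h1
  have h4 := Subspace.finrank_add_finrank_dualAnnihilator_eq Z
  have h5 := LinearMap.finrank_range_add_finrank_ker (vm A)
  omega

end

end Pool.Agent.H865_nil
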