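import Pool.Agent.H865_nil.Fin

/-!
The dimension bound and the complete bi-commutative family for a nilpotent Lie algebra in
adapted coordinates.
-/

open MvPolynomial Module

set_option linter.unusedSectionVars false

namespace Pool.Agent.H865_nil.NData


variable {K : Type*} [Field K] [CharZero K] {N : ℕ} (d : NData K N) (a : Fin N → K)
variable {F : Type*} [Field F] [Algebra (MvPolynomial (Fin N) K) F]
  [IsFractionRing (MvPolynomial (Fin N) K) F] [Algebra K F]
  [IsScalarTower K (MvPolynomial (Fin N) K) F]
variable {B : Subalgebra K (MvPolynomial (Fin N) K)}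

lemma exists_q (hmax : ∀ f, (∀ h ∈ B, d.pb h f = 0) → f ∈ B) {Q : MvPolynomial (Fin N) K}
    (hQ0 : Q ≠ 0) (hQ : ∀ i, d.D i Q = 0) :
    ∃ q : Polynomial (d.kk a F B), q.Monic ∧ ∃ c : F, c ≠ 0 ∧
      q.map (algebraMap (d.kk a F B) F) = aeval (pt a F) Q * Polynomial.C c * Polynomial.X := by
  have h1 : aeval (pt a F) Q ∈ Polynomial.lifts (algebraMap (d.kk a F B) F) := by
    rw [Polynomial.lifts_iff_coeff_lifts]
    intro n
    rw [coeff_pt]
    exact ⟨⟨_, d.SL_mem_kk a (d.coeff_mem_SL a F hmax hQ n)⟩, rfl⟩
  obtain ⟨q₁, hq₁⟩ := (Polynomial.mem_lifts _).1 h1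
  have hq0 : q₁ ≠ 0 := by
    rintro rfl
    rw [Polynomial.map_zero] at hq₁
    exact hQ0 ((map_eq_zero_iff _ (pt_injective a)).1 hq₁.symm)
  refine ⟨q₁ * Polynomial.C (q₁.leadingCoeff)⁻¹ * Polynomial.X,
    (Polynomial.monic_mul_leadingCoeff_inv hq0).mul Polynomial.monic_X,
    algebraMap (d.kk a F B) F (q₁.leadingCoeff)⁻¹, ?_, ?_⟩
  · rw [Ne, map_eq_zero_iff _ (algebraMap (d.kk a F B) F).injective]
    exact inv_ne_zero (Polynomial.leadingCoeff_ne_zero.2 hq0)
  · rw [Polynomial.map_mul, Polynomial.map_mul, hq₁, Polynomial.map_C, Polynomial.map_X]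

variable {E : Type*} [Field E] [Algebra (Polynomial F) E] [IsFractionRing (Polynomial F) E]
  [Algebra K E] [IsScalarTower K (Polynomial F) E] [CharZero E] [CharZero F]

theorem Z_data (hB : d.SC B) (hmax : ∀ f, (∀ h ∈ B, d.pb h f = 0) → f ∈ B)
    {Q : MvPolynomial (Fin N) K} (hQ0 : Q ≠ 0) (hQi : ∀ i, d.D i Q = 0) (hQB : Q ∈ B)
    (hQ : d.Adm B Q) {v : Fin N → F} (hv : v ∈ d.ZZZ a F B) :
    ∃ (η : Fin N → E) (w : Fin N → Polynomial F),
      (fun m => η m - algebraMap (Polynomial F) E (w m)) ∈
        Submodule.span E ((fun c => fun m => algebraMap (Polynomial F) E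
          (aeval (pt a F) (pderiv m c))) '' (B : Set (MvPolynomial (Fin N) K))) ∧
      vm (fun l m => algebraMap (Polynomial F) E (pen (d.matA F) (d.matB a F) l m)) η =
        fun m => algebraMap (Polynomial F) E (Polynomial.C (v m)) := by
  classical
  obtain ⟨q, hq, c, hc0, hqc⟩ := d.exists_q (F := F) a hmax hQ0 hQi
  obtain ⟨b, hb⟩ := d.weil_main (pt a F) hq hB (fun m => Polynomial.C (v m) * Polynomial.X)
    (fun H _ hH0 => by
      rw [d.T_eq a hv q hq, hH0]
      have := derF_add (K := K) v (0 : F) 0
      rw [add_zero] at this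
      exact left_eq_add.1 this)
    (fun H hH hinv => d.inv_kill a hv q hq hH hinv)
  have hinj : Function.Injective (algebraMap (Polynomial F) E) :=
    IsFractionRing.injective (Polynomial F) E
  set τ : MvPolynomial (Fin N) K →ₐ[K] E :=
    (IsScalarTower.toAlgHom K (Polynomial F) E).comp (aeval (pt a F)) with hτ
  have hτa : ∀ f, τ f = algebraMap (Polynomial F) E (aeval (pt a F) f) := fun f => rfl
  have hτinj : Function.Injective τ := hinj.comp (pt_injective a)
  -- the integral relation
  set Ef : MvPolynomial (Fin N) K → Polynomial F := fun f =>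
    ∑ m, aeval (pt a F) (pderiv m f) * Polynomial.C (v m) - ∑ l, b l * aeval (pt a F) (d.D l f) with hEf
  have hE : ∀ f ∈ B, aeval (pt a F) Q ∣ Ef f := by
    intro f hf
    obtain ⟨t, ht⟩ := hb f hf
    refine ⟨Polynomial.C c * t, ?_⟩
    have h1 : (Polynomial.X : Polynomial F) * Ef f = Polynomial.X * (aeval (pt a F) Q * (Polynomial.C c * t)) := by
      have h2 : ∑ m, aeval (pt a F) (pderiv m f) * (Polynomial.C (v m) * Polynomial.X) =
          Polynomial.X * ∑ m, aeval (pt a F) (pderiv m f) * Polynomial.C (v m) := by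
        rw [Finset.mul_sum]
        exact Finset.sum_congr rfl fun m _ => by ring
      rw [hqc, h2] at ht
      rw [hEf]
      linear_combination ht
    exact mul_left_cancel₀ Polynomial.X_ne_zero h1
  -- the rational potential
  obtain ⟨η, hη⟩ := d.exists_of_kill_inv τ hτinj
    (fun m => algebraMap (Polynomial F) E (Polynomial.C (v m))) (by
      intro f hf
      have h1 : (Polynomial.X : Polynomial F) * ∑ m, Polynomial.C (v m) * aeval (pt a F) (pderiv m f) = 0 := by
        ext j
        rw [← derF_coeff (K := K) a v f j, Polynomial.coeff_zero]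
        exact d.derF_kk a hv (by
          rw [coeff_pt]
          exact d.SL_mem_kk a (d.coeff_mem_SL a F hmax hf j))
      have h2 := (mul_eq_zero.1 h1).resolve_left Polynomial.X_ne_zero
      have h3 := congrArg (algebraMap (Polynomial F) E) h2
      rw [map_sum, map_zero] at h3
      rw [← h3]
      exact Finset.sum_congr rfl fun m _ => by rw [map_mul, hτa])
  obtain ⟨Ψ, hΨ1, hΨ2⟩ := hQ
  set κ : Fin N → E := fun u => η u - algebraMap (Polynomial F) E (b u) with hκ
  have hκE : ∀ f, ∑ u, κ u * τ (d.D u f) = algebraMap (Polynomial F) E (Ef f) := by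
    intro f
    have h1 := hη f
    rw [hEf, map_sub, map_sum, map_sum]
    have h2 : ∑ m, algebraMap (Polynomial F) E (aeval (pt a F) (pderiv m f) * Polynomial.C (v m)) =
        ∑ m, algebraMap (Polynomial F) E (Polynomial.C (v m)) * τ (pderiv m f) :=
      Finset.sum_congr rfl fun m _ => by rw [map_mul, hτa, mul_comm]
    rw [h2, h1, ← Finset.sum_sub_distrib]
    refine Finset.sum_congr rfl fun u _ => ?_
    rw [hκ, map_mul, hτa]; ring
  have hrow : ∀ r ∈ d.R B, ∃ g : Polynomial F, ∑ u, κ u * τ (r u) =
      algebraMap (Polynomial F) E (aeval (pt a F) Q * g) := by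
    intro r hr
    induction hr using Submodule.span_induction with
    | mem x hx =>
      obtain ⟨f, hf, rfl⟩ := hx
      obtain ⟨g, hg⟩ := hE f hf
      refine ⟨g, ?_⟩
      rw [← hg, ← hκE]; rfl
    | zero => exact ⟨0, by simp⟩
    | add x y _ _ hx hy =>
      obtain ⟨g, hg⟩ := hx
      obtain ⟨g', hg'⟩ := hy
      refine ⟨g + g', ?_⟩
      simp only [Pi.add_apply, map_add, mul_add, Finset.sum_add_distrib, hg, hg']
    | smul t x _ hx =>
      obtain ⟨g, hg⟩ := hx
      refine ⟨aeval (pt a F) (t : MvPolynomial (Fin N) K) * g, ?_⟩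
      have h1 : ∀ u, κ u * τ ((t • x) u) = τ t * (κ u * τ (x u)) := by
        intro u
        have e : (t • x) u = (t : MvPolynomial (Fin N) K) * x u := rfl
        rw [e, map_mul]; ring
      rw [Finset.sum_congr rfl fun u _ => h1 u, ← Finset.mul_sum, hg, hτa, ← map_mul]
      congr 1
      ring
  choose w' hw' using fun l => hrow (Ψ l) (hΨ1 l)
  have hτQ : τ Q ≠ 0 := by rwa [Ne, map_eq_zero_iff τ hτinj]
  have hfin : ∀ f ∈ B, ∑ u, (κ u - algebraMap (Polynomial F) E (w' u)) * τ (d.D u f) = 0 := by
    intro f hf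
    have h1 : τ Q * ∑ u, κ u * τ (d.D u f) =
        τ Q * ∑ l, algebraMap (Polynomial F) E (w' l) * τ (d.D l f) := by
      rw [Finset.mul_sum]
      have h2 : ∀ u, τ Q * (κ u * τ (d.D u f)) = ∑ l, τ (d.D l f) * (κ u * τ (Ψ l u)) := by
        intro u
        rw [show τ Q * (κ u * τ (d.D u f)) = κ u * (τ Q * τ (d.D u f)) by ring, ← map_mul,
          hΨ2 f hf u, map_sum, Finset.mul_sum]
        refine Finset.sum_congr rfl fun l _ => ?_
        rw [map_mul]; ring
      rw [Finset.sum_congr rfl fun u _ => h2 u, Finset.sum_comm, Finset.mul_sum]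
      refine Finset.sum_congr rfl fun l _ => ?_
      rw [← Finset.mul_sum, hw' l, map_mul, ← hτa]; ring
    have h3 := mul_left_cancel₀ hτQ h1
    simp only [sub_mul, Finset.sum_sub_distrib]
    rw [h3, sub_self]
  have hmem := d.mem_span_grad hB hmax hQ0 hQB ⟨Ψ, hΨ1, hΨ2⟩ τ hτinj _ hfin
  refine ⟨η, fun m => b m + w' m, ?_, ?_⟩
  · have e : (fun m => η m - algebraMap (Polynomial F) E (b m + w' m)) =
        fun u => κ u - algebraMap (Polynomial F) E (w' u) := by
      funext m
      rw [hκ, map_add]; ring
    rw [e]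
    exact hmem
  · funext m
    have h1 := hη (X m)
    rw [Finset.sum_eq_single m] at h1
    · rw [pderiv_X_self, map_one, mul_one] at h1
      rw [h1, vm_apply]
      refine Finset.sum_congr rfl fun l _ => ?_
      rw [d.pen_eq a, D_X, hτa]
    · intro u _ hu
      rw [pderiv_X_of_ne (Ne.symm hu), map_zero, mul_zero]
    · simp

theorem Z_bound (hB : d.SC B) (hmax : ∀ f, (∀ h ∈ B, d.pb h f = 0) → f ∈ B) :
    2 * finrank F (d.ZZZ a F B) ≤ finrank F (LinearMap.range (vm (d.matA F))) := by
  classical
  obtain ⟨Q, hQ0, hQi, hQB, hQ⟩ := exists_adm hB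
  have : CharZero (FractionRing (Polynomial F)) :=
    charZero_of_injective_algebraMap (IsFractionRing.injective (Polynomial F)
      (FractionRing (Polynomial F)))
  refine dim_bound (E := FractionRing (Polynomial F)) (d.matA F) (d.matB a F) d.matA_anti
    (d.matB_anti a) ?_ (Submodule.span (FractionRing (Polynomial F)) ((fun c => fun m =>
      algebraMap (Polynomial F) (FractionRing (Polynomial F))
        (aeval (pt a F) (pderiv m c))) '' (B : Set (MvPolynomial (Fin N) K)))) ?_ _
    (fun v hv => d.Z_data a hB hmax hQ0 hQi hQB hQ hv)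
  · have h := finrank_range_le (F := F) (E := FractionRing (Polynomial F))
      (((algebraMap (Polynomial F) (FractionRing (Polynomial F))).comp
        ((aeval (pt a F) : MvPolynomial (Fin N) K →ₐ[K] Polynomial F) :
          MvPolynomial (Fin N) K →+* Polynomial F)))
      ((IsFractionRing.injective (Polynomial F) (FractionRing (Polynomial F))).comp
        (pt_injective a)) d.Γ
    have e1 : (fun l m => ((algebraMap (Polynomial F) (FractionRing (Polynomial F))).comp
        ((aeval (pt a F) : MvPolynomial (Fin N) K →ₐ[K] Polynomial F) :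
          MvPolynomial (Fin N) K →+* Polynomial F)) (d.Γ l m)) =
        fun l m => algebraMap (Polynomial F) (FractionRing (Polynomial F))
          (pen (d.matA F) (d.matB a F) l m) := by
      funext l m
      rw [d.pen_eq a]; rfl
    rw [e1] at h
    exact h
  · intro w hw w' hw'
    induction hw using Submodule.span_induction with
    | mem x hx =>
      obtain ⟨c, hc, rfl⟩ := hx
      induction hw' using Submodule.span_induction with
      | mem x hx =>
        obtain ⟨c', hc', rfl⟩ := hx
        have h := congrArg (fun f => algebraMap (Polynomial F) (FractionRing (Polynomial F))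
          (aeval (pt a F) f)) (hB.comm c hc c' hc')
        simp only [map_zero] at h
        rw [d.pb_eq', map_sum, map_sum] at h
        rw [← h]
        simp only [vm_apply, Finset.sum_mul]
        rw [Finset.sum_comm]
        refine Finset.sum_congr rfl fun l _ => ?_
        rw [map_sum, map_sum]
        refine Finset.sum_congr rfl fun m _ => ?_
        rw [map_mul, map_mul, map_mul, map_mul, d.pen_eq a]
      | zero => simp
      | add x y _ _ hx hy =>
        simp only [Pi.add_apply, mul_add, Finset.sum_add_distrib, hx, hy, add_zero]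
      | smul t x _ hx =>
        simp only [Pi.smul_apply, smul_eq_mul]
        rw [← mul_zero t, ← hx, Finset.mul_sum]
        exact Finset.sum_congr rfl fun m _ => by ring
    | zero => simp
    | add x y _ _ hx hy =>
      rw [map_add]
      simp only [Pi.add_apply, add_mul, Finset.sum_add_distrib, hx, hy, add_zero]
    | smul t x _ hx =>
      rw [map_smul]
      simp only [Pi.smul_apply, smul_eq_mul]
      rw [← mul_zero t, ← hx, Finset.mul_sum]
      exact Finset.sum_congr rfl fun m _ => by ring

/-- The complete family. -/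
theorem exists_family : ∃ (n : ℕ) (P : Fin n → MvPolynomial (Fin N) K),
    N + finrank F (LinearMap.ker (vm (d.matA F))) ≤ 2 * n ∧
    (∀ i j, d.pb (P i) (P j) = 0) ∧
    (∀ i j, ∑ l, ∑ m, pderiv l (P i) * C (∑ p, d.g l m p * a p) * pderiv m (P j) = 0) ∧
    LinearIndependent F (fun i => gr F (P i)) := by
  classical
  obtain ⟨B, hB, hmax⟩ := d.exists_maximal
  have hZ := d.Z_bound (F := F) a hB hmax
  set U := Submodule.span F (gr F '' (d.SL a F B : Set (MvPolynomial (Fin N) K))) with hU
  have hUdim : N ≤ finrank F U + finrank F (d.ZZZ a F B) := by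
    have h1 := Subspace.finrank_add_finrank_dualAnnihilator_eq U
    rw [finrank_fin_fun] at h1
    have h2 : finrank F U.dualAnnihilator ≤ finrank F (d.ZZZ a F B) := by
      have h3 : U.dualAnnihilator.map (dotProductEquiv F (Fin N)).symm.toLinearMap ≤
          d.ZZZ a F B := by
        rintro _ ⟨φ, hφ, rfl⟩ P hP
        have h4 := (Submodule.mem_dualAnnihilator φ).1 hφ (gr F P)
          (Submodule.subset_span ⟨P, hP, rfl⟩)
        have h5 : dotProductEquiv F (Fin N) ((dotProductEquiv F (Fin N)).symm φ) (gr F P) = 0 := by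
          rw [LinearEquiv.apply_symm_apply]; exact h4
        exact h5
      have h4 := Submodule.finrank_mono h3
      rwa [LinearEquiv.finrank_map_eq] at h4
    omega
  have hrk := LinearMap.finrank_range_add_finrank_ker (vm (d.matA F))
  rw [finrank_fin_fun] at hrk
  obtain ⟨s, hs, hspan, hli⟩ := exists_linearIndependent F
    (gr F '' (d.SL a F B : Set (MvPolynomial (Fin N) K)))
  have : Fintype s := (hli.setFinite).fintype
  have hcard : Fintype.card s = finrank F U := by
    rw [hU, ← hspan, finrank_span_set_eq_card hli, Set.toFinset_card]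
  choose P hP1 hP2 using fun x : s => hs x.2
  let e := Fintype.equivFin s
  refine ⟨Fintype.card s, fun i => P (e.symm i), ?_, ?_, ?_, ?_⟩
  · rw [hcard]; omega
  · intro i j
    have h := (Lsub_iso (d.matA F) (d.matB a F) d.matA_anti (d.matB_anti a) _ (d.MG_iso a F hB)
      (ρ := gr F (P (e.symm i))) (ρ' := gr F (P (e.symm j))) (hP1 _) (hP1 _)).1
    apply IsFractionRing.injective (MvPolynomial (Fin N) K) F
    rw [map_zero, ← h, d.pb_eq', map_sum]
    refine Finset.sum_congr rfl fun l _ => ?_
    rw [map_sum]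
    refine Finset.sum_congr rfl fun m _ => ?_
    rw [map_mul, map_mul]; rfl
  · intro i j
    have h := (Lsub_iso (d.matA F) (d.matB a F) d.matA_anti (d.matB_anti a) _ (d.MG_iso a F hB)
      (ρ := gr F (P (e.symm i))) (ρ' := gr F (P (e.symm j))) (hP1 _) (hP1 _)).2
    apply IsFractionRing.injective (MvPolynomial (Fin N) K) F
    rw [map_zero, ← h, map_sum]
    refine Finset.sum_congr rfl fun l _ => ?_
    rw [map_sum]
    refine Finset.sum_congr rfl fun m _ => ?_
    rw [map_mul, map_mul, matB, IsScalarTower.algebraMap_apply K (MvPolynomial (Fin N) K) F,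
      MvPolynomial.algebraMap_eq]
    rfl
  · have h1 : (fun i : Fin (Fintype.card s) => gr F (P (e.symm i))) =
        (fun x : s => (x : Fin N → F)) ∘ e.symm := by
      funext i
      exact hP2 _
    rw [h1]
    exact hli.comp _ e.symm.injective

end Pool.Agent.H865_nil.NData
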