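import Pool.Agent.H865_nil.Ros

/-!
Passing to a generic point of the orbit.
-/

open PowerSeries

namespace Pool.Agent.H865_nil

universe u

variable {k A : Type*} {F : Type u} [Field k] [CommRing A] [Algebra k A] [Field F] [Algebra k F]

/-- exponential generating series of the iterates of `D` -/
noncomputable def E (D : Derivation k A A) (g : A →ₗ[k] F) : A →ₗ[k] F⟦X⟧ where
  toFun f := PowerSeries.mk fun n => (n.factorial : F)⁻¹ * g (D^[n] f)
  map_add' := by
    intro f h
    ext n
    simp only [coeff_mk, map_add]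
    rw [iterate_map_add D n, map_add]; ring
  map_smul' := by
    intro c f
    ext n
    have h1 : D^[n] (c • f) = c • D^[n] f := by
      induction n with
      | zero => rfl
      | succ n ih => rw [Function.iterate_succ_apply', ih, Function.iterate_succ_apply', D.map_smul]
    simp only [coeff_mk, RingHom.id_apply]
    rw [h1, map_smul, coeff_smul, coeff_mk]
    rw [mul_smul_comm]

lemma coeff_E (D : Derivation k A A) (g : A →ₗ[k] F) (f : A) (n : ℕ) :
    coeff n (E D g f) = (n.factorial : F)⁻¹ * g (D^[n] f) := by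
  simp [E]

lemma deriv_E [CharZero F] (D : Derivation k A A) (g : A →ₗ[k] F) (f : A) :
    d⁄dX F (E D g f) = E D g (D f) := by
  ext n
  rw [coeff_derivative, coeff_E, coeff_E, Function.iterate_succ_apply, Nat.factorial_succ]
  have h1 : ((n : F) + 1) ≠ 0 := Nat.cast_add_one_ne_zero n
  have h2 : (n.factorial : F) ≠ 0 := Nat.cast_ne_zero.2 (Nat.factorial_ne_zero n)
  push_cast
  field_simp

lemma coeff_succ_eq [CharZero F] {p q : F⟦X⟧} {n : ℕ}
    (h : coeff n (d⁄dX F p) = coeff n (d⁄dX F q)) : coeff (n + 1) p = coeff (n + 1) q := by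
  rw [coeff_derivative, coeff_derivative] at h
  exact mul_right_cancel₀ (Nat.cast_add_one_ne_zero n) h

lemma E_mul [CharZero F] (D : Derivation k A A) (ev : A →ₐ[k] F) (ν : A →ₗ[k] F) (hν : IsDer ev ν)
    (f g : A) : E D ν (f * g) =
      E D ev.toLinearMap f * E D ν g + E D ev.toLinearMap g * E D ν f := by
  ext n
  induction n generalizing f g with
  | zero =>
    simp only [coeff_E, coeff_zero_eq_constantCoeff, map_add, map_mul]
    simp only [← coeff_zero_eq_constantCoeff, coeff_E]
    simp [hν f g]
  | succ n ih =>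
    apply coeff_succ_eq
    simp only [map_add, Derivation.leibniz, deriv_E, smul_eq_mul, ih]
    rw [mul_comm (E D ν g), mul_comm (E D ν f)]
    ring

lemma E_mul_ev [CharZero F] (D : Derivation k A A) (ev : A →ₐ[k] F)
    (f g : A) : E D ev.toLinearMap (f * g) =
      E D ev.toLinearMap f * E D ev.toLinearMap g := by
  ext n
  induction n generalizing f g with
  | zero =>
    simp only [coeff_zero_eq_constantCoeff, map_mul]
    simp only [← coeff_zero_eq_constantCoeff, coeff_E]
    simp
  | succ n ih =>
    apply coeff_succ_eq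
    simp only [map_add, Derivation.leibniz, deriv_E, smul_eq_mul, ih]

lemma E_one [CharZero F] (D : Derivation k A A) (ev : A →ₐ[k] F) :
    E D ev.toLinearMap 1 = 1 := by
  ext n
  rw [coeff_E, coeff_one]
  rcases n with _ | n
  · simp
  · rw [Function.iterate_succ_apply, Derivation.map_one_eq_zero]
    have : D^[n] (0 : A) = 0 := iterate_map_zero D n
    rw [this]; simp

/-- The generic evaluation. -/
noncomputable def Eev [CharZero F] (D : Derivation k A A) (ev : A →ₐ[k] F) : A →ₐ[k] F⟦X⟧ :=
  AlgHom.ofLinearMap (E D ev.toLinearMap) (E_one D ev) (E_mul_ev D ev)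

lemma Eev_apply [CharZero F] (D : Derivation k A A) (ev : A →ₐ[k] F) (f : A) :
    Eev D ev f = E D ev.toLinearMap f := rfl

section chain

variable {s : ℕ} (δ : Fin s → Derivation k A A) (c : Fin s → Fin s → Fin s → k) (i₀ : Fin s)

/-- action of `ad (δ i₀)` on coefficient vectors -/
def T (x : Fin s → k) : Fin s → k := fun m => ∑ l, x l * c i₀ l m

lemma T_spec (hbr : ∀ i j f, δ i (δ j f) - δ j (δ i f) = ∑ l, c i j l • δ l f)
    (x : Fin s → k) (f : A) :
    δ i₀ (∑ l, x l • δ l f) = ∑ l, x l • δ l (δ i₀ f) + ∑ l, T c i₀ x l • δ l f := by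
  have h1 : ∀ l, δ i₀ (δ l f) = δ l (δ i₀ f) + ∑ m, c i₀ l m • δ m f := by
    intro l; rw [← hbr i₀ l f]; ring
  simp only [map_sum, Derivation.map_smul, h1, smul_add, Finset.sum_add_distrib]
  congr 1
  simp only [T, Finset.smul_sum, Finset.sum_smul, smul_smul]
  rw [Finset.sum_comm]

/-- coefficient series -/
noncomputable def γ (x : Fin s → k) (l : Fin s) : F⟦X⟧ :=
  PowerSeries.mk fun n => (n.factorial : F)⁻¹ * algebraMap k F ((T c i₀)^[n] x l)

lemma deriv_γ [CharZero F] (x : Fin s → k) (l : Fin s) :
    d⁄dX F (γ (F := F) c i₀ x l) = γ c i₀ (T c i₀ x) l := by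
  ext n
  rw [coeff_derivative]
  simp only [γ, coeff_mk]
  rw [Function.iterate_succ_apply, Nat.factorial_succ]
  have h1 : ((n : F) + 1) ≠ 0 := Nat.cast_add_one_ne_zero n
  have h2 : (n.factorial : F) ≠ 0 := Nat.cast_ne_zero.2 (Nat.factorial_ne_zero n)
  push_cast
  field_simp

lemma E_ad [CharZero F] (hbr : ∀ i j f, δ i (δ j f) - δ j (δ i f) = ∑ l, c i j l • δ l f)
    (ev : A →ₗ[k] F) (x : Fin s → k) (f : A) :
    E (δ i₀) ev (∑ l, x l • δ l f) =
      ∑ l, γ c i₀ x l * E (δ i₀) (ev ∘ₗ (δ l).toLinearMap) f := by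
  ext n
  induction n generalizing x f with
  | zero =>
    simp only [coeff_zero_eq_constantCoeff, map_sum, map_mul]
    simp only [← coeff_zero_eq_constantCoeff, coeff_E, γ, coeff_mk]
    simp only [Nat.factorial_zero, Nat.cast_one, inv_one, one_mul, Function.iterate_zero, id_eq,
      map_smul, LinearMap.coe_comp, Function.comp_apply, Derivation.coeFn_coe]
    exact Finset.sum_congr rfl fun l _ => Algebra.smul_def _ _
  | succ n ih =>
    apply coeff_succ_eq
    rw [deriv_E, T_spec δ c i₀ hbr, map_add, map_add, ih, ih, map_sum, map_sum, map_sum]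
    rw [map_sum, ← Finset.sum_add_distrib]
    refine Finset.sum_congr rfl fun l _ => ?_
    rw [Derivation.leibniz, deriv_E, deriv_γ]
    simp only [smul_eq_mul, map_add]
    congr 2
    ring

end chain

lemma E_trunc (D : Derivation k A A) (g : A →ₗ[k] F) (f : A) {n : ℕ} (h : D^[n] f = 0) :
    E D g f = ∑ m ∈ Finset.range n, C ((m.factorial : F)⁻¹ * g (D^[m] f)) * X ^ m := by
  ext p
  rw [coeff_E, map_sum]
  simp only [coeff_C_mul_X_pow]
  rw [Finset.sum_ite_eq (Finset.range n) p (fun m => (m.factorial : F)⁻¹ * g (D^[m] f))]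
  split_ifs with hp
  · rfl
  · have h1 : n ≤ p := by simpa using hp
    obtain ⟨q, rfl⟩ := Nat.exists_eq_add_of_le h1
    rw [add_comm n q, Function.iterate_add_apply, h, iterate_map_zero D q, map_zero, mul_zero]

/-- word in the derivations applied to an element -/
def word {s : ℕ} (δ : Fin s → Derivation k A A) (w : List (Fin s)) (f : A) : A :=
  w.foldr (fun i g => δ i g) f

/-- The general statement. -/
theorem ros_aux {s : ℕ} (B : Subalgebra k A)
    (δ : Fin s → Derivation k A A) (hδB : ∀ i f, f ∈ B → δ i f ∈ B)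
    (c : Fin s → Fin s → Fin s → k) (hc : ∀ i j l, c i j l ≠ 0 → l < i ∧ l < j)
    (hbr : ∀ i j f, δ i (δ j f) - δ j (δ i f) = ∑ l, c i j l • δ l f)
    (hnil : ∀ i f, f ∈ B → ∃ n, (δ i)^[n] f = 0) (m : ℕ) (hm : m ≤ s) :
    ∀ (F : Type u) [Field F] [CharZero F] [Algebra k F] (ev : A →ₐ[k] F)
    (_ : ∀ i : Fin s, (i : ℕ) < s - m → ∀ f, f ∈ B → ev f = 0 → ev (δ i f) = 0)
    (ν : A →ₗ[k] F) (_ : IsDer ev ν) (_ : ∀ f ∈ B, ev f = 0 → ν f = 0)
    (_ : ∀ H ∈ B, (∀ w : List (Fin s), w ≠ [] → ev (word δ w H) = 0) → ν H = 0),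
    ∃ b : Fin s → F, ∀ f ∈ B, ν f = ∑ i, b i * ev (δ i f) := by
  classical
  have hBit : ∀ (i : Fin s) n f, f ∈ B → (δ i)^[n] f ∈ B := by
    intro i n
    induction n with
    | zero => intro f hf; exact hf
    | succ n ih => intro f hf; rw [Function.iterate_succ_apply]; exact ih _ (hδB i f hf)
  have hBw : ∀ (w : List (Fin s)) f, f ∈ B → word δ w f ∈ B := by
    intro w
    induction w with
    | nil => intro f hf; exact hf
    | cons i w ih => intro f hf; exact hδB i _ (ih f hf)
  induction m with
  | zero =>
    intro F _ _ _ ev hst ν hν hν0 hinv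
    have hst' : ∀ i f, f ∈ B → ev f = 0 → ev (δ i f) = 0 := fun i f hf h =>
      hst i (by omega) f hf h
    refine ros_stable ev B δ hδB c hc hbr hnil hst' ν hν hν0 ?_
    intro f hf h
    apply hinv f hf
    intro w
    induction w with
    | nil => intro h; exact absurd rfl h
    | cons i w ih =>
      intro _
      by_cases hw : w = []
      · subst hw; exact h i
      · exact hst' i _ (hBw w f hf) (ih hw)
  | succ m ih =>
    intro F _ _ _ ev hst ν hν hν0 hinv
    set i₀ : Fin s := ⟨s - (m + 1), by omega⟩ with hi₀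
    set D := δ i₀ with hD
    let F' := FractionRing F⟦X⟧
    have hinjF : Function.Injective (algebraMap F⟦X⟧ F') := IsFractionRing.injective _ _
    have hchar : CharZero F' := charZero_of_injective_algebraMap (R := F)
      (FaithfulSMul.algebraMap_injective F F')
    let ev' : A →ₐ[k] F' := (IsScalarTower.toAlgHom k F⟦X⟧ F').comp (Eev D ev)
    let ν' : A →ₗ[k] F' := (IsScalarTower.toAlgHom k F⟦X⟧ F').toLinearMap ∘ₗ E D ν
    have hev' : ∀ f, ev' f = algebraMap F⟦X⟧ F' (E D ev.toLinearMap f) := fun f => rfl
    have hν' : ∀ f, ν' f = algebraMap F⟦X⟧ F' (E D ν f) := fun f => rfl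
    have hev'0 : ∀ f, ev' f = 0 ↔ ∀ n, ev (D^[n] f) = 0 := by
      intro f
      rw [hev', map_eq_zero_iff _ hinjF]
      constructor
      · intro h n
        have := congrArg (coeff n) h
        rw [coeff_E, map_zero] at this
        have h2 : (n.factorial : F)⁻¹ ≠ 0 :=
          inv_ne_zero (Nat.cast_ne_zero.2 (Nat.factorial_ne_zero n))
        exact (mul_eq_zero.1 this).resolve_left h2
      · intro h
        ext n
        rw [coeff_E, map_zero]
        have : ev.toLinearMap (D^[n] f) = 0 := h n
        rw [this, mul_zero]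
    obtain ⟨b', hb'⟩ := ih (by omega) F' ev' (by
      intro i hi f hf h
      rw [hev'0] at h ⊢
      rcases Nat.lt_or_ge (i : ℕ) (s - (m + 1)) with h1 | h1
      · -- general claim
        have key : ∀ n (x : Fin s → k), (∀ l, x l ≠ 0 → (l : ℕ) < s - (m + 1)) → ∀ f ∈ B,
            (∀ n, ev (D^[n] f) = 0) → ev (D^[n] (∑ l, x l • δ l f)) = 0 := by
          intro n
          induction n with
          | zero =>
            intro x hx f hf h
            rw [Function.iterate_zero, id_eq, map_sum]
            refine Finset.sum_eq_zero fun l _ => ?_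
            by_cases hxl : x l = 0
            · rw [hxl, zero_smul, map_zero]
            · rw [map_smul, hst l (hx l hxl) f hf (h 0), smul_zero]
          | succ n ihn =>
            intro x hx f hf h
            rw [Function.iterate_succ_apply, hD, T_spec δ c i₀ hbr, ← hD, iterate_map_add D n,
              map_add, ihn x hx (D f) (hδB _ _ hf) (fun n => by
                rw [← Function.iterate_succ_apply]; exact h (n + 1)), zero_add]
            apply ihn _ _ f hf h
            intro l hl
            unfold T at hl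
            obtain ⟨l', -, hl'⟩ := Finset.exists_ne_zero_of_sum_ne_zero hl
            have h2 := hx l' (left_ne_zero_of_mul hl')
            have h3 := (hc _ _ _ (right_ne_zero_of_mul hl')).2
            exact lt_trans h3 h2
        intro n
        have := key n (Pi.single i 1) (by
          intro l hl
          have : l = i := by
            by_contra hli
            exact hl (Pi.single_eq_of_ne hli 1)
          rw [this]; exact h1) f hf h
        have e : ∑ l, (Pi.single i 1 : Fin s → k) l • δ l f = δ i f := by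
          simp [Pi.single_apply]
        rwa [e] at this
      · have : i = i₀ := Fin.ext (by rw [hi₀]; simp only; omega)
        intro n
        rw [this, ← hD, ← Function.iterate_succ_apply]
        exact h (n + 1)) ν' (by
      intro f g
      rw [hν', hν', hν', hev', hev', E_mul D ev ν hν, map_add, map_mul, map_mul]) (by
      intro f hf h
      rw [hev'0] at h
      rw [hν']
      have : E D ν f = 0 := by
        ext n
        rw [coeff_E, hν0 _ (hBit _ n f hf) (h n), mul_zero, map_zero]
      rw [this, map_zero]) (by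
      intro H hH hw
      have hw' : ∀ w : List (Fin s), w ≠ [] → ev (word δ w H) = 0 := by
        intro w hwne
        have := (hev'0 _).1 (hw w hwne) 0
        exact this
      rw [hν']
      have : E D ν H = 0 := by
        ext n
        rw [coeff_E, map_zero]
        rcases n with _ | n
        · have : ν (D^[0] H) = 0 := hinv H hH hw'
          rw [this, mul_zero]
        · have e : ∀ n, D^[n] H = word δ (List.replicate n i₀) H := by
            intro n
            induction n with
            | zero => rfl
            | succ n ihn =>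
              rw [Function.iterate_succ_apply', ihn, List.replicate_succ]
              rfl
          rw [hν0 _ (hBit _ _ H hH) (by
            rw [← hD, e]
            apply hw'
            simp), mul_zero]
      rw [this, map_zero])
    -- descend
    set b'' : Fin s → F' := fun l => ∑ j, b' j * algebraMap F⟦X⟧ F'
      (γ (F := F) c i₀ (Pi.single j 1) l) with hb''
    have hid : ∀ f ∈ B, algebraMap F⟦X⟧ F' (E D ν f) =
        ∑ l, b'' l * algebraMap F⟦X⟧ F' (E D (ev.toLinearMap ∘ₗ (δ l).toLinearMap) f) := by
      intro f hf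
      rw [← hν', hb' f hf]
      have h1 : ∀ j, ev' (δ j f) = ∑ l, algebraMap F⟦X⟧ F' (γ (F := F) c i₀ (Pi.single j 1) l) *
          algebraMap F⟦X⟧ F' (E D (ev.toLinearMap ∘ₗ (δ l).toLinearMap) f) := by
        intro j
        have e : ∑ l, (Pi.single j 1 : Fin s → k) l • δ l f = δ j f := by
          simp [Pi.single_apply]
        rw [hev', ← e, hD, E_ad δ c i₀ hbr, map_sum]
        exact Finset.sum_congr rfl fun l _ => by rw [map_mul]
      simp only [h1, hb'', Finset.mul_sum, Finset.sum_mul]
      rw [Finset.sum_comm]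
      exact Finset.sum_congr rfl fun l _ => Finset.sum_congr rfl fun j _ => by ring
    set Δ : A → F' := fun f => algebraMap F⟦X⟧ F' (C (ν f)) -
      ∑ l, b'' l * algebraMap F⟦X⟧ F' (C (ev (δ l f))) with hΔ
    have hΔ0 : ∀ n, ∀ f ∈ B, D^[n] f = 0 → Δ f = 0 := by
      intro n
      induction n with
      | zero =>
        intro f hf h
        have : f = 0 := h
        simp [hΔ, this]
      | succ n ihn =>
        intro f hf h
        have h1 := hid f hf
        rw [E_trunc D ν f h] at h1
        have h2 : ∀ l, E D (ev.toLinearMap ∘ₗ (δ l).toLinearMap) f = ∑ m ∈ Finset.range (n + 1),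
            C ((m.factorial : F)⁻¹ * ev (δ l (D^[m] f))) * X ^ m := fun l => E_trunc D _ f h
        simp only [h2] at h1
        have h3 : ∑ m ∈ Finset.range (n + 1), algebraMap F⟦X⟧ F' (C ((m.factorial : F)⁻¹)) *
            algebraMap F⟦X⟧ F' (X ^ m) * Δ (D^[m] f) = 0 := by
          rw [map_sum] at h1
          simp only [map_sum, map_mul, Finset.mul_sum] at h1
          rw [Finset.sum_comm] at h1
          rw [← sub_eq_zero, ← Finset.sum_sub_distrib] at h1
          rw [← h1]
          refine Finset.sum_congr rfl fun m _ => ?_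
          simp only [hΔ, mul_sub, Finset.mul_sum]
          congr 1
          · ring
          · exact Finset.sum_congr rfl fun l _ => by ring
        rw [Finset.sum_range_succ'] at h3
        have h4 : ∑ m ∈ Finset.range n, algebraMap F⟦X⟧ F' (C (((m + 1).factorial : F)⁻¹)) *
            algebraMap F⟦X⟧ F' (X ^ (m + 1)) * Δ (D^[m + 1] f) = 0 := by
          refine Finset.sum_eq_zero fun m _ => ?_
          rw [ihn (D^[m + 1] f) (hBit _ _ f hf) (by
            rw [← Function.iterate_add_apply, show n + (m + 1) = m + (n + 1) by ring,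
              Function.iterate_add_apply, h, iterate_map_zero D m]), mul_zero]
        rw [h4, zero_add] at h3
        simpa using h3
    obtain ⟨ρ, hρ⟩ := LinearMap.exists_leftInverse_of_injective (Algebra.linearMap F F')
      (LinearMap.ker_eq_bot.2 (FaithfulSMul.algebraMap_injective F F'))
    refine ⟨fun l => ρ (b'' l), fun f hf => ?_⟩
    obtain ⟨n, hn⟩ := hnil i₀ f hf
    have h1 := hΔ0 n f hf hn
    rw [hΔ, sub_eq_zero] at h1
    have hC : ∀ a : F, algebraMap F⟦X⟧ F' (C a) = algebraMap F F' a := by
      intro a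
      rw [IsScalarTower.algebraMap_apply F F⟦X⟧ F']
      rfl
    simp only [hC] at h1
    have h2 := congrArg ρ h1
    have h3 : ρ (algebraMap F F' (ν f)) = ν f := by
      have := congrArg (fun g : F →ₗ[F] F => g (ν f)) hρ
      simpa using this
    rw [h3, map_sum] at h2
    rw [h2]
    refine Finset.sum_congr rfl fun l _ => ?_
    rw [mul_comm, ← Algebra.smul_def, map_smul, smul_eq_mul, mul_comm]

/-- Infinitesimal Rosenlicht theorem at an arbitrary point. -/
theorem ros {s : ℕ} (B : Subalgebra k A)
    (δ : Fin s → Derivation k A A) (hδB : ∀ i f, f ∈ B → δ i f ∈ B)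
    (c : Fin s → Fin s → Fin s → k) (hc : ∀ i j l, c i j l ≠ 0 → l < i ∧ l < j)
    (hbr : ∀ i j f, δ i (δ j f) - δ j (δ i f) = ∑ l, c i j l • δ l f)
    (hnil : ∀ i f, f ∈ B → ∃ n, (δ i)^[n] f = 0) [CharZero F] (ev : A →ₐ[k] F)
    (ν : A →ₗ[k] F) (hν : IsDer ev ν) (hν0 : ∀ f ∈ B, ev f = 0 → ν f = 0)
    (hinv : ∀ H ∈ B, (∀ w : List (Fin s), w ≠ [] → ev (word δ w H) = 0) → ν H = 0) :
    ∃ b : Fin s → F, ∀ f ∈ B, ν f = ∑ i, b i * ev (δ i f) :=
  ros_aux B δ hδB c hc hbr hnil s le_rfl F ev (fun i hi => by omega) ν hν hν0 hinv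

end Pool.Agent.H865_nil
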