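import Pool.Agent.H865_nil.Quot
import Pool.Agent.H865_nil.Gen

/-!
Kernel statements for the generic Lie-Poisson structure, at an arbitrary generic point.
-/

open MvPolynomial

set_option linter.unusedSectionVars false

namespace Pool.Agent.H865_nil.NData

variable {K : Type*} [Field K] [CharZero K] {N : ℕ} (d : NData K N)
  {F : Type*} [Field F] [Algebra K F] [CharZero F]

/-- the derivation along `τ` with components `v` -/
noncomputable def nu (τ : MvPolynomial (Fin N) K →ₐ[K] F) (v : Fin N → F) :
    MvPolynomial (Fin N) K →ₗ[K] F :=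
  ∑ m, v m • (τ.toLinearMap ∘ₗ (pderiv m).toLinearMap)

lemma nu_apply (τ : MvPolynomial (Fin N) K →ₐ[K] F) (v : Fin N → F) (f : MvPolynomial (Fin N) K) :
    nu τ v f = ∑ m, v m * τ (pderiv m f) := by
  simp [nu, LinearMap.sum_apply]

lemma nu_isDer (τ : MvPolynomial (Fin N) K →ₐ[K] F) (v : Fin N → F) : IsDer τ (nu τ v) := by
  intro f g
  simp only [nu_apply, Derivation.leibniz, smul_eq_mul, map_add, map_mul, mul_add,
    Finset.sum_add_distrib, Finset.mul_sum]
  congr 1 <;> exact Finset.sum_congr rfl fun m _ => by ring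

theorem exists_of_kill_inv (τ : MvPolynomial (Fin N) K →ₐ[K] F) (hτ : Function.Injective τ)
    (v : Fin N → F)
    (hv : ∀ f, (∀ i, d.D i f = 0) → ∑ m, v m * τ (pderiv m f) = 0) :
    ∃ b : Fin N → F, ∀ f, ∑ m, v m * τ (pderiv m f) = ∑ l, b l * τ (d.D l f) := by
  obtain ⟨b, hb⟩ := ros (k := K) (A := MvPolynomial (Fin N) K) (F := F) ⊤ d.D
    (fun _ _ _ => Algebra.mem_top) d.g d.nil d.D_comm' (fun i f _ => d.locnil i f) τ (nu τ v)
    (nu_isDer τ v)
    (fun f _ hf => by
      rw [(map_eq_zero_iff τ hτ).1 hf, map_zero])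
    (fun H _ hH => by
      rw [nu_apply]
      refine hv H fun i => (map_eq_zero_iff τ hτ).1 ?_
      exact hH [i] (by simp))
  refine ⟨b, fun f => ?_⟩
  rw [← nu_apply]
  exact hb f Algebra.mem_top

/-- vectors killed by all rows are in the span of the gradients of `B` -/
theorem mem_span_grad {B : Subalgebra K (MvPolynomial (Fin N) K)} (hB : d.SC B)
    (hmax : ∀ f, (∀ h ∈ B, d.pb h f = 0) → f ∈ B)
    {Q : MvPolynomial (Fin N) K} (hQ0 : Q ≠ 0) (hQB : Q ∈ B) (hQ : d.Adm B Q)
    (τ : MvPolynomial (Fin N) K →ₐ[K] F) (hτ : Function.Injective τ) (w : Fin N → F)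
    (hw : ∀ c ∈ B, ∑ l, w l * τ (d.D l c) = 0) :
    w ∈ Submodule.span F ((fun c => fun m => τ (pderiv m c)) ''
      (B : Set (MvPolynomial (Fin N) K))) := by
  classical
  obtain ⟨Ψ, h1, h2⟩ := hQ
  -- entries of rows are in B
  have hRB : ∀ r ∈ d.R B, ∀ u, r u ∈ B := by
    intro r hr
    induction hr using Submodule.span_induction with
    | mem x hx =>
      obtain ⟨c, hc, rfl⟩ := hx
      exact fun u => hB.stab u c hc
    | zero => exact fun u => B.zero_mem
    | add x y _ _ hx hy => exact fun u => B.add_mem (hx u) (hy u)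
    | smul a x _ hx => exact fun u => B.mul_mem a.2 (hx u)
  -- w kills the rows
  have hwR : ∀ r ∈ d.R B, ∑ u, w u * τ (r u) = 0 := by
    intro r hr
    induction hr using Submodule.span_induction with
    | mem x hx =>
      obtain ⟨c, hc, rfl⟩ := hx
      exact hw c hc
    | zero => simp
    | add x y _ _ hx hy =>
      simp only [Pi.add_apply, map_add, mul_add, Finset.sum_add_distrib, hx, hy, add_zero]
    | smul a x _ hx =>
      have : ∀ u, w u * τ ((a • x) u) = τ a * (w u * τ (x u)) := by
        intro u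
        have e : (a • x) u = (a : MvPolynomial (Fin N) K) * x u := rfl
        rw [e, map_mul]; ring
      rw [Finset.sum_congr rfl fun u _ => this u, ← Finset.mul_sum, hx, mul_zero]
  -- the columns
  let b : Fin N → Fin N → MvPolynomial (Fin N) K := fun u l => (if l = u then Q else 0) - Ψ l u
  have hbB : ∀ u l, b u l ∈ B := by
    intro u l
    refine B.sub_mem ?_ (hRB _ (h1 l) u)
    split_ifs
    · exact hQB
    · exact B.zero_mem
  have hb0 : ∀ u, ∀ c ∈ B, ∑ l, b u l * d.D l c = 0 := by
    intro u c hc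
    have : ∀ l, b u l * d.D l c = (if l = u then Q * d.D l c else 0) - d.D l c * Ψ l u := by
      intro l
      simp only [b]
      split_ifs <;> ring
    rw [Finset.sum_congr rfl fun l _ => this l, Finset.sum_sub_distrib, ← h2 c hc u]
    simp
  set W := Submodule.span F ((fun c => fun m => τ (pderiv m c)) ''
      (B : Set (MvPolynomial (Fin N) K))) with hW
  have hgrad : ∀ c ∈ B, (fun m => τ (pderiv m c)) ∈ W := fun c hc =>
    Submodule.subset_span ⟨c, hc, rfl⟩
  have hbW : ∀ u, (fun l => τ (b u l)) ∈ W := by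
    intro u
    have hG : ∑ l, b u l * X l ∈ B := by
      apply hmax
      intro h hh
      have e1 : d.pb h (∑ l, b u l * X l) = ∑ l, (b u l * d.pb h (X l) + X l * d.pb h (b u l)) := by
        rw [show d.pb h (∑ l, b u l * X l) = d.pbD h (∑ l, b u l * X l) from rfl, map_sum]
        exact Finset.sum_congr rfl fun l _ => d.pb_mul_right h (b u l) (X l)
      rw [e1]
      have e2 : ∀ l, b u l * d.pb h (X l) + X l * d.pb h (b u l) = - (b u l * d.D l h) := by
        intro l
        rw [hB.comm h hh _ (hbB u l), d.pb_anti h (X l), pb_X_left]; ring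
      rw [Finset.sum_congr rfl fun l _ => e2 l, Finset.sum_neg_distrib, hb0 u h hh, neg_zero]
    have e3 : (fun l => τ (b u l)) = (fun m => τ (pderiv m (∑ l, b u l * X l))) -
        ∑ l, τ (X l) • (fun m => τ (pderiv m (b u l))) := by
      funext m
      rw [Pi.sub_apply, Finset.sum_apply, map_sum, map_sum]
      have : ∀ l, τ (pderiv m (b u l * X l)) = (if l = m then τ (b u l) else 0) +
          τ (X l) * τ (pderiv m (b u l)) := by
        intro l
        rw [Derivation.leibniz, smul_eq_mul, smul_eq_mul, map_add, map_mul, map_mul, pderiv_X]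
        by_cases h : l = m
        · subst h; simp
        · rw [if_neg h, Pi.single_apply, if_neg h, map_zero, mul_zero]
      rw [Finset.sum_congr rfl fun l _ => this l, Finset.sum_add_distrib]
      simp
    rw [e3]
    exact W.sub_mem (hgrad _ hG) (W.sum_mem fun l _ => W.smul_mem _ (hgrad _ (hbB u l)))
  have hfin : τ Q • w = ∑ u, w u • (fun l => τ (b u l)) := by
    funext l
    rw [Finset.sum_apply, Pi.smul_apply, smul_eq_mul]
    have : ∀ u, (w u • (fun l => τ (b u l))) l = (if l = u then w u * τ Q else 0) -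
        w u * τ (Ψ l u) := by
      intro u
      simp only [Pi.smul_apply, smul_eq_mul, b, map_sub]
      split_ifs
      · ring
      · rw [map_zero]; ring
    rw [Finset.sum_congr rfl fun u _ => this u, Finset.sum_sub_distrib, hwR _ (h1 l)]
    simp [mul_comm]
  have hQ' : τ Q ≠ 0 := by rwa [Ne, map_eq_zero_iff τ hτ]
  have : w = (τ Q)⁻¹ • ∑ u, w u • (fun l => τ (b u l)) := by
    rw [← hfin, inv_smul_smul₀ hQ']
  rw [this]
  exact W.smul_mem _ (W.sum_mem fun u _ => W.smul_mem _ (hbW u))

end Pool.Agent.H865_nil.NData
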