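import Pool.Agent.H865_nil.Point
import Pool.Agent.H865_nil.Ker

/-!
Assembly: the space of gradients is large.
-/

open MvPolynomial Module

set_option linter.unusedSectionVars false

namespace Pool.Agent.H865_nil.NData


lemma mem_of_forall_dot {F : Type*} [Field F] {N : ℕ} (L : Submodule F (Fin N → F))
    (ρ : Fin N → F)
    (h : ∀ u : Fin N → F, (∀ r ∈ L, ∑ m, u m * r m = 0) → ∑ m, u m * ρ m = 0) : ρ ∈ L := by
  classical
  by_contra hn
  obtain ⟨f, hf, hL⟩ := Submodule.exists_le_ker_of_notMem hn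
  have hr : ∀ r : Fin N → F, f r = ∑ m, f (Pi.single m 1) * r m := by
    intro r
    have h1 : r = ∑ m, r m • (Pi.single m 1 : Fin N → F) := by
      funext u
      simp [Finset.sum_apply, Pi.single_apply]
    conv_lhs => rw [h1]
    rw [map_sum]
    refine Finset.sum_congr rfl fun m _ => ?_
    rw [map_smul, smul_eq_mul, mul_comm]
  apply hf
  rw [hr]
  apply h
  intro r hr'
  rw [← hr]
  exact hL hr'

variable {K : Type*} [Field K] [CharZero K] {N : ℕ} (d : NData K N) (a : Fin N → K)
variable (F : Type*) [Field F] [Algebra (MvPolynomial (Fin N) K) F]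
  [IsFractionRing (MvPolynomial (Fin N) K) F] [Algebra K F]
  [IsScalarTower K (MvPolynomial (Fin N) K) F]
variable (B : Subalgebra K (MvPolynomial (Fin N) K))

/-- gradient over the function field -/
noncomputable def gr (P : MvPolynomial (Fin N) K) (m : Fin N) : F :=
  algebraMap (MvPolynomial (Fin N) K) F (pderiv m P)

/-- the bi-isotropic space -/
noncomputable def LL : Submodule F (Fin N → F) :=
  Lsub (d.matA F) (d.matB a F) (MG (pt a F) B)

/-- polynomials with gradient in `LL` -/
noncomputable def SL : Subalgebra K (MvPolynomial (Fin N) K) where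
  carrier := {P | gr F P ∈ d.LL a F B}
  mul_mem' := by
    intro P Q hP hQ
    have h : gr F (P * Q) = algebraMap _ F P • gr F Q + algebraMap _ F Q • gr F P := by
      funext m
      simp only [gr, Derivation.leibniz, smul_eq_mul, map_add, map_mul, Pi.add_apply,
        Pi.smul_apply]
    rw [Set.mem_ofPred_eq, h]
    exact Submodule.add_mem _ (Submodule.smul_mem _ _ hQ) (Submodule.smul_mem _ _ hP)
  add_mem' := by
    intro P Q hP hQ
    have h : gr F (P + Q) = gr F P + gr F Q := by
      funext m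
      simp only [gr, map_add, Pi.add_apply]
    rw [Set.mem_ofPred_eq, h]
    exact Submodule.add_mem _ hP hQ
  algebraMap_mem' := by
    intro r
    have h : gr F (algebraMap K (MvPolynomial (Fin N) K) r) = 0 := by
      funext m
      simp only [gr, MvPolynomial.algebraMap_eq, pderiv_C, map_zero, Pi.zero_apply]
    rw [Set.mem_ofPred_eq, h]
    exact Submodule.zero_mem _

lemma mem_SL (P : MvPolynomial (Fin N) K) : P ∈ d.SL a F B ↔ gr F P ∈ d.LL a F B := Iff.rfl

variable {B}

lemma MG_iso (hB : d.SC B) : ∀ G ∈ MG (pt a F) B, ∀ G' ∈ MG (pt a F) B,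
    ∑ l, ∑ m, G l * pen (d.matA F) (d.matB a F) l m * G' m = 0 := by
  intro G hG G' hG'
  induction hG using Submodule.span_induction with
  | mem x hx =>
    obtain ⟨c, hc, rfl⟩ := hx
    induction hG' using Submodule.span_induction with
    | mem x hx =>
      obtain ⟨c', hc', rfl⟩ := hx
      have h := congrArg (aeval (pt a F)) (hB.comm c hc c' hc')
      rw [d.pb_eq', map_zero, map_sum] at h
      rw [← h]
      refine Finset.sum_congr rfl fun l _ => ?_
      rw [map_sum]
      refine Finset.sum_congr rfl fun m _ => ?_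
      rw [map_mul, map_mul, d.pen_eq a]
    | zero => simp
    | add x y _ _ hx hy =>
      simp only [Pi.add_apply, mul_add, Finset.sum_add_distrib, hx, hy, add_zero]
    | smul t x _ hx =>
      have : ∀ l m, aeval (pt a F) (pderiv l c) * pen (d.matA F) (d.matB a F) l m * (t • x) m =
          t * (aeval (pt a F) (pderiv l c) * pen (d.matA F) (d.matB a F) l m * x m) := by
        intro l m
        rw [Pi.smul_apply, smul_eq_mul]; ring
      simp only [this, ← Finset.mul_sum, hx, mul_zero]
  | zero => simp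
  | add x y _ _ hx hy =>
    simp only [Pi.add_apply, add_mul, Finset.sum_add_distrib, hx, hy, add_zero]
  | smul t x _ hx =>
    have : ∀ l m, (t • x) l * pen (d.matA F) (d.matB a F) l m * G' m =
        t * (x l * pen (d.matA F) (d.matB a F) l m * G' m) := by
      intro l m
      rw [Pi.smul_apply, smul_eq_mul]; ring
    simp only [this, ← Finset.mul_sum, hx, mul_zero]

lemma inv_mem (hmax : ∀ f, (∀ h ∈ B, d.pb h f = 0) → f ∈ B) {f : MvPolynomial (Fin N) K}
    (hf : ∀ i, d.D i f = 0) : f ∈ B := by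
  apply hmax
  intro h _
  rw [pb_eq]
  exact Finset.sum_eq_zero fun i _ => by rw [hf i, mul_zero]

lemma coeff_mem_SL (hmax : ∀ f, (∀ h ∈ B, d.pb h f = 0) → f ∈ B) {f : MvPolynomial (Fin N) K}
    (hf : ∀ i, d.D i f = 0) (j : ℕ) : (sigS a f).coeff j ∈ d.SL a F B := by
  rw [mem_SL]
  have h : gr F ((sigS a f).coeff j) = fun m => (Polynomial.X * aeval (pt a F) (pderiv m f)).coeff j := by
    funext m
    exact grad_coeff a f j m
  rw [h]
  cases j with
  | zero =>
    have : (fun m => (Polynomial.X * aeval (pt a F) (pderiv m f)).coeff 0) = (0 : Fin N → F) := by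
      funext m
      rw [Polynomial.mul_coeff_zero, Polynomial.coeff_X_zero, zero_mul]; rfl
    rw [this]
    exact Submodule.zero_mem _
  | succ j =>
    refine ⟨Polynomial.X ^ (j + 1), Polynomial.monic_X_pow _, fun m => aeval (pt a F) (pderiv m f),
      Submodule.subset_span ⟨f, d.inv_mem hmax hf, rfl⟩, ?_, ?_⟩
    · intro m
      have h1 : ∑ l, aeval (pt a F) (pderiv l f) * pen (d.matA F) (d.matB a F) l m = 0 := by
        have h2 := congrArg (aeval (pt a F)) (hf m)
        rw [D_eq, map_zero, map_sum] at h2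
        rw [← neg_eq_zero, ← Finset.sum_neg_distrib, ← h2]
        refine Finset.sum_congr rfl fun l _ => ?_
        rw [map_mul, d.pen_eq a, d.Γ_anti l m, map_neg]; ring
      rw [h1]
      exact dvd_zero _
    · intro m
      show (Polynomial.X * aeval (pt a F) (pderiv m f)).coeff (j + 1) = _
      rw [Res_X_pow, Polynomial.coeff_X_mul]

/-- elements with a denominator in `SL` -/
def Dn (z : F) : Prop := ∃ s ∈ d.SL a F B, s ≠ 0 ∧ ∃ P : MvPolynomial (Fin N) K,
  algebraMap (MvPolynomial (Fin N) K) F s * z = algebraMap (MvPolynomial (Fin N) K) F P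

variable {F}

lemma Dn_S (P : MvPolynomial (Fin N) K) : d.Dn (B := B) a F (algebraMap _ F P) :=
  ⟨1, Subalgebra.one_mem _, one_ne_zero, P, by rw [map_one, one_mul]⟩

lemma Dn_add {z w : F} (hz : d.Dn (B := B) a F z) (hw : d.Dn (B := B) a F w) :
    d.Dn (B := B) a F (z + w) := by
  obtain ⟨s, hs, hs0, P, hP⟩ := hz
  obtain ⟨t, ht, ht0, R, hR⟩ := hw
  refine ⟨s * t, Subalgebra.mul_mem _ hs ht, mul_ne_zero hs0 ht0, t * P + s * R, ?_⟩
  rw [map_mul, map_add, map_mul, map_mul, ← hP, ← hR]; ring

lemma Dn_mul {z w : F} (hz : d.Dn (B := B) a F z) (hw : d.Dn (B := B) a F w) :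
    d.Dn (B := B) a F (z * w) := by
  obtain ⟨s, hs, hs0, P, hP⟩ := hz
  obtain ⟨t, ht, ht0, R, hR⟩ := hw
  refine ⟨s * t, Subalgebra.mul_mem _ hs ht, mul_ne_zero hs0 ht0, P * R, ?_⟩
  rw [map_mul, map_mul, ← hP, ← hR]; ring

variable (F B) in
/-- the constants -/
noncomputable def kk : IntermediateField K F :=
  IntermediateField.adjoin K ((algebraMap (MvPolynomial (Fin N) K) F) '' (d.SL a F B))

lemma mem_kk {x : F} (hx : x ∈ d.kk a F B) : ∃ s ∈ d.SL a F B, s ≠ 0 ∧ ∃ r ∈ d.SL a F B,
    algebraMap (MvPolynomial (Fin N) K) F s * x = algebraMap (MvPolynomial (Fin N) K) F r := by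
  rw [kk, IntermediateField.mem_adjoin_iff_div] at hx
  obtain ⟨r, hr, s, hs, rfl⟩ := hx
  have key : ∀ z ∈ Algebra.adjoin K ((algebraMap (MvPolynomial (Fin N) K) F) ''
      (d.SL a F B)), ∃ r ∈ d.SL a F B, algebraMap (MvPolynomial (Fin N) K) F r = z := by
    intro z hz
    induction hz using Algebra.adjoin_induction with
    | mem x hx => exact hx
    | algebraMap r =>
      exact ⟨algebraMap K _ r, Subalgebra.algebraMap_mem _ r,
        (IsScalarTower.algebraMap_apply K (MvPolynomial (Fin N) K) F r).symm⟩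
    | add x y _ _ hx hy =>
      obtain ⟨x, hx, rfl⟩ := hx
      obtain ⟨y, hy, rfl⟩ := hy
      exact ⟨x + y, Subalgebra.add_mem _ hx hy, map_add _ _ _⟩
    | mul x y _ _ hx hy =>
      obtain ⟨x, hx, rfl⟩ := hx
      obtain ⟨y, hy, rfl⟩ := hy
      exact ⟨x * y, Subalgebra.mul_mem _ hx hy, map_mul _ _ _⟩
  obtain ⟨r, hr', rfl⟩ := key r hr
  obtain ⟨s, hs', rfl⟩ := key s hs
  clear hr hs
  rename' hr' => hr, hs' => hs
  by_cases h0 : s = 0
  · refine ⟨1, Subalgebra.one_mem _, one_ne_zero, 0, Subalgebra.zero_mem _, ?_⟩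
    rw [h0, map_zero, div_zero, mul_zero]
  · refine ⟨s, hs, h0, r, hr, ?_⟩
    exact mul_div_cancel₀ _ (by
      rw [Ne, map_eq_zero_iff _ (IsFractionRing.injective (MvPolynomial (Fin N) K) F)]
      exact h0)

lemma Dn_kk {x : F} (hx : x ∈ d.kk a F B) : d.Dn (B := B) a F x := by
  obtain ⟨s, hs, hs0, r, _, h⟩ := d.mem_kk a hx
  exact ⟨s, hs, hs0, r, h⟩

lemma SL_mem_kk {P : MvPolynomial (Fin N) K} (hP : P ∈ d.SL a F B) :
    algebraMap _ F P ∈ d.kk a F B :=
  IntermediateField.subset_adjoin _ _ ⟨P, hP, rfl⟩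

/-- values of the evaluation have denominators -/
lemma Dn_evq (q : Polynomial (d.kk a F B)) (hq : q.Monic) (H : MM N q) :
    d.Dn (B := B) a F (evq q (pt a F) H) := by
  induction H using MvPolynomial.induction_on with
  | C c =>
    rw [evq, aeval_C]
    exact d.Dn_kk a c.2
  | add f g hf hg => rw [map_add]; exact d.Dn_add a hf hg
  | mul_X f mh hf =>
    obtain ⟨m, h⟩ := mh
    rw [map_mul, evq_X]
    refine d.Dn_mul a hf ?_
    have h1 : ∀ p : Polynomial (d.kk a F B),
        d.Dn (B := B) a F (((p.map (algebraMap (d.kk a F B) F)) %ₘ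
          (q.map (algebraMap (d.kk a F B) F))).coeff h) := by
      intro p
      rw [← Polynomial.map_modByMonic _ hq, Polynomial.coeff_map]
      exact d.Dn_kk a (Subtype.mem _)
    have h2 := h1 Polynomial.X
    have h3 := h1 1
    rw [Polynomial.map_X] at h2
    rw [Polynomial.map_one] at h3
    have h4 : ((pt a F m) %ₘ (q.map (algebraMap (d.kk a F B) F))).coeff h =
        algebraMap (MvPolynomial (Fin N) K) F (X m) *
          ((Polynomial.X : Polynomial F) %ₘ (q.map (algebraMap (d.kk a F B) F))).coeff h +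
        algebraMap (MvPolynomial (Fin N) K) F (C (a m)) *
          ((1 : Polynomial F) %ₘ (q.map (algebraMap (d.kk a F B) F))).coeff h := by
      rw [pt, Polynomial.add_modByMonic, Polynomial.coeff_add, ← Polynomial.smul_eq_C_mul,
        Polynomial.smul_modByMonic, Polynomial.coeff_smul, smul_eq_mul]
      congr 1
      rw [show (Polynomial.C (algebraMap K F (a m)) : Polynomial F) = (algebraMap K F (a m)) • 1 by
        rw [Polynomial.smul_eq_C_mul, mul_one], Polynomial.smul_modByMonic,
        Polynomial.coeff_smul, smul_eq_mul,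
        IsScalarTower.algebraMap_apply K (MvPolynomial (Fin N) K) F, MvPolynomial.algebraMap_eq]
    rw [h4]
    exact d.Dn_add a (d.Dn_mul a (d.Dn_S a _) h2) (d.Dn_mul a (d.Dn_S a _) h3)

variable (F B) in
/-- vectors killing all gradients of elements of `SL` -/
noncomputable def ZZZ : Submodule F (Fin N → F) where
  carrier := {v | ∀ P ∈ d.SL a F B, ∑ m, v m * gr F P m = 0}
  zero_mem' := by intro P _; simp
  add_mem' := by
    intro v w hv hw P hP
    simp only [Pi.add_apply, add_mul, Finset.sum_add_distrib, hv P hP, hw P hP, add_zero]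
  smul_mem' := by
    intro t v hv P hP
    simp only [Pi.smul_apply, smul_eq_mul, mul_assoc, ← Finset.mul_sum, hv P hP, mul_zero]

lemma derF_kk {v : Fin N → F} (hv : v ∈ d.ZZZ a F B) {x : F} (hx : x ∈ d.kk a F B) :
    derF K v x = 0 := by
  obtain ⟨s, hs, hs0, r, hr, h⟩ := d.mem_kk a hx
  have h1 := congrArg (derF K v) h
  have h2 : derF K v (algebraMap (MvPolynomial (Fin N) K) F s) = 0 := by
    rw [derF_algebraMap]; exact hv s hs
  have h3 : derF K v (algebraMap (MvPolynomial (Fin N) K) F r) = 0 := by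
    rw [derF_algebraMap]; exact hv r hr
  rw [derF_mul, h2, h3, mul_zero, add_zero] at h1
  refine (mul_eq_zero.1 h1).resolve_left ?_
  rw [map_eq_zero_iff _ (IsFractionRing.injective (MvPolynomial (Fin N) K) F)]
  exact hs0

/-- the derivation as a `kk`-linear map -/
noncomputable def derLin {v : Fin N → F} (hv : v ∈ d.ZZZ a F B) : F →ₗ[d.kk a F B] F where
  toFun := derF K v
  map_add' := derF_add v
  map_smul' := by
    intro c x
    rw [Algebra.smul_def, derF_mul, d.derF_kk a hv (show algebraMap (d.kk a F B) F c ∈ _ from c.2),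
      mul_zero, add_zero, RingHom.id_apply, Algebra.smul_def]

lemma T_eq {v : Fin N → F} (hv : v ∈ d.ZZZ a F B) (q : Polynomial (d.kk a F B)) (hq : q.Monic)
    (H : MM N q) : TT q (pt a F) (fun m => Polynomial.C (v m) * Polynomial.X) H = derF K v (evq q (pt a F) H) := by
  have hder : IsDer' (AlgHom.id (d.kk a F B) F) (d.derLin a hv) := by
    intro x y
    exact derF_mul v x y
  have h1 : IsDer' (evq q (pt a F)) ((d.derLin a hv) ∘ₗ (evq q (pt a F)).toLinearMap) := by
    intro f g
    have := hder (evq q (pt a F) f) (evq q (pt a F) g)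
    simp only [LinearMap.comp_apply, AlgHom.toLinearMap_apply, map_mul]
    exact this
  have h2 := IsDer'_ext (TT_isDer q (pt a F) (fun m => Polynomial.C (v m) * Polynomial.X)) h1 (by
    rintro ⟨m, h⟩
    rw [TT_X, LinearMap.comp_apply, AlgHom.toLinearMap_apply, evq_X, ← coeff_hat,
      hat_modByMonic hder hq]
    congr 2
    ext n
    rw [coeff_hat]
    have h3 : d.derLin a hv ((pt a F m).coeff n) = derF K v ((pt a F m).coeff n) := rfl
    have h4 : pt a F m = aeval (pt a F) (X m : MvPolynomial (Fin N) K) := by rw [aeval_X]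
    rw [h3, h4, derF_coeff]
    congr 1
    rw [Finset.mul_sum, Finset.sum_eq_single m]
    · rw [pderiv_X_self, map_one, mul_one, mul_comm]
    · intro b _ hb
      rw [pderiv_X_of_ne (Ne.symm hb), map_zero, mul_zero, mul_zero]
    · simp)
  exact LinearMap.congr_fun h2 H

/-- functions invariant under the loop algebra have gradient in `LL`, up to a constant factor -/
lemma inv_kill {v : Fin N → F} (hv : v ∈ d.ZZZ a F B) (q : Polynomial (d.kk a F B))
    (hq : q.Monic) {H : MM N q} (hH : H ∈ AA q B)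
    (hinv : ∀ l (i : Fin q.natDegree), evq q (pt a F) (d.delta q l i H) = 0) :
    TT q (pt a F) (fun m => Polynomial.C (v m) * Polynomial.X) H = 0 := by
  obtain ⟨G, hG, hGT⟩ := AA_grad (pt a F) hq hH
  set qF := q.map (algebraMap (d.kk a F B) F) with hqF
  have hqFm : qF.Monic := hq.map _
  have hdiv : ∀ l, qF ∣ Polynomial.X * ∑ m, G m * aeval (pt a F) (d.Γ l m) := by
    intro l
    apply dvd_of_Res hqFm
    intro i hi
    rw [hq.natDegree_map] at hi
    have h1 := hinv l ⟨i, hi⟩
    rw [d.evq_delta (pt a F) hq, hGT] at h1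
    rw [← h1]
    congr 1
    rw [Finset.mul_sum, Finset.mul_sum]
    exact Finset.sum_congr rfl fun m _ => by ring
  set ρ : Fin N → F := fun m => Res qF (Polynomial.X * G m) with hρ
  have hρL : ρ ∈ d.LL a F B := by
    refine ⟨qF, hqFm, (Polynomial.X : Polynomial F) • G, Submodule.smul_mem _ _ hG, ?_, fun m => rfl⟩
    intro m
    have h1 : ∑ l, ((Polynomial.X : Polynomial F) • G) l * pen (d.matA F) (d.matB a F) l m =
        - (Polynomial.X * ∑ l, G l * aeval (pt a F) (d.Γ m l)) := by
      rw [Finset.mul_sum, ← Finset.sum_neg_distrib]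
      refine Finset.sum_congr rfl fun l _ => ?_
      rw [Pi.smul_apply, smul_eq_mul, d.pen_eq a, d.Γ_anti l m, map_neg]; ring
    rw [h1, dvd_neg]
    exact hdiv m
  have hu : ∀ u ∈ d.ZZZ a F B, derF K u (evq q (pt a F) H) = ∑ m, u m * ρ m := by
    intro u hu
    rw [← d.T_eq a hu q hq, hGT, Res_sum]
    refine Finset.sum_congr rfl fun m _ => ?_
    rw [show G m * (Polynomial.C (u m) * Polynomial.X) = Polynomial.C (u m) * (Polynomial.X * G m) by ring, Res_C_mul]
  obtain ⟨s, hs, hs0, P, hP⟩ := d.Dn_evq a q hq H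
  have hsF : algebraMap (MvPolynomial (Fin N) K) F s ≠ 0 := by
    rw [Ne, map_eq_zero_iff _ (IsFractionRing.injective (MvPolynomial (Fin N) K) F)]
    exact hs0
  have hPder : ∀ u ∈ d.ZZZ a F B, ∑ m, u m * gr F P m =
      algebraMap (MvPolynomial (Fin N) K) F s * derF K u (evq q (pt a F) H) := by
    intro u hu
    have h1 := congrArg (derF K u) hP
    have h2 : derF K u (algebraMap (MvPolynomial (Fin N) K) F s) = 0 := by
      rw [derF_algebraMap]; exact hu s hs
    rw [derF_mul, h2, mul_zero, add_zero, derF_algebraMap] at h1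
    exact h1.symm
  have hPS : P ∈ d.SL a F B := by
    rw [mem_SL]
    apply mem_of_forall_dot
    intro u hu'
    have huZ : u ∈ d.ZZZ a F B := fun R hR => hu' _ hR
    rw [hPder u huZ, hu u huZ, hu' ρ hρL, mul_zero]
  have h5 := hPder v hv
  rw [hv P hPS] at h5
  rw [d.T_eq a hv q hq]
  exact (mul_eq_zero.1 h5.symm).resolve_left hsF

end Pool.Agent.H865_nil.NData
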