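import Pool.Agent.H865_nil.Pencil
import Pool.Agent.H865_nil.Alg

/-!
Derivations along algebra maps, extended coefficientwise to polynomials.
-/

open Polynomial

set_option linter.unusedSectionVars false

namespace Pool.Agent.H865_nil

section hat

variable {k A F : Type*} [Field k] [CommRing A] [Algebra k A] [CommRing F] [Algebra k F]

/-- A linear map which is a derivation along an algebra map. -/
def IsDer' (ev : A →ₐ[k] F) (ν : A →ₗ[k] F) : Prop :=
  ∀ f g, ν (f * g) = ev f * ν g + ev g * ν f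

/-- coefficientwise application of a linear map -/
noncomputable def hat (ν : A →ₗ[k] F) (p : A[X]) : F[X] :=
  ∑ i ∈ p.support, monomial i (ν (p.coeff i))

lemma coeff_hat (ν : A →ₗ[k] F) (p : A[X]) (n : ℕ) : (hat ν p).coeff n = ν (p.coeff n) := by
  rw [hat, finsetSum_coeff]
  simp only [coeff_monomial]
  rw [Finset.sum_ite_eq' p.support n]
  split_ifs with h
  · rfl
  · rw [notMem_support_iff.1 h, map_zero]

lemma hat_add (ν : A →ₗ[k] F) (p q : A[X]) : hat ν (p + q) = hat ν p + hat ν q := by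
  ext n; simp [coeff_hat]

lemma hat_zero (ν : A →ₗ[k] F) : hat ν 0 = 0 := by
  ext n; simp [coeff_hat]

lemma hat_sub (ν : A →ₗ[k] F) (p q : A[X]) : hat ν (p - q) = hat ν p - hat ν q := by
  ext n; simp [coeff_hat]

lemma IsDer'.one {ev : A →ₐ[k] F} {ν : A →ₗ[k] F} (h : IsDer' ev ν) : ν 1 = 0 := by
  have h1 := h 1 1
  rw [mul_one, map_one ev, one_mul] at h1
  exact left_eq_add.1 h1

lemma IsDer'.algebraMap {ev : A →ₐ[k] F} {ν : A →ₗ[k] F} (h : IsDer' ev ν) (c : k) :
    ν (algebraMap k A c) = 0 := by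
  rw [Algebra.algebraMap_eq_smul_one, map_smul, h.one, smul_zero]

lemma hat_mul {ev : A →ₐ[k] F} {ν : A →ₗ[k] F} (h : IsDer' ev ν) (p q : A[X]) :
    hat ν (p * q) = p.map (ev : A →+* F) * hat ν q + q.map (ev : A →+* F) * hat ν p := by
  ext n
  rw [coeff_hat, coeff_add, mul_comm (q.map (ev : A →+* F)), coeff_mul, coeff_mul, coeff_mul,
    map_sum, ← Finset.sum_add_distrib]
  refine Finset.sum_congr rfl fun x _ => ?_
  rw [h, coeff_hat, coeff_hat, coeff_map, coeff_map]
  simp only [RingHom.coe_coe]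
  ring

lemma hat_const {ev : A →ₐ[k] F} {ν : A →ₗ[k] F} (h : IsDer' ev ν) (p : k[X]) :
    hat ν (p.map (algebraMap k A)) = 0 := by
  ext n
  rw [coeff_hat, coeff_map, h.algebraMap, coeff_zero]

lemma map_ev_const (ev : A →ₐ[k] F) (p : k[X]) :
    (p.map (algebraMap k A)).map (ev : A →+* F) = p.map (algebraMap k F) := by
  rw [Polynomial.map_map]
  congr 1
  exact ev.comp_algebraMap

lemma hat_X_pow {ev : A →ₐ[k] F} {ν : A →ₗ[k] F} (h : IsDer' ev ν) (n : ℕ) :
    hat ν (X ^ n) = 0 := by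
  have := hat_const h (X ^ n : k[X])
  rwa [Polynomial.map_pow, map_X] at this

lemma hat_sum (ν : A →ₗ[k] F) {J : Type*} (s : Finset J) (p : J → A[X]) :
    hat ν (∑ j ∈ s, p j) = ∑ j ∈ s, hat ν (p j) := by
  classical
  induction s using Finset.induction_on with
  | empty => simp [hat_zero]
  | insert a s ha ih => rw [Finset.sum_insert ha, Finset.sum_insert ha, hat_add, ih]

/-- congruent polynomials have equal remainders -/
lemma modByMonic_congr {q p p' : A[X]} (hq : q.Monic) (h : q ∣ p - p') :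
    p %ₘ q = p' %ₘ q := by
  have h1 : (p - p') %ₘ q = 0 := (modByMonic_eq_zero_iff_dvd hq).2 h
  rw [sub_modByMonic, sub_eq_zero] at h1
  exact h1

lemma dvd_sub_modByMonic (q p : A[X]) : q ∣ p - p %ₘ q :=
  ⟨p /ₘ q, by rw [sub_eq_iff_eq_add, add_comm]; exact (modByMonic_add_div p q).symm⟩

lemma hat_modByMonic [Nontrivial A] [Nontrivial F] {ev : A →ₐ[k] F} {ν : A →ₗ[k] F}
    (h : IsDer' ev ν) {q : k[X]} (hq : q.Monic) (p : A[X]) :
    hat ν (p %ₘ q.map (algebraMap k A)) = hat ν p %ₘ q.map (algebraMap k F) := by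
  have hqA := hq.map (algebraMap k A)
  have hqF := hq.map (algebraMap k F)
  refine ((div_modByMonic_unique (hat ν (p /ₘ q.map (algebraMap k A))) _ hqF ⟨?_, ?_⟩).2).symm
  · have e := congrArg (hat ν) (modByMonic_add_div p (q.map (algebraMap k A)))
    rw [hat_add, hat_mul h, hat_const h, mul_zero, add_zero, map_ev_const] at e
    exact e
  · rw [degree_eq_natDegree hqF.ne_zero, hq.natDegree_map, degree_lt_iff_coeff_zero]
    intro m hm
    rw [coeff_hat, coeff_eq_zero_of_degree_lt, map_zero]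
    refine lt_of_lt_of_le (degree_modByMonic_lt p hqA) ?_
    rw [degree_eq_natDegree hqA.ne_zero, hq.natDegree_map]
    exact_mod_cast hm

end hat

end Pool.Agent.H865_nil
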