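import Pool.Agent.H865_nil.Weil

/-!
The loop derivations act locally nilpotently on the algebra of residues; evaluation at a point
and application of the infinitesimal Rosenlicht theorem.
-/

open MvPolynomial

set_option linter.unusedSectionVars false

namespace Pool.Agent.H865_nil.NData


section alg

variable {K : Type*} [Field K] {N : ℕ} (d : NData K N)
variable {k : Type*} [Field k] [Algebra K k] (q : Polynomial k)
variable (B : Subalgebra K (MvPolynomial (Fin N) K))

/-- the algebra generated by the residues of elements of `B` -/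
noncomputable def AA : Subalgebra k (MM N q) :=
  Algebra.adjoin k {z | ∃ f ∈ B, ∃ j, z = ZZ q (q.natDegree - 1) f j}

variable {q B} (hq : q.Monic) (hB : d.SC B)

include hq hB in
lemma delta_AA (l : Fin N) (i : ℕ) {f : MM N q} (hf : f ∈ AA q B) :
    d.delta q l i f ∈ AA q B := by
  rw [AA] at hf ⊢
  induction hf using Algebra.adjoin_induction with
  | mem x hx =>
    obtain ⟨f, hf, j, rfl⟩ := hx
    rw [d.delta_ZZ hq]
    exact Algebra.subset_adjoin ⟨_, hB.stab l f hf, _, rfl⟩
  | algebraMap r =>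
    rw [Derivation.map_algebraMap]; exact Subalgebra.zero_mem _
  | add x y _ _ h1 h2 => rw [map_add]; exact Subalgebra.add_mem _ h1 h2
  | mul x y hx hy h1 h2 =>
    rw [Derivation.leibniz]
    exact Subalgebra.add_mem _ (Subalgebra.mul_mem _ hx h2) (Subalgebra.mul_mem _ hy h1)

include hq in
lemma delta_iter_ZZ (l : Fin N) (i : ℕ) (h : ℕ) : ∀ (n : ℕ) (f : MvPolynomial (Fin N) K) (j : ℕ),
    (d.delta q l i)^[n] (ZZ q h f j) = ZZ q h ((d.D l)^[n] f) (j + n * (i + 1)) := by
  intro n
  induction n with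
  | zero => intro f j; simp
  | succ n ih =>
    intro f j
    rw [Function.iterate_succ_apply, d.delta_ZZ hq, ih, Function.iterate_succ_apply]
    congr 1
    ring

include hq in
lemma delta_locnil (l : Fin N) (i : ℕ) {f : MM N q} (hf : f ∈ AA q B) :
    ∃ n, (d.delta q l i)^[n] f = 0 := by
  rw [AA] at hf
  induction hf using Algebra.adjoin_induction with
  | mem x hx =>
    obtain ⟨f, _, j, rfl⟩ := hx
    obtain ⟨n, hn⟩ := d.locnil l f
    exact ⟨n, by rw [d.delta_iter_ZZ hq, hn, ZZ_zero]⟩
  | algebraMap r =>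
    refine ⟨1, ?_⟩
    rw [Function.iterate_one, Derivation.map_algebraMap]
  | add x y _ _ h1 h2 =>
    obtain ⟨n, hn⟩ := h1
    obtain ⟨m, hm⟩ := h2
    exact ⟨_, locnil_add _ hn hm⟩
  | mul x y hx hy h1 h2 =>
    obtain ⟨n, hn⟩ := h1
    obtain ⟨m, hm⟩ := h2
    exact ⟨_, locnil_mul _ n m _ _ hn hm⟩

include hq hB in
theorem loop_ros {F : Type*} [Field F] [Algebra k F] [CharZero F] (ev : MM N q →ₐ[k] F)
    (ν : MM N q →ₗ[k] F) (hν : IsDer ev ν) (hν0 : ∀ f ∈ AA q B, ev f = 0 → ν f = 0)
    (hinv : ∀ H ∈ AA q B, (∀ l (i : Fin q.natDegree), ev (d.delta q l i H) = 0) → ν H = 0) :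
    ∃ b : Fin N → Fin q.natDegree → F, ∀ f ∈ AA q B,
      ν f = ∑ l, ∑ i : Fin q.natDegree, b l i * ev (d.delta q l i f) := by
  classical
  let e : Fin N × Fin q.natDegree ≃ Fin (N * q.natDegree) := finProdFinEquiv
  have he : ∀ a b : Fin (N * q.natDegree), (e.symm a).1 < (e.symm b).1 → a < b := by
    intro a b hab
    obtain ⟨⟨l, i⟩, rfl⟩ := e.surjective a
    obtain ⟨⟨l', i'⟩, rfl⟩ := e.surjective b
    rw [Equiv.symm_apply_apply, Equiv.symm_apply_apply] at hab
    rw [Fin.lt_def] at hab ⊢
    have h1 : ((e (l, i) : Fin (N * q.natDegree)) : ℕ) = i + q.natDegree * l := rfl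
    have h2 : ((e (l', i') : Fin (N * q.natDegree)) : ℕ) = i' + q.natDegree * l' := rfl
    rw [h1, h2]
    have h3 : q.natDegree * ((l : ℕ) + 1) ≤ q.natDegree * l' := Nat.mul_le_mul_left _ hab
    have h4 : (i : ℕ) < q.natDegree := i.2
    rw [Nat.mul_add, Nat.mul_one] at h3
    omega
  let δ : Fin (N * q.natDegree) → Derivation k (MM N q) (MM N q) := fun t =>
    d.delta q (e.symm t).1 (e.symm t).2
  let c : Fin (N * q.natDegree) → Fin (N * q.natDegree) → Fin (N * q.natDegree) → k :=
    fun t t' u => algebraMap K k (d.g (e.symm t).1 (e.symm t').1 (e.symm u).1) *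
      ((Polynomial.X ^ (((e.symm t).2 : ℕ) + (e.symm t').2 + 1)) %ₘ q).coeff (e.symm u).2
  have hc : ∀ i j l, c i j l ≠ 0 → l < i ∧ l < j := by
    intro i j l h
    have h1 : d.g (e.symm i).1 (e.symm j).1 (e.symm l).1 ≠ 0 := by
      intro h0
      apply h
      simp only [c]
      rw [h0, map_zero, zero_mul]
    have h2 := d.nil _ _ _ h1
    exact ⟨he _ _ h2.1, he _ _ h2.2⟩
  have hbr : ∀ i j f, δ i (δ j f) - δ j (δ i f) = ∑ l, c i j l • δ l f := by
    intro i j f
    simp only [δ]
    rw [d.delta_comm hq, ← Equiv.sum_comp e, Fintype.sum_prod_type]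
    refine Finset.sum_congr rfl fun p _ => ?_
    rw [d.delta_reduce hq, Finset.smul_sum]
    refine Finset.sum_congr rfl fun x _ => ?_
    simp only [c]
    rw [Equiv.symm_apply_apply, smul_smul]
  obtain ⟨b, hb⟩ := ros (AA q B) δ (fun i f hf => d.delta_AA hq hB _ _ hf) c hc hbr
    (fun i f hf => d.delta_locnil hq _ _ hf) ev ν hν hν0 (fun H hH hw => by
      refine hinv H hH fun l i => ?_
      have := hw [e (l, i)] (by simp)
      have h2 : word δ [e (l, i)] H = d.delta q l i H := by
        have : word δ [e (l, i)] H = δ (e (l, i)) H := rfl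
        rw [this]
        simp only [δ]
        rw [Equiv.symm_apply_apply]
      rwa [h2] at this)
  refine ⟨fun l i => b (e (l, i)), fun f hf => ?_⟩
  rw [hb f hf, ← Equiv.sum_comp e, Fintype.sum_prod_type]
  refine Finset.sum_congr rfl fun l _ => Finset.sum_congr rfl fun i _ => ?_
  simp only [δ]
  rw [Equiv.symm_apply_apply]

end alg

section eval

variable {K : Type*} [Field K] {N : ℕ} (d : NData K N)
variable {k : Type*} [Field k] [Algebra K k] (q : Polynomial k)
variable {F : Type*} [Field F] [Algebra k F] [Algebra K F] [IsScalarTower K k F]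
variable (y : Fin N → Polynomial F)

/-- evaluation of the Weil restriction at the point `y mod q` -/
noncomputable def evq : MM N q →ₐ[k] F :=
  aeval fun mh => ((y mh.1) %ₘ q.map (algebraMap k F)).coeff mh.2

lemma evq_X (m : Fin N) (h : Fin q.natDegree) :
    evq q y (X (m, h)) = ((y m) %ₘ q.map (algebraMap k F)).coeff h := by
  rw [evq, aeval_X]

/-- the derivation along `evq` in the direction `p` -/
noncomputable def TT (p : Fin N → Polynomial F) : MM N q →ₗ[k] F :=
  ∑ mh : Fin N × Fin q.natDegree, ((p mh.1 %ₘ q.map (algebraMap k F)).coeff mh.2) •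
    ((evq q y).toLinearMap ∘ₗ (pderiv mh).toLinearMap)

lemma TT_apply (p : Fin N → Polynomial F) (H : MM N q) : TT q y p H =
    ∑ mh : Fin N × Fin q.natDegree, ((p mh.1 %ₘ q.map (algebraMap k F)).coeff mh.2) *
      evq q y (pderiv mh H) := by
  simp [TT, LinearMap.sum_apply]

lemma TT_isDer (p : Fin N → Polynomial F) : IsDer' (evq q y) (TT q y p) := by
  intro f g
  simp only [TT_apply, Derivation.leibniz, smul_eq_mul, map_add, map_mul, mul_add,
    Finset.sum_add_distrib, Finset.mul_sum]
  congr 1 <;> exact Finset.sum_congr rfl fun m _ => by ring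

lemma TT_X (p : Fin N → Polynomial F) (m : Fin N) (h : Fin q.natDegree) :
    TT q y p (X (m, h)) = (p m %ₘ q.map (algebraMap k F)).coeff h := by
  classical
  rw [TT_apply, Finset.sum_eq_single (m, h)]
  · rw [pderiv_X_self, map_one, mul_one]
  · intro b _ hb
    rw [pderiv_X_of_ne (Ne.symm hb), map_zero, mul_zero]
  · simp

/-- derivations along an algebra map are determined by their values on the variables -/
lemma IsDer'_ext {σ k F : Type*} [Field k] [CommRing F] [Algebra k F]
    {ev : MvPolynomial σ k →ₐ[k] F} {ν μ : MvPolynomial σ k →ₗ[k] F} (hν : IsDer' ev ν)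
    (hμ : IsDer' ev μ) (h : ∀ s, ν (X s) = μ (X s)) : ν = μ := by
  apply LinearMap.ext
  intro f
  induction f using MvPolynomial.induction_on with
  | C c =>
    have h1 := hν.algebraMap c
    have h2 := hμ.algebraMap c
    rw [MvPolynomial.algebraMap_eq] at h1 h2
    rw [h1, h2]
  | add f g hf hg => rw [map_add, map_add, hf, hg]
  | mul_X f i hf => rw [hν, hμ, hf, h]

variable {q} (hq : q.Monic)

include hq in
lemma map_YY (m : Fin N) : (YY q m).map ((evq q y : MM N q →ₐ[k] F) : MM N q →+* F) =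
    y m %ₘ q.map (algebraMap k F) := by
  ext n
  rw [Polynomial.coeff_map]
  rcases Nat.lt_or_ge n q.natDegree with h | h
  · have e : (YY q m : Polynomial (MM N q)).coeff n = X (m, ⟨n, h⟩) := coeff_YY_lt q m ⟨n, h⟩
    rw [e, RingHom.coe_coe, evq_X]
  · rw [coeff_YY_ge q m h, map_zero, Polynomial.coeff_eq_zero_of_degree_lt]
    refine lt_of_lt_of_le (Polynomial.degree_modByMonic_lt _ (hq.map _)) ?_
    rw [Polynomial.degree_eq_natDegree (hq.map _).ne_zero, hq.natDegree_map]
    exact_mod_cast h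

include hq in
lemma hat_TT_YY (p : Fin N → Polynomial F) (m : Fin N) :
    hat (TT q y p) (YY q m) = p m %ₘ q.map (algebraMap k F) := by
  ext n
  rw [coeff_hat]
  rcases Nat.lt_or_ge n q.natDegree with h | h
  · have e : (YY q m : Polynomial (MM N q)).coeff n = X (m, ⟨n, h⟩) := coeff_YY_lt q m ⟨n, h⟩
    rw [e, TT_X]
  · rw [coeff_YY_ge q m h, map_zero, Polynomial.coeff_eq_zero_of_degree_lt]
    refine lt_of_lt_of_le (Polynomial.degree_modByMonic_lt _ (hq.map _)) ?_
    rw [Polynomial.degree_eq_natDegree (hq.map _).ne_zero, hq.natDegree_map]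
    exact_mod_cast h

include hq in
lemma map_phi (f : MvPolynomial (Fin N) K) : q.map (algebraMap k F) ∣
    (phi q f).map ((evq q y : MM N q →ₐ[k] F) : MM N q →+* F) - aeval y f := by
  induction f using MvPolynomial.induction_on with
  | C c =>
    rw [phi_C, map_ev_const, aeval_C, Polynomial.map_C, Polynomial.algebraMap_apply,
      IsScalarTower.algebraMap_apply K k F, sub_self]
    exact dvd_zero _
  | add f g hf hg =>
    rw [map_add, map_add, Polynomial.map_add]
    have := dvd_add hf hg
    convert this using 1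
    ring
  | mul_X f i hf =>
    rw [map_mul, map_mul, Polynomial.map_mul, phi_X, map_YY y hq, aeval_X]
    have h1 := dvd_sub_modByMonic (q.map (algebraMap k F)) (y i)
    have h2 := dvd_sub (Dvd.dvd.mul_right hf (y i %ₘ q.map (algebraMap k F)))
      (Dvd.dvd.mul_left h1 (aeval y f))
    convert h2 using 1
    ring

include hq in
lemma evq_ZZ (h j : ℕ) (f : MvPolynomial (Fin N) K) : evq q y (ZZ q h f j) =
    ((Polynomial.X ^ j * aeval y f) %ₘ q.map (algebraMap k F)).coeff h := by
  have h1 : evq q y (ZZ q h f j) = ((Polynomial.X ^ j * (phi q f).map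
      ((evq q y : MM N q →ₐ[k] F) : MM N q →+* F)) %ₘ q.map (algebraMap k F)).coeff h := by
    have h2 : evq q y (ZZ q h f j) = (((Polynomial.X ^ j * phi q f) %ₘ qM N q).map
      ((evq q y : MM N q →ₐ[k] F) : MM N q →+* F)).coeff h := by
      rw [Polynomial.coeff_map]; rfl
    rw [h2, Polynomial.map_modByMonic _ (qM_monic hq), Polynomial.map_mul, Polynomial.map_pow,
      Polynomial.map_X, qM, map_ev_const]
  rw [h1]
  refine coeff_mod_congr (hq.map _) ?_ h
  rw [← mul_sub]
  exact Dvd.dvd.mul_left (map_phi y hq f) _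

include hq in
lemma TT_ZZ (p : Fin N → Polynomial F) (h j : ℕ) (f : MvPolynomial (Fin N) K) :
    TT q y p (ZZ q h f j) =
      ((Polynomial.X ^ j * ∑ m, aeval y (pderiv m f) * p m) %ₘ q.map (algebraMap k F)).coeff h := by
  rw [nu_ZZ hq (TT_isDer q y p)]
  refine coeff_mod_congr (hq.map _) ?_ h
  rw [← mul_sub, ← Finset.sum_sub_distrib]
  refine Dvd.dvd.mul_left (Finset.dvd_sum fun m _ => ?_) _
  rw [hat_TT_YY y hq]
  have h1 := dvd_sub_modByMonic (q.map (algebraMap k F)) (p m)
  have h2 := dvd_sub (Dvd.dvd.mul_right (map_phi y hq (pderiv m f))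
    (p m %ₘ q.map (algebraMap k F))) (Dvd.dvd.mul_left h1 (aeval y (pderiv m f)))
  convert h2 using 1
  ring

include hq in
lemma evq_delta (l : Fin N) (i : ℕ) (H : MM N q) : evq q y (d.delta q l i H) =
    TT q y (fun m => Polynomial.X ^ (i + 1) * aeval y (d.Γ l m)) H := by
  have h1 : IsDer' (evq q y) ((evq q y).toLinearMap ∘ₗ (d.delta q l i).toLinearMap) := by
    intro f g
    simp only [LinearMap.comp_apply, Derivation.coeFn_coe,
      AlgHom.toLinearMap_apply, Derivation.leibniz, smul_eq_mul, map_add, map_mul]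
  have h2 := IsDer'_ext h1 (TT_isDer q y (fun m => Polynomial.X ^ (i + 1) * aeval y (d.Γ l m))) (by
    rintro ⟨m, h⟩
    rw [TT_X]
    simp only [LinearMap.comp_apply, Derivation.coeFn_coe,
      AlgHom.toLinearMap_apply]
    rw [delta_X, evq_ZZ y hq])
  exact LinearMap.congr_fun h2 H

/-- the module spanned by gradients of elements of `B` -/
noncomputable def MG (B : Subalgebra K (MvPolynomial (Fin N) K)) :
    Submodule (Polynomial F) (Fin N → Polynomial F) :=
  Submodule.span (Polynomial F) ((fun c => fun m => aeval y (pderiv m c)) ''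
    (B : Set (MvPolynomial (Fin N) K)))

include hq in
lemma AA_grad {B : Subalgebra K (MvPolynomial (Fin N) K)} {H : MM N q} (hH : H ∈ AA q B) :
    ∃ G ∈ MG y B, ∀ p, TT q y p H = Res (q.map (algebraMap k F)) (∑ m, G m * p m) := by
  rw [AA] at hH
  induction hH using Algebra.adjoin_induction with
  | mem x hx =>
    obtain ⟨f, hf, j, rfl⟩ := hx
    refine ⟨(Polynomial.X ^ j : Polynomial F) • fun m => aeval y (pderiv m f),
      Submodule.smul_mem _ _ (Submodule.subset_span ⟨f, hf, rfl⟩), fun p => ?_⟩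
    rw [TT_ZZ y hq, Res, hq.natDegree_map, Finset.mul_sum]
    simp only [Pi.smul_apply, smul_eq_mul, mul_assoc]
  | algebraMap r =>
    refine ⟨0, Submodule.zero_mem _, fun p => ?_⟩
    rw [(TT_isDer q y p).algebraMap]
    simp [Res_zero]
  | add x z _ _ h1 h2 =>
    obtain ⟨G, hG, h1⟩ := h1
    obtain ⟨G', hG', h2⟩ := h2
    refine ⟨G + G', Submodule.add_mem _ hG hG', fun p => ?_⟩
    rw [map_add, h1, h2, ← Res_add, ← Finset.sum_add_distrib]
    congr 1
    exact Finset.sum_congr rfl fun m _ => by rw [Pi.add_apply]; ring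
  | mul x z hx hz h1 h2 =>
    obtain ⟨G, hG, h1⟩ := h1
    obtain ⟨G', hG', h2⟩ := h2
    refine ⟨(Polynomial.C (evq q y x) : Polynomial F) • G' + (Polynomial.C (evq q y z) : Polynomial F) • G,
      Submodule.add_mem _ (Submodule.smul_mem _ _ hG') (Submodule.smul_mem _ _ hG),
      fun p => ?_⟩
    rw [TT_isDer q y p x z, h1, h2, ← Res_C_mul, ← Res_C_mul, ← Res_add, Finset.mul_sum,
      Finset.mul_sum, ← Finset.sum_add_distrib]
    congr 1
    refine Finset.sum_congr rfl fun m _ => ?_
    simp only [Pi.add_apply, Pi.smul_apply, smul_eq_mul]; ring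

include hq in
/-- the main consequence: a direction which is compatible with all residue functions is, modulo
`q`, induced by an element of the loop algebra -/
theorem weil_main [CharZero F] {B : Subalgebra K (MvPolynomial (Fin N) K)} (hB : d.SC B)
    (p : Fin N → Polynomial F)
    (h0 : ∀ H ∈ AA q B, evq q y H = 0 → TT q y p H = 0)
    (hinv : ∀ H ∈ AA q B, (∀ l (i : Fin q.natDegree), evq q y (d.delta q l i H) = 0) →
      TT q y p H = 0) :
    ∃ b : Fin N → Polynomial F, ∀ f ∈ B, q.map (algebraMap k F) ∣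
      ∑ m, aeval y (pderiv m f) * p m - Polynomial.X * ∑ l, b l * aeval y (d.D l f) := by
  obtain ⟨b, hb⟩ := d.loop_ros hq hB (evq q y) (TT q y p) (TT_isDer q y p) h0 hinv
  refine ⟨fun l => ∑ i : Fin q.natDegree, Polynomial.C (b l i) * Polynomial.X ^ (i : ℕ), fun f hf => ?_⟩
  apply dvd_of_Res (hq.map _)
  intro j _
  have h1 := hb (ZZ q (q.natDegree - 1) f j) (Algebra.subset_adjoin ⟨f, hf, j, rfl⟩)
  rw [TT_ZZ y hq] at h1
  rw [mul_sub, Res_sub, sub_eq_zero, Res, hq.natDegree_map, h1]
  have h2 : Polynomial.X ^ j * (Polynomial.X * ∑ l, (∑ i : Fin q.natDegree, Polynomial.C (b l i) * Polynomial.X ^ (i : ℕ)) *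
      aeval y (d.D l f)) = ∑ l, ∑ i : Fin q.natDegree,
        Polynomial.C (b l i) * (Polynomial.X ^ (j + i + 1) * aeval y (d.D l f)) := by
    rw [← mul_assoc, Finset.mul_sum]
    refine Finset.sum_congr rfl fun l _ => ?_
    rw [Finset.sum_mul, Finset.mul_sum]
    refine Finset.sum_congr rfl fun i _ => ?_
    ring
  rw [h2, Res_sum]
  refine Finset.sum_congr rfl fun l _ => ?_
  rw [Res_sum]
  refine Finset.sum_congr rfl fun i _ => ?_
  rw [Res_C_mul, d.delta_ZZ hq, evq_ZZ y hq, Res, hq.natDegree_map]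

end eval

end Pool.Agent.H865_nil.NData
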