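import Pool.Agent.H865_nil.Fam
import Pool.Agent.H865_shift.Sub

/-!
The generalised argument shift conjecture for nilpotent Lie algebras.
-/

open MvPolynomial Module
open Pool.Agent.H865_shift Pool.Agent.H865_shift.Pairing

set_option linter.unusedSectionVars false

namespace Pool.Agent.H865_nil

variable {K L : Type*} [Field K] [CharZero K] [LieRing L] [LieAlgebra K L]
  [FiniteDimensional K L]

omit [CharZero K] in
lemma exists_eval_ne' {σ : Type*} {g : MvPolynomial σ K} [Infinite K] (hg : g ≠ 0) :
    ∃ w : σ → K, eval w g ≠ 0 := by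
  by_contra hcon
  push Not at hcon
  apply hg
  apply MvPolynomial.funext
  intro w
  rw [hcon w, map_zero]

/-- transfer from coordinates -/
theorem hasCompleteFamily_of_coords {N : ℕ} (b : Basis (Fin N) K L)
    (g : Fin N → Fin N → Fin N → K) (hb : ∀ i j, ⁅b i, b j⁆ = ∑ l, g i j l • b l)
    (a : Dual K L) {F : Type*} [Field F] [Algebra (MvPolynomial (Fin N) K) F]
    [IsFractionRing (MvPolynomial (Fin N) K) F] {n : ℕ} (P : Fin n → MvPolynomial (Fin N) K)
    (hn : N + finrank F (LinearMap.ker (vm fun i j =>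
      algebraMap (MvPolynomial (Fin N) K) F (∑ l, C (g i j l) * X l))) ≤ 2 * n)
    (h1 : ∀ i j, ∑ l, ∑ m, pderiv l (P i) * (∑ p, C (g l m p) * X p) * pderiv m (P j) = 0)
    (h2 : ∀ i j, ∑ l, ∑ m, pderiv l (P i) * C (∑ p, g l m p * a (b p)) * pderiv m (P j) = 0)
    (h3 : LinearIndependent F (fun i => fun m =>
      algebraMap (MvPolynomial (Fin N) K) F (pderiv m (P i)))) :
    HasCompleteFamily a := by
  classical
  have hdim : finrank K L = N := by
    rw [finrank_eq_card_basis b, Fintype.card_fin]
  have hxb : ∀ (y : Dual K L) l m, y ⁅b l, b m⁆ = ∑ p, g l m p * y (b p) := by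
    intro y l m
    rw [hb, map_sum]
    exact Finset.sum_congr rfl fun p _ => by rw [map_smul, smul_eq_mul]
  have hlie : ∀ (y : Dual K L) (u w : Fin N → K),
      y ⁅∑ l, u l • b l, ∑ m, w m • b m⁆ = ∑ l, ∑ m, u l * y ⁅b l, b m⁆ * w m := by
    intro y u w
    rw [← lieForm_apply]
    simp only [map_sum, LinearMap.sum_apply, map_smul, LinearMap.smul_apply, smul_eq_mul,
      lieForm_apply, Finset.mul_sum]
    rw [Finset.sum_comm]
    exact Finset.sum_congr rfl fun l _ => Finset.sum_congr rfl fun m _ => by ring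
  -- index bound
  have hidx : index K L ≤ finrank F (LinearMap.ker (vm fun i j =>
      algebraMap (MvPolynomial (Fin N) K) F (∑ l, C (g i j l) * X l))) := by
    set M : Matrix (Fin N) (Fin N) (MvPolynomial (Fin N) K) := fun i j =>
      ∑ l, C (g i j l) * X l with hM
    set Cc : LinearMap.BilinForm F (Fin N → F) :=
      Matrix.toBilin' (M.map (algebraMap (MvPolynomial (Fin N) K) F)) with hCc
    have hCbil : ∀ x y, Cc x y = bil (M.map (algebraMap (MvPolynomial (Fin N) K) F)) x y :=
      fun x y => (bil_eq_toBilin' _ _ _).symm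
    obtain ⟨r, x, y, hr, hxy⟩ := exists_pair Cc
    have hP : Pair (M.map (algebraMap (MvPolynomial (Fin N) K) F)) r (1 : F) :=
      ⟨x, y, fun i j => by rw [← hCbil, hxy]⟩
    obtain ⟨h, hh, hP'⟩ := hP.descend (O := MvPolynomial (Fin N) K) one_ne_zero
    obtain ⟨w, hw⟩ := exists_eval_ne' hh
    obtain ⟨X', Y', hXY⟩ := hP'.map (eval w)
    set y₀ : Dual K L := b.constr K w with hy₀
    have hy₀b : ∀ i, y₀ (b i) = w i := fun i => by rw [hy₀, Basis.constr_basis]
    have hk := pair_le (lieForm y₀) hw (fun i => ∑ α, X' i α • b α) (fun i => ∑ α, Y' i α • b α)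
      (by
        intro i j
        rw [← hXY i j, lieForm_apply, hlie, bil]
        refine Finset.sum_congr rfl fun l _ => Finset.sum_congr rfl fun m _ => ?_
        congr 2
        rw [hxb, Matrix.map_apply, hM]
        simp [hy₀b])
    rw [ker_lieForm, hdim] at hk
    have hind : index K L ≤ finrank K (stab y₀) := Nat.sInf_le ⟨y₀, rfl⟩
    have hker : finrank F (LinearMap.ker Cc) ≤ finrank F (LinearMap.ker (vm fun i j =>
      algebraMap (MvPolynomial (Fin N) K) F (∑ l, C (g i j l) * X l))) := by
      apply Submodule.finrank_mono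
      intro z hz
      rw [LinearMap.mem_ker] at hz ⊢
      funext m
      have h4 := LinearMap.congr_fun hz (Pi.single m 1)
      rw [hCbil, LinearMap.zero_apply, bil] at h4
      rw [vm_apply, Pi.zero_apply, ← h4]
      refine Finset.sum_congr rfl fun l _ => ?_
      symm
      refine (Finset.sum_eq_single m ?_ ?_).trans ?_
      · intro j _ hj; rw [Pi.single_eq_of_ne hj, mul_zero]
      · simp
      · rw [Pi.single_eq_same, mul_one]; rfl
    rw [finrank_fin_fun] at hr
    omega
  -- a point of independence
  have h3' : ∃ h : MvPolynomial (Fin N) K, h ≠ 0 ∧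
      Dualizable (fun i m => pderiv m (P i)) h :=
    Dualizable.descend (F := F) h3
  obtain ⟨h, hh, hD⟩ := h3'
  obtain ⟨w, hw⟩ := exists_eval_ne' hh
  have hli : LinearIndependent K (fun i m => eval w (pderiv m (P i))) :=
    (hD.map (eval w)).linearIndependent hw
  set y₀ : Dual K L := b.constr K w with hy₀
  have hy₀b : ∀ i, y₀ (b i) = w i := fun i => by rw [hy₀, Basis.constr_basis]
  refine hasCompleteFamily_of_large (fun i => rename b (P i)) ?_ ?_ ?_ ⟨y₀, ?_⟩
  · rw [hdim, Fintype.card_fin]
    omega
  · intro i j x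
    rw [grad_rename, grad_rename, hlie]
    have h4 := congrArg (eval fun p => x (b p)) (h1 i j)
    simp only [map_sum, map_mul, map_zero, eval_C, eval_X] at h4
    rw [← h4]
    refine Finset.sum_congr rfl fun l _ => Finset.sum_congr rfl fun m _ => ?_
    rw [hxb]
  · intro i j x
    rw [grad_rename, grad_rename, hlie]
    have h4 := congrArg (eval fun p => x (b p)) (h2 i j)
    simp only [map_sum, map_mul, map_zero, eval_C] at h4
    rw [← h4]
    refine Finset.sum_congr rfl fun l _ => Finset.sum_congr rfl fun m _ => ?_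
    rw [hxb]
  · have e : (fun i => grad (rename b (P i)) y₀) =
        fun i => b.equivFun.symm (fun m => eval w (pderiv m (P i))) := by
      funext i
      rw [grad_rename, Basis.equivFun_symm_apply]
      have : (fun j => y₀ (b j)) = w := funext hy₀b
      rw [this]
    rw [e]
    exact hli.map' (b.equivFun.symm : (Fin N → K) →ₗ[K] L) (LinearEquiv.ker _)

/-- adapted sequences in a nilpotent Lie algebra -/
lemma exists_adapted [LieRing.IsNilpotent L] : ∀ m ≤ finrank K L, ∃ b : Fin m → L,
    LinearIndependent K b ∧ ∀ i (x : L), ⁅x, b i⁆ ∈ Submodule.span K (b '' {l | l < i}) := by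
  classical
  intro m
  induction m with
  | zero => intro _; exact ⟨Fin.elim0, linearIndependent_empty_type, fun i => i.elim0⟩
  | succ m ih =>
    intro hm
    obtain ⟨b, hb, hb2⟩ := ih (by omega)
    set V := Submodule.span K (Set.range b) with hV
    have hVdim : finrank K V = m := by
      rw [hV, finrank_span_eq_card hb, Fintype.card_fin]
    obtain ⟨k, hk⟩ := LieModule.IsNilpotent.nilpotent K L L
    have hex : ∃ k, (LieModule.lowerCentralSeries K L L k : Submodule K L) ≤ V :=
      ⟨k, by rw [hk]; simp⟩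
    have hpos : Nat.find hex ≠ 0 := by
      intro h0
      have h1 := Nat.find_spec hex
      rw [h0, LieModule.lowerCentralSeries_zero] at h1
      have h2 : V = ⊤ := by
        rw [eq_top_iff]
        simpa using h1
      rw [h2, finrank_top] at hVdim
      omega
    have hnot := Nat.find_min hex (m := Nat.find hex - 1) (by omega)
    obtain ⟨y, hy, hyV⟩ := SetLike.not_le_iff_exists.1 hnot
    have hyx : ∀ x : L, ⁅x, y⁆ ∈ V := by
      intro x
      apply Nat.find_spec hex
      have e : Nat.find hex = (Nat.find hex - 1) + 1 := by omega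
      rw [e, LieModule.lowerCentralSeries_succ]
      exact LieSubmodule.lie_mem_lie (LieSubmodule.mem_top x) hy
    refine ⟨Fin.snoc b y, linearIndependent_finSnoc.2 ⟨hb, hyV⟩, ?_⟩
    intro i x
    refine Fin.lastCases ?_ (fun i => ?_) i
    · rw [Fin.snoc_last]
      refine Submodule.span_mono ?_ (hyx x)
      rintro _ ⟨l, rfl⟩
      exact ⟨l.castSucc, Fin.castSucc_lt_last l, Fin.snoc_castSucc (α := fun _ => L) _ _ _⟩
    · rw [Fin.snoc_castSucc]
      refine Submodule.span_mono ?_ (hb2 i x)
      rintro _ ⟨l, hl, rfl⟩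
      exact ⟨l.castSucc, Fin.castSucc_lt_castSucc_iff.2 hl,
        Fin.snoc_castSucc (α := fun _ => L) _ _ _⟩

/-- Every nilpotent Lie algebra has complete families in bi-involution, for every `a`. -/
theorem nilpotent [LieRing.IsNilpotent L] (a : Dual K L) : HasCompleteFamily a := by
  classical
  obtain ⟨b₀, hb₀, hb2⟩ := exists_adapted (K := K) (L := L) (finrank K L) le_rfl
  let b : Basis (Fin (finrank K L)) K L :=
    basisOfLinearIndependentOfCardEqFinrank' b₀ hb₀ (Fintype.card_fin _)
  have hbb : ∀ i, b i = b₀ i := fun i => by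
    simp [b]
  have hb2' : ∀ i (x : L) l, b.repr ⁅x, b i⁆ l ≠ 0 → l < i := by
    intro i x l hl
    have h1 := hb2 i x
    have h2 : b₀ = b := (funext hbb).symm
    rw [h2, Basis.mem_span_image] at h1
    exact h1 (Finsupp.mem_support_iff.2 hl)
  have hrep : ∀ (x y : L) l, b.repr ⁅x, y⁆ l = ∑ p, b.repr y p * b.repr ⁅x, b p⁆ l := by
    intro x y l
    have h1 : ⁅x, y⁆ = ∑ p, b.repr y p • ⁅x, b p⁆ := by
      have h0 := congrArg (LieAlgebra.ad K L x) (b.sum_repr y).symm
      rw [map_sum] at h0
      simp only [LieAlgebra.ad_apply, lie_smul] at h0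
      exact h0
    rw [h1, map_sum, Finsupp.finsetSum_apply]
    simp
  have hrepl : ∀ (x y : L) l, b.repr ⁅x, y⁆ l = ∑ p, b.repr x p * b.repr ⁅b p, y⁆ l := by
    intro x y l
    rw [← lie_skew, map_neg, Finsupp.neg_apply, hrep, ← Finset.sum_neg_distrib]
    refine Finset.sum_congr rfl fun p _ => ?_
    rw [← lie_skew (b p) y, map_neg, Finsupp.neg_apply]; ring
  let d : NData K (finrank K L) :=
    { g := fun i j l => b.repr ⁅b i, b j⁆ l
      anti := by
        intro i j l
        rw [← lie_skew, map_neg, Finsupp.neg_apply]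
      jac := by
        intro i j m l
        rw [← hrep, ← hrepl, ← hrep, ← Finsupp.add_apply, ← map_add, ← leibniz_lie]
      nil := by
        intro i j l h
        refine ⟨?_, hb2' _ _ _ h⟩
        apply hb2' i (b j) l
        rw [← lie_skew, map_neg, Finsupp.neg_apply]
        exact neg_ne_zero.2 h }
  obtain ⟨n, P, hn, h1, h2, h3⟩ := d.exists_family
    (F := FractionRing (MvPolynomial (Fin (finrank K L)) K)) (fun p => a (b p))
  refine hasCompleteFamily_of_coords b d.g (fun i j => (b.sum_repr _).symm) a
    (F := FractionRing (MvPolynomial (Fin (finrank K L)) K)) P hn ?_ h2 h3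
  intro i j
  have := h1 i j
  rw [d.pb_eq'] at this
  exact this

end Pool.Agent.H865_nil
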