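import Mathlib

/-!
Residues modulo a monic polynomial and the bi-isotropy lemma for a linear pencil of
alternating forms.
-/

open Polynomial

set_option linter.unusedSectionVars false

namespace Pool.Agent.H865_nil

section Res

variable {F : Type*} [Field F]

/-- the coefficient of `λ⁻¹` in the expansion of `p/q` at infinity -/
noncomputable def Res (q p : F[X]) : F := (p %ₘ q).coeff (q.natDegree - 1)

lemma Res_add (q p p' : F[X]) : Res q (p + p') = Res q p + Res q p' := by
  rw [Res, add_modByMonic, coeff_add]; rfl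

lemma Res_C_mul (q : F[X]) (a : F) (p : F[X]) : Res q (C a * p) = a * Res q p := by
  rw [Res, ← smul_eq_C_mul, smul_modByMonic, coeff_smul]; rfl

lemma Res_mul_C (q : F[X]) (a : F) (p : F[X]) : Res q (p * C a) = Res q p * a := by
  rw [mul_comm, Res_C_mul, mul_comm]

lemma Res_zero (q : F[X]) : Res q 0 = 0 := by rw [Res, zero_modByMonic, coeff_zero]

lemma Res_sum {J : Type*} (q : F[X]) (s : Finset J) (p : J → F[X]) :
    Res q (∑ j ∈ s, p j) = ∑ j ∈ s, Res q (p j) := by
  classical
  induction s using Finset.induction_on with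
  | empty => simp [Res_zero]
  | insert a s ha ih => rw [Finset.sum_insert ha, Finset.sum_insert ha, Res_add, ih]

lemma Res_sub (q p p' : F[X]) : Res q (p - p') = Res q p - Res q p' := by
  rw [Res, sub_modByMonic, coeff_sub]; rfl

lemma Res_of_dvd {q p : F[X]} (hq : q.Monic) (h : q ∣ p) : Res q p = 0 := by
  rw [Res, (modByMonic_eq_zero_iff_dvd hq).2 h, coeff_zero]

lemma Res_congr {q p p' : F[X]} (hq : q.Monic) (h : q ∣ p - p') : Res q p = Res q p' := by
  have := Res_of_dvd hq h
  rw [Res_sub, sub_eq_zero] at this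
  exact this

lemma mul_modByMonic_mul {q r : F[X]} (hq : q.Monic) (hr : r.Monic) (p : F[X]) :
    (p * r) %ₘ (q * r) = (p %ₘ q) * r := by
  refine (div_modByMonic_unique (p /ₘ q) _ (hq.mul hr) ⟨?_, ?_⟩).2
  · conv_rhs => rw [← modByMonic_add_div p q]
    ring
  · rw [degree_mul, degree_mul]
    have h := degree_modByMonic_lt p hq
    have h2 : r.degree ≠ ⊥ := by rw [Ne, degree_eq_bot]; exact hr.ne_zero
    exact WithBot.add_lt_add_right h2 h

lemma Res_mul_mul {q r : F[X]} (hq : q.Monic) (hr : r.Monic) (p : F[X]) :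
    Res (q * r) (p * r) = Res q p := by
  rw [Res, mul_modByMonic_mul hq hr, Res, hq.natDegree_mul hr]
  rcases Nat.eq_zero_or_pos q.natDegree with h | h
  · have : q = 1 := hq.natDegree_eq_zero.1 h
    subst this
    simp
  · rw [show q.natDegree + r.natDegree - 1 = (q.natDegree - 1) + r.natDegree by omega,
      coeff_mul_add_eq_of_natDegree_le (df := q.natDegree - 1) (dg := r.natDegree)]
    · rw [hr.coeff_natDegree, mul_one]
    · have := natDegree_modByMonic_lt p hq (by rintro rfl; simp at h)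
      omega
    · exact le_rfl

lemma dvd_of_Res {q : F[X]} (hq : q.Monic) (p : F[X])
    (h : ∀ j < q.natDegree, Res q (X ^ j * p) = 0) : q ∣ p := by
  by_contra hn
  have h0 : p %ₘ q ≠ 0 := fun h0 => hn ((modByMonic_eq_zero_iff_dvd hq).1 h0)
  have h1 : (p %ₘ q).natDegree < q.natDegree := by
    refine natDegree_modByMonic_lt p hq ?_
    rintro rfl
    exact hn (one_dvd p)
  set e := (p %ₘ q).natDegree with he
  have h2 := h (q.natDegree - 1 - e) (by omega)
  have h3 : Res q (X ^ (q.natDegree - 1 - e) * p) =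
      Res q (X ^ (q.natDegree - 1 - e) * (p %ₘ q)) := by
    apply Res_congr hq
    rw [← mul_sub]
    refine Dvd.dvd.mul_left ?_ _
    refine ⟨p /ₘ q, ?_⟩
    rw [sub_eq_iff_eq_add, add_comm]
    exact (modByMonic_add_div p q).symm
  rw [h3, Res, (modByMonic_eq_self_iff hq).2, coeff_X_pow_mul',
    if_pos (by omega), show q.natDegree - 1 - (q.natDegree - 1 - e) = e by omega, he] at h2
  · exact h0 (leadingCoeff_eq_zero.1 h2)
  · apply (degree_lt_degree _)
    rw [natDegree_X_pow_mul _ h0]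
    omega

lemma Res_X_pow (j : ℕ) (p : F[X]) : Res (X ^ (j + 1)) p = p.coeff j := by
  have h := Res_congr (F := F) (monic_X_pow (j + 1)) (p := p) (p' := p %ₘ X ^ (j + 1)) ⟨p /ₘ X ^ (j + 1), by
    rw [sub_eq_iff_eq_add, add_comm]; exact (modByMonic_add_div p _).symm⟩
  rw [Res, natDegree_X_pow, Nat.add_sub_cancel]
  have h2 := congrArg (fun f => coeff f j) (modByMonic_add_div p (X ^ (j + 1) : F[X]))
  simp only [coeff_add, coeff_X_pow_mul'] at h2
  rw [if_neg (by omega), add_zero] at h2
  exact h2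

end Res

section pencil

variable {F : Type*} [Field F] {N : ℕ} (A B : Fin N → Fin N → F)
  (hA : ∀ i j, A i j = - A j i) (hB : ∀ i j, B i j = - B j i)

/-- the pencil `λ A + B` -/
noncomputable def pen (l m : Fin N) : F[X] := C (A l m) * X + C (B l m)

lemma pen_coeff_succ (p : F[X]) (l m : Fin N) (n : ℕ) :
    (p * pen A B l m).coeff (n + 1) = p.coeff n * A l m + p.coeff (n + 1) * B l m := by
  rw [pen, mul_add, coeff_add, ← mul_assoc, coeff_mul_X, coeff_mul_C, coeff_mul_C]

lemma pen_natDegree (p : F[X]) (l m : Fin N) : (p * pen A B l m).natDegree ≤ p.natDegree + 1 := by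
  refine natDegree_mul_le.trans (Nat.add_le_add_left ?_ _)
  rw [pen]
  exact natDegree_linear_le

/-- reduction of a Casimir modulo `q` -/
lemma pen_reduce {q : F[X]} (hq : q.Monic) (hq1 : 1 ≤ q.natDegree) (G : Fin N → F[X])
    (hG : ∀ m, q ∣ ∑ l, G l * pen A B l m) (m : Fin N) :
    ∑ l, (G l %ₘ q) * pen A B l m = q * C (∑ l, Res q (G l) * A l m) := by
  have h1 : q ∣ ∑ l, (G l %ₘ q) * pen A B l m := by
    have e : ∑ l, (G l %ₘ q) * pen A B l m = ∑ l, G l * pen A B l m -
        q * ∑ l, (G l /ₘ q) * pen A B l m := by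
      rw [Finset.mul_sum, ← Finset.sum_sub_distrib]
      refine Finset.sum_congr rfl fun l _ => ?_
      conv_rhs => rw [show G l * pen A B l m = (G l %ₘ q + q * (G l /ₘ q)) * pen A B l m by
        rw [modByMonic_add_div]]
      ring
    rw [e]
    exact dvd_sub (hG m) (dvd_mul_right _ _)
  obtain ⟨t, ht⟩ := h1
  have hlt : ∀ l, (G l %ₘ q).natDegree < q.natDegree := fun l =>
    natDegree_modByMonic_lt _ hq (by rintro rfl; simp at hq1)
  have hdeg : (∑ l, (G l %ₘ q) * pen A B l m).natDegree ≤ q.natDegree := by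
    refine natDegree_sum_le_of_forall_le _ _ fun l _ => ?_
    have := pen_natDegree A B (G l %ₘ q) l m
    have := hlt l
    omega
  have ht0 : t.natDegree = 0 := by
    by_cases h : t = 0
    · rw [h, natDegree_zero]
    · rw [ht, hq.natDegree_mul' h] at hdeg
      omega
  have hc : (∑ l, (G l %ₘ q) * pen A B l m).coeff q.natDegree = ∑ l, Res q (G l) * A l m := by
    rw [finsetSum_coeff]
    refine Finset.sum_congr rfl fun l _ => ?_
    have e : q.natDegree = (q.natDegree - 1) + 1 := by omega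
    rw [e, pen_coeff_succ, ← e, coeff_eq_zero_of_natDegree_lt (hlt l), zero_mul, add_zero]
    rfl
  rw [← hc, ht]
  congr 1
  rw [eq_C_of_natDegree_eq_zero ht0, coeff_mul_C, hq.coeff_natDegree, one_mul]

include hA hB in
/-- the bi-isotropy lemma, same denominator -/
theorem iso_aux {q : F[X]} (hq : q.Monic) (hq2 : 2 ≤ q.natDegree) (G G' : Fin N → F[X])
    (hG : ∀ m, q ∣ ∑ l, G l * pen A B l m) (hG' : ∀ m, q ∣ ∑ l, G' l * pen A B l m)
    (h0 : ∑ l, ∑ m, G l * pen A B l m * G' m = 0) :
    ∑ l, ∑ m, Res q (G l) * A l m * Res q (G' m) = 0 ∧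
    ∑ l, ∑ m, Res q (G l) * B l m * Res q (G' m) = 0 := by
  have hanti : ∀ l m, pen A B l m = - pen A B m l := by
    intro l m
    rw [pen, pen, hA l m, hB l m]
    simp only [map_neg]; ring
  have hq0 : q ≠ 0 := hq.ne_zero
  have hlt : ∀ p : F[X], (p %ₘ q).natDegree < q.natDegree := fun p =>
    natDegree_modByMonic_lt _ hq (by rintro rfl; simp at hq2)
  set θ : Fin N → F := fun m => ∑ l, Res q (G l) * A l m with hθ
  set θ' : Fin N → F := fun l => ∑ m, A l m * Res q (G' m) with hθ'
  have e1 : ∀ m, ∑ l, (G l %ₘ q) * pen A B l m = q * C (θ m) := fun m =>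
    pen_reduce A B hq (by omega) G hG m
  have e2 : ∀ l, ∑ m, pen A B l m * (G' m %ₘ q) = q * C (θ' l) := by
    intro l
    have h := pen_reduce A B hq (by omega) G' hG' l
    have h1 : ∑ m, pen A B l m * (G' m %ₘ q) = - ∑ m, (G' m %ₘ q) * pen A B m l := by
      rw [← Finset.sum_neg_distrib]
      refine Finset.sum_congr rfl fun m _ => ?_
      rw [hanti l m]; ring
    have h2 : θ' l = - ∑ m, Res q (G' m) * A m l := by
      rw [← Finset.sum_neg_distrib]
      refine Finset.sum_congr rfl fun m _ => ?_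
      rw [hA l m]; ring
    rw [h1, h, h2, C_neg]; ring
  -- expansion
  have e3 : ∑ l, ∑ m, G l * pen A B l m * G' m =
      ∑ m, (∑ l, (G l %ₘ q) * pen A B l m) * (G' m %ₘ q) +
      q * (∑ m, (∑ l, (G l %ₘ q) * pen A B l m) * (G' m /ₘ q) +
        ∑ l, (G l /ₘ q) * ∑ m, pen A B l m * (G' m %ₘ q)) +
      q * q * ∑ l, ∑ m, (G l /ₘ q) * pen A B l m * (G' m /ₘ q) := by
    simp only [Finset.sum_mul, Finset.mul_sum, mul_add]
    rw [Finset.sum_comm (f := fun m l => (G l %ₘ q) * pen A B l m * (G' m %ₘ q)),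
      Finset.sum_comm (f := fun m l => q * ((G l %ₘ q) * pen A B l m * (G' m /ₘ q)))]
    simp only [← Finset.sum_add_distrib]
    refine Finset.sum_congr rfl fun l _ => Finset.sum_congr rfl fun m _ => ?_
    conv_lhs => rw [← modByMonic_add_div (G l) q, ← modByMonic_add_div (G' m) q]
    ring
  rw [h0, Finset.sum_congr rfl fun m _ => by rw [e1 m],
    Finset.sum_congr (s₁ := Finset.univ) (f := fun m => (∑ l, (G l %ₘ q) * pen A B l m) *
      (G' m /ₘ q)) rfl fun m _ => by rw [e1 m],
    Finset.sum_congr (s₁ := Finset.univ) (f := fun l => (G l /ₘ q) *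
      ∑ m, pen A B l m * (G' m %ₘ q)) rfl fun l _ => by rw [e2 l]] at e3
  have e4 : ∑ m, C (θ m) * (G' m %ₘ q) = - q * (∑ m, C (θ m) * (G' m /ₘ q) +
      ∑ l, (G l /ₘ q) * C (θ' l) + ∑ l, ∑ m, (G l /ₘ q) * pen A B l m * (G' m /ₘ q)) := by
    apply mul_left_cancel₀ hq0
    have f1 : ∑ m, q * C (θ m) * (G' m %ₘ q) = q * ∑ m, C (θ m) * (G' m %ₘ q) := by
      rw [Finset.mul_sum]; exact Finset.sum_congr rfl fun m _ => by ring
    have f2 : ∑ m, q * C (θ m) * (G' m /ₘ q) = q * ∑ m, C (θ m) * (G' m /ₘ q) := by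
      rw [Finset.mul_sum]; exact Finset.sum_congr rfl fun m _ => by ring
    have f3 : ∑ l, (G l /ₘ q) * (q * C (θ' l)) = q * ∑ l, (G l /ₘ q) * C (θ' l) := by
      rw [Finset.mul_sum]; exact Finset.sum_congr rfl fun m _ => by ring
    rw [f1, f2, f3] at e3
    linear_combination -e3
  have e5 : ∑ m, C (θ m) * (G' m %ₘ q) = 0 := by
    have hd : q ∣ ∑ m, C (θ m) * (G' m %ₘ q) := by
      rw [e4, neg_mul, dvd_neg]; exact dvd_mul_right _ _
    refine eq_zero_of_dvd_of_natDegree_lt hd ?_
    refine lt_of_le_of_lt (natDegree_sum_le_of_forall_le (n := q.natDegree - 1) _ _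
      fun m _ => ?_) (by omega)
    refine (natDegree_C_mul_le _ _).trans ?_
    have := hlt (G' m)
    omega
  have e6 : ∀ n, ∑ m, θ m * (G' m %ₘ q).coeff n = 0 := by
    intro n
    have := congrArg (fun p => coeff p n) e5
    simp only [finsetSum_coeff, coeff_C_mul, coeff_zero] at this
    exact this
  have hisoA : ∑ l, ∑ m, Res q (G l) * A l m * Res q (G' m) = 0 := by
    rw [Finset.sum_comm]
    have := e6 (q.natDegree - 1)
    rw [← this]
    refine Finset.sum_congr rfl fun m _ => ?_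
    rw [hθ, Finset.sum_mul]; rfl
  refine ⟨hisoA, ?_⟩
  -- the second relation
  have e7 : ∀ l, ∑ m, A l m * (G' m %ₘ q).coeff (q.natDegree - 2) +
      ∑ m, B l m * Res q (G' m) = q.coeff (q.natDegree - 1) * θ' l := by
    intro l
    have h := congrArg (fun p => coeff p (q.natDegree - 1)) (e2 l)
    simp only [finsetSum_coeff, coeff_mul_C] at h
    rw [← h, ← Finset.sum_add_distrib]
    refine Finset.sum_congr rfl fun m _ => ?_
    have e : q.natDegree - 1 = (q.natDegree - 2) + 1 := by omega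
    rw [mul_comm (pen A B l m), e, pen_coeff_succ, ← e, Res]
    ring
  have e8 : ∑ l, Res q (G l) * (∑ m, A l m * (G' m %ₘ q).coeff (q.natDegree - 2)) = 0 := by
    have := e6 (q.natDegree - 2)
    rw [← this]
    simp only [hθ, Finset.mul_sum, Finset.sum_mul]
    rw [Finset.sum_comm]
    exact Finset.sum_congr rfl fun m _ => Finset.sum_congr rfl fun l _ => by ring
  have e9 : ∑ l, Res q (G l) * θ' l = 0 := by
    rw [← hisoA]
    refine Finset.sum_congr rfl fun l _ => ?_
    rw [hθ', Finset.mul_sum]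
    exact Finset.sum_congr rfl fun m _ => by ring
  have e10 : ∑ l, Res q (G l) * (∑ m, B l m * Res q (G' m)) = 0 := by
    have h : ∀ l, Res q (G l) * (∑ m, B l m * Res q (G' m)) =
        q.coeff (q.natDegree - 1) * (Res q (G l) * θ' l) -
        Res q (G l) * (∑ m, A l m * (G' m %ₘ q).coeff (q.natDegree - 2)) := by
      intro l
      linear_combination (Res q (G l)) * e7 l
    rw [Finset.sum_congr rfl fun l _ => h l, Finset.sum_sub_distrib, ← Finset.mul_sum, e9, e8]
    ring
  rw [← e10]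
  refine Finset.sum_congr rfl fun l _ => ?_
  rw [Finset.mul_sum]
  exact Finset.sum_congr rfl fun m _ => by ring

/-- The space of residues of Casimirs with poles taken from a module `M`. -/
noncomputable def Lsub (M : Submodule F[X] (Fin N → F[X])) : Submodule F (Fin N → F) where
  carrier := {ρ | ∃ q : F[X], q.Monic ∧ ∃ G ∈ M, (∀ m, q ∣ ∑ l, G l * pen A B l m) ∧
    ∀ m, ρ m = Res q (G m)}
  zero_mem' := ⟨1, monic_one, 0, M.zero_mem, fun m => one_dvd _, fun m => by
    simp [Res_zero]⟩
  add_mem' := by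
    rintro ρ ρ' ⟨q, hq, G, hG, hd, h⟩ ⟨q', hq', G', hG', hd', h'⟩
    refine ⟨q * q', hq.mul hq', q' • G + q • G', M.add_mem (M.smul_mem _ hG) (M.smul_mem _ hG'),
      ?_, ?_⟩
    · intro m
      have e : ∑ l, (q' • G + q • G') l * pen A B l m =
          q' * ∑ l, G l * pen A B l m + q * ∑ l, G' l * pen A B l m := by
        rw [Finset.mul_sum, Finset.mul_sum, ← Finset.sum_add_distrib]
        refine Finset.sum_congr rfl fun l _ => ?_
        simp only [Pi.add_apply, Pi.smul_apply, smul_eq_mul]; ring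
      rw [e]
      refine dvd_add ?_ (mul_dvd_mul_left q (hd' m))
      rw [mul_comm q q']
      exact mul_dvd_mul_left q' (hd m)
    · intro m
      have e1 := Res_mul_mul hq hq' (G m)
      have e2 := Res_mul_mul hq' hq (G' m)
      rw [Pi.add_apply, h m, h' m, ← e1, ← e2, mul_comm q' q, ← Res_add]
      congr 1
      simp only [Pi.add_apply, Pi.smul_apply, smul_eq_mul]; ring
  smul_mem' := by
    rintro t ρ ⟨q, hq, G, hG, hd, h⟩
    refine ⟨q, hq, C t • G, M.smul_mem _ hG, ?_, ?_⟩
    · intro m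
      have e : ∑ l, (C t • G) l * pen A B l m = C t * ∑ l, G l * pen A B l m := by
        rw [Finset.mul_sum]
        refine Finset.sum_congr rfl fun l _ => ?_
        simp only [Pi.smul_apply, smul_eq_mul]; ring
      rw [e]
      exact Dvd.dvd.mul_left (hd m) _
    · intro m
      rw [Pi.smul_apply, smul_eq_mul, h m]
      have : (C t • G) m = C t * G m := rfl
      rw [this, Res_C_mul]

include hA hB in
/-- `Lsub` is isotropic for both forms -/
theorem Lsub_iso (M : Submodule F[X] (Fin N → F[X]))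
    (hM : ∀ G ∈ M, ∀ G' ∈ M, ∑ l, ∑ m, G l * pen A B l m * G' m = 0)
    {ρ ρ' : Fin N → F} (hρ : ρ ∈ Lsub A B M) (hρ' : ρ' ∈ Lsub A B M) :
    ∑ l, ∑ m, ρ l * A l m * ρ' m = 0 ∧ ∑ l, ∑ m, ρ l * B l m * ρ' m = 0 := by
  obtain ⟨q, hq, G, hG, hd, h⟩ := hρ
  obtain ⟨q', hq', G', hG', hd', h'⟩ := hρ'
  have hX : (X ^ 2 : F[X]).Monic := monic_X_pow 2
  have key := iso_aux A B hA hB (q := q * (q' * X ^ 2)) (hq.mul (hq'.mul hX)) (by
      rw [hq.natDegree_mul (hq'.mul hX), hq'.natDegree_mul hX, natDegree_X_pow]; omega)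
    ((q' * X ^ 2) • G) ((q * X ^ 2) • G') (by
      intro m
      have e : ∑ l, ((q' * X ^ 2) • G) l * pen A B l m =
          (∑ l, G l * pen A B l m) * (q' * X ^ 2) := by
        rw [Finset.sum_mul]
        refine Finset.sum_congr rfl fun l _ => ?_
        simp only [Pi.smul_apply, smul_eq_mul]; ring
      rw [e]
      exact mul_dvd_mul_right (hd m) _) (by
      intro m
      have e : ∑ l, ((q * X ^ 2) • G') l * pen A B l m =
          (∑ l, G' l * pen A B l m) * (q * X ^ 2) := by
        rw [Finset.sum_mul]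
        refine Finset.sum_congr rfl fun l _ => ?_
        simp only [Pi.smul_apply, smul_eq_mul]; ring
      rw [e, show q * (q' * X ^ 2) = q' * (q * X ^ 2) by ring]
      exact mul_dvd_mul_right (hd' m) _)
    (hM _ (M.smul_mem _ hG) _ (M.smul_mem _ hG'))
  have e1 : ∀ l, Res (q * (q' * X ^ 2)) (((q' * X ^ 2) • G) l) = ρ l := by
    intro l
    rw [h l, ← Res_mul_mul hq (hq'.mul hX) (G l)]
    congr 1
    simp only [Pi.smul_apply, smul_eq_mul]; ring
  have e2 : ∀ l, Res (q * (q' * X ^ 2)) (((q * X ^ 2) • G') l) = ρ' l := by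
    intro l
    rw [h' l, ← Res_mul_mul hq' (hq.mul hX) (G' l), show q * (q' * X ^ 2) = q' * (q * X ^ 2) by ring]
    congr 1
    simp only [Pi.smul_apply, smul_eq_mul]; ring
  simp only [e1, e2] at key
  exact key

end pencil

end Pool.Agent.H865_nil
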