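import Pool.Agent.H865_nil.Loop
import Pool.Agent.H865_nil.Der
import Pool.Agent.H865_nil.Dim

/-!
The point `x λ + a`.
-/

open MvPolynomial

set_option linter.unusedSectionVars false

namespace Pool.Agent.H865_nil.NData


variable {K : Type*} [Field K] {N : ℕ} (d : NData K N) (a : Fin N → K)

/-- `f(xλ + a)` as a polynomial in `λ` over the polynomial ring -/
noncomputable def sigS : MvPolynomial (Fin N) K →ₐ[K] Polynomial (MvPolynomial (Fin N) K) :=
  aeval fun i => Polynomial.C (X i) * Polynomial.X + Polynomial.C (C (a i))

lemma pderiv_isDer (m : Fin N) : IsDer' (AlgHom.id K (MvPolynomial (Fin N) K))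
    ((pderiv m : Derivation K (MvPolynomial (Fin N) K) (MvPolynomial (Fin N) K)) :
      MvPolynomial (Fin N) K →ₗ[K] MvPolynomial (Fin N) K) := by
  intro f g
  simp only [Derivation.coeFn_coe, Derivation.leibniz, smul_eq_mul, AlgHom.id_apply]

lemma hat_sigS (m : Fin N) (f : MvPolynomial (Fin N) K) :
    hat ((pderiv m : Derivation K (MvPolynomial (Fin N) K) (MvPolynomial (Fin N) K)) :
      MvPolynomial (Fin N) K →ₗ[K] MvPolynomial (Fin N) K) (sigS a f) =
      Polynomial.X * sigS a (pderiv m f) := by
  classical
  induction f using MvPolynomial.induction_on with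
  | C c =>
    have h1 : sigS a (C c : MvPolynomial (Fin N) K) =
        (Polynomial.C c).map (algebraMap K (MvPolynomial (Fin N) K)) := by
      rw [sigS, aeval_C, Polynomial.map_C, Polynomial.algebraMap_apply]
    rw [h1, hat_const (pderiv_isDer m), pderiv_C, map_zero, mul_zero]
  | add f g hf hg => rw [map_add, hat_add, hf, hg, map_add, map_add, mul_add]
  | mul_X f i hf =>
    have h1 : sigS a (X i : MvPolynomial (Fin N) K) = Polynomial.C (X i) * Polynomial.X + Polynomial.C (C (a i)) := by
      rw [sigS, aeval_X]
    have h2 : hat ((pderiv m : Derivation K (MvPolynomial (Fin N) K) (MvPolynomial (Fin N) K)) :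
      MvPolynomial (Fin N) K →ₗ[K] MvPolynomial (Fin N) K)
        (Polynomial.C (X i) * Polynomial.X + Polynomial.C (C (a i)) : Polynomial (MvPolynomial (Fin N) K)) =
        if i = m then Polynomial.X else 0 := by
      ext1 n
      rw [coeff_hat, Derivation.coeFn_coe, Polynomial.coeff_add, Polynomial.coeff_C_mul,
        Polynomial.coeff_X, Polynomial.coeff_C]
      by_cases hn : n = 1
      · subst hn
        simp only [if_true, mul_one, Nat.one_ne_zero, if_false, add_zero]
        by_cases h : i = m
        · subst h; simp
        · rw [if_neg h, pderiv_X_of_ne h, Polynomial.coeff_zero]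
      · rw [if_neg (Ne.symm hn), mul_zero, zero_add]
        have h3 : pderiv m (if n = 0 then (C (a i) : MvPolynomial (Fin N) K) else 0) = 0 := by
          split_ifs
          · exact pderiv_C
          · exact map_zero _
        rw [h3]
        split_ifs
        · rw [Polynomial.coeff_X, if_neg (Ne.symm hn)]
        · rw [Polynomial.coeff_zero]
    have hid : ∀ p : Polynomial (MvPolynomial (Fin N) K),
        p.map ((AlgHom.id K (MvPolynomial (Fin N) K) : MvPolynomial (Fin N) K →ₐ[K]
          MvPolynomial (Fin N) K) : MvPolynomial (Fin N) K →+* MvPolynomial (Fin N) K) = p :=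
      fun p => Polynomial.map_id
    rw [map_mul, hat_mul (pderiv_isDer m), hf, h1, h2, hid, hid, Derivation.leibniz, smul_eq_mul,
      smul_eq_mul, map_add, map_mul, map_mul, h1, pderiv_X]
    by_cases h : i = m
    · subst h
      simp
      ring
    · rw [if_neg h, Pi.single_apply, if_neg h, map_zero]
      ring

lemma translate_injective : Function.Injective
    (aeval (fun i : Fin N => (X i + C (a i) : MvPolynomial (Fin N) K)) :
      MvPolynomial (Fin N) K →ₐ[K] MvPolynomial (Fin N) K) := by
  have h : Function.LeftInverse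
      (aeval (fun i : Fin N => (X i - C (a i) : MvPolynomial (Fin N) K)) :
        MvPolynomial (Fin N) K →ₐ[K] MvPolynomial (Fin N) K)
      (aeval (fun i : Fin N => (X i + C (a i) : MvPolynomial (Fin N) K)) :
        MvPolynomial (Fin N) K →ₐ[K] MvPolynomial (Fin N) K) := by
    intro f
    rw [← AlgHom.comp_apply]
    have : (aeval (fun i : Fin N => (X i - C (a i) : MvPolynomial (Fin N) K)) :
        MvPolynomial (Fin N) K →ₐ[K] MvPolynomial (Fin N) K).comp
      (aeval (fun i : Fin N => (X i + C (a i) : MvPolynomial (Fin N) K)) :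
        MvPolynomial (Fin N) K →ₐ[K] MvPolynomial (Fin N) K) = AlgHom.id K _ := by
      apply MvPolynomial.algHom_ext
      intro i
      rw [AlgHom.comp_apply, aeval_X, map_add, aeval_X, aeval_C, AlgHom.id_apply]
      simp [MvPolynomial.algebraMap_eq]
    rw [this, AlgHom.id_apply]
  exact h.injective

variable {F : Type*} [Field F] [Algebra (MvPolynomial (Fin N) K) F]
  [IsFractionRing (MvPolynomial (Fin N) K) F] [Algebra K F]
  [IsScalarTower K (MvPolynomial (Fin N) K) F]

variable (F) in
/-- the point `xλ + a` -/
noncomputable def pt (i : Fin N) : Polynomial F :=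
  Polynomial.C (algebraMap (MvPolynomial (Fin N) K) F (X i)) * Polynomial.X + Polynomial.C (algebraMap K F (a i))

lemma map_sigS (f : MvPolynomial (Fin N) K) :
    (sigS a f).map (algebraMap (MvPolynomial (Fin N) K) F) = aeval (pt a F) f := by
  induction f using MvPolynomial.induction_on with
  | C c =>
    rw [sigS, aeval_C, aeval_C, Polynomial.algebraMap_apply, Polynomial.algebraMap_apply,
      Polynomial.map_C, IsScalarTower.algebraMap_apply K (MvPolynomial (Fin N) K) F]
  | add f g hf hg => rw [map_add, Polynomial.map_add, hf, hg, map_add]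
  | mul_X f i hf =>
    rw [map_mul, Polynomial.map_mul, hf, map_mul, sigS, aeval_X, aeval_X, pt]
    simp only [Polynomial.map_add, Polynomial.map_mul, Polynomial.map_C, Polynomial.map_X]
    rw [IsScalarTower.algebraMap_apply K (MvPolynomial (Fin N) K) F, MvPolynomial.algebraMap_eq]

lemma coeff_pt (f : MvPolynomial (Fin N) K) (j : ℕ) :
    (aeval (pt a F) f).coeff j = algebraMap (MvPolynomial (Fin N) K) F ((sigS a f).coeff j) := by
  rw [← map_sigS, Polynomial.coeff_map]

lemma grad_coeff (f : MvPolynomial (Fin N) K) (j : ℕ) (m : Fin N) :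
    algebraMap (MvPolynomial (Fin N) K) F (pderiv m ((sigS a f).coeff j)) =
      (Polynomial.X * aeval (pt a F) (pderiv m f)).coeff j := by
  have h := congrArg (fun p => Polynomial.coeff p j) (hat_sigS a m f)
  simp only [coeff_hat, Derivation.coeFn_coe] at h
  rw [h, ← map_sigS]
  rw [← Polynomial.coeff_map, Polynomial.map_mul, Polynomial.map_X]

lemma derF_coeff (v : Fin N → F) (f : MvPolynomial (Fin N) K) (j : ℕ) :
    derF K v ((aeval (pt a F) f).coeff j) =
      (Polynomial.X * ∑ m, Polynomial.C (v m) * aeval (pt a F) (pderiv m f)).coeff j := by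
  rw [coeff_pt, derF_algebraMap, Finset.mul_sum, Polynomial.finsetSum_coeff]
  refine Finset.sum_congr rfl fun m _ => ?_
  rw [grad_coeff, show (Polynomial.X : Polynomial F) * (Polynomial.C (v m) * aeval (pt a F) (pderiv m f)) =
    Polynomial.C (v m) * (Polynomial.X * aeval (pt a F) (pderiv m f)) by ring, Polynomial.coeff_C_mul]

lemma pt_injective : Function.Injective (aeval (pt a F) : MvPolynomial (Fin N) K →ₐ[K] _) := by
  intro f g hfg
  have h : ∀ f : MvPolynomial (Fin N) K, (aeval (pt a F) f).eval 1 =
      algebraMap (MvPolynomial (Fin N) K) F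
        (aeval (fun i : Fin N => (X i + C (a i) : MvPolynomial (Fin N) K)) f) := by
    intro f
    induction f using MvPolynomial.induction_on with
    | C c =>
      rw [aeval_C, aeval_C, Polynomial.algebraMap_apply, Polynomial.eval_C,
        IsScalarTower.algebraMap_apply K (MvPolynomial (Fin N) K) F]
    | add f g hf hg => rw [map_add, Polynomial.eval_add, hf, hg, map_add, map_add]
    | mul_X f i hf =>
      rw [map_mul, Polynomial.eval_mul, hf, map_mul, map_mul, aeval_X, aeval_X, pt]
      simp only [Polynomial.eval_add, Polynomial.eval_mul, Polynomial.eval_C, Polynomial.eval_X,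
        mul_one, map_add]
      rw [IsScalarTower.algebraMap_apply K (MvPolynomial (Fin N) K) F, MvPolynomial.algebraMap_eq]
  have h1 := h f
  rw [hfg, h g] at h1
  exact (translate_injective a (IsFractionRing.injective _ F h1)).symm

/-- generic matrix of the form -/
noncomputable def matA (F : Type*) [Field F] [Algebra (MvPolynomial (Fin N) K) F]
    (l m : Fin N) : F := algebraMap (MvPolynomial (Fin N) K) F (d.Γ l m)

/-- matrix of the frozen form -/
noncomputable def matB (F : Type*) [Field F] [Algebra K F] (l m : Fin N) : F :=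
  algebraMap K F (∑ p, d.g l m p * a p)

lemma matA_anti (i j : Fin N) : d.matA F i j = - d.matA F j i := by
  rw [matA, d.Γ_anti, map_neg]; rfl

lemma matB_anti (i j : Fin N) : d.matB a F i j = - d.matB a F j i := by
  rw [matB, matB, ← map_neg, ← Finset.sum_neg_distrib]
  congr 1
  exact Finset.sum_congr rfl fun p _ => by rw [d.anti i j p]; ring

lemma pen_eq (l m : Fin N) : pen (d.matA F) (d.matB a F) l m = aeval (pt a F) (d.Γ l m) := by
  rw [pen, matA, matB, Γ, map_sum, map_sum, map_sum, map_sum, map_sum, Finset.sum_mul,
    ← Finset.sum_add_distrib]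
  refine Finset.sum_congr rfl fun p _ => ?_
  rw [map_mul, map_mul, map_mul, map_mul, map_mul, aeval_X, aeval_C, pt,
    Polynomial.algebraMap_apply, IsScalarTower.algebraMap_apply K (MvPolynomial (Fin N) K) F,
    MvPolynomial.algebraMap_eq, IsScalarTower.algebraMap_apply K (MvPolynomial (Fin N) K) F,
    MvPolynomial.algebraMap_eq]
  ring

end Pool.Agent.H865_nil.NData
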