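import Pool.Agent.H865_nil.Alg

/-!
An invariant polynomial `Q ≠ 0` such that `Q` times the projection onto the span of the rows
`(D_l c)_l`, `c` in a stable subalgebra `B`, is defined over `B`.
-/

open MvPolynomial

set_option linter.unusedSectionVars false

namespace Pool.Agent.H865_nil.NData

variable {K : Type*} [Field K] {N : ℕ} (d : NData K N)

/-- the row `(D_u c)_u` -/
noncomputable def row (c : MvPolynomial (Fin N) K) : Fin N → MvPolynomial (Fin N) K :=
  fun u => d.D u c

/-- the module of rows -/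
noncomputable def R (B : Subalgebra K (MvPolynomial (Fin N) K)) :
    Submodule B (Fin N → MvPolynomial (Fin N) K) :=
  Submodule.span B (d.row '' (B : Set (MvPolynomial (Fin N) K)))

/-- action of `X_v` on rows -/
noncomputable def act (v : Fin N) (r : Fin N → MvPolynomial (Fin N) K) :
    Fin N → MvPolynomial (Fin N) K :=
  fun u => d.D v (r u) - ∑ p, C (d.g v u p) * r p

lemma act_row (v : Fin N) (c : MvPolynomial (Fin N) K) :
    d.act v (d.row c) = d.row (d.D v c) := by
  funext u
  simp only [act, row]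
  rw [← D_comm]; ring

lemma act_add (v : Fin N) (r s : Fin N → MvPolynomial (Fin N) K) :
    d.act v (r + s) = d.act v r + d.act v s := by
  funext u
  simp only [act, Pi.add_apply, map_add, mul_add, Finset.sum_add_distrib]
  ring

lemma act_smul (v : Fin N) (b : MvPolynomial (Fin N) K) (r : Fin N → MvPolynomial (Fin N) K) :
    d.act v (fun u => b * r u) = fun u => d.D v b * r u + b * d.act v r u := by
  funext u
  simp only [act, Derivation.leibniz, smul_eq_mul, mul_sub, Finset.mul_sum]
  have : ∑ p, C (d.g v u p) * (b * r p) = ∑ p, b * (C (d.g v u p) * r p) :=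
    Finset.sum_congr rfl fun p _ => by ring
  rw [this]; ring

variable {d} in
lemma act_mem {B : Subalgebra K (MvPolynomial (Fin N) K)} (hB : d.SC B) (v : Fin N)
    {r : Fin N → MvPolynomial (Fin N) K} (hr : r ∈ d.R B) : d.act v r ∈ d.R B := by
  induction hr using Submodule.span_induction with
  | mem x hx =>
    obtain ⟨c, hc, rfl⟩ := hx
    rw [act_row]
    exact Submodule.subset_span ⟨_, hB.stab v c hc, rfl⟩
  | zero =>
    have : d.act v 0 = 0 := by funext u; simp [act]
    rw [this]; exact Submodule.zero_mem _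
  | add x y _ _ h1 h2 => rw [act_add]; exact Submodule.add_mem _ h1 h2
  | smul b x hx h =>
    have e : d.act v (b • x) = (⟨d.D v b, hB.stab v b b.2⟩ : B) • x + b • d.act v x := by
      have := d.act_smul v (b : MvPolynomial (Fin N) K) x
      funext u
      have h2 := congrFun this u
      exact h2
    rw [e]
    exact Submodule.add_mem _ (Submodule.smul_mem _ _ hx) (Submodule.smul_mem _ _ h)

/-- `q` is an admissible denominator -/
def Adm (B : Subalgebra K (MvPolynomial (Fin N) K)) (q : MvPolynomial (Fin N) K) : Prop :=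
  ∃ Ψ : Fin N → Fin N → MvPolynomial (Fin N) K, (∀ l, Ψ l ∈ d.R B) ∧
    ∀ c ∈ B, ∀ u, q * d.D u c = ∑ l, d.D l c * Ψ l u

/-- the space of admissible denominators -/
noncomputable def admSub (B : Subalgebra K (MvPolynomial (Fin N) K)) :
    Submodule K (MvPolynomial (Fin N) K) where
  carrier := {q | q ∈ B ∧ d.Adm B q}
  zero_mem' := ⟨B.zero_mem, fun _ => 0, fun _ => Submodule.zero_mem _, fun c _ u => by simp⟩
  add_mem' := by
    rintro q q' ⟨hq, Ψ, h1, h2⟩ ⟨hq', Ψ', h1', h2'⟩
    refine ⟨B.add_mem hq hq', fun l => Ψ l + Ψ' l, fun l => Submodule.add_mem _ (h1 l) (h1' l), ?_⟩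
    intro c hc u
    rw [add_mul, h2 c hc u, h2' c hc u, ← Finset.sum_add_distrib]
    refine Finset.sum_congr rfl fun l _ => ?_
    show d.D l c * Ψ l u + d.D l c * Ψ' l u = d.D l c * (Ψ l u + Ψ' l u)
    ring
  smul_mem' := by
    rintro t q ⟨hq, Ψ, h1, h2⟩
    refine ⟨B.smul_mem hq t, fun l => (⟨algebraMap K _ t, B.algebraMap_mem t⟩ : B) • Ψ l,
      fun l => Submodule.smul_mem _ _ (h1 l), ?_⟩
    intro c hc u
    rw [Algebra.smul_def, mul_assoc, h2 c hc u, Finset.mul_sum]
    refine Finset.sum_congr rfl fun l _ => ?_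
    show algebraMap K (MvPolynomial (Fin N) K) t * (d.D l c * Ψ l u) =
      d.D l c * (algebraMap K (MvPolynomial (Fin N) K) t * Ψ l u)
    ring

variable {d} in
lemma admSub_stab {B : Subalgebra K (MvPolynomial (Fin N) K)} (hB : d.SC B) (v : Fin N)
    {q : MvPolynomial (Fin N) K} (hq : q ∈ d.admSub B) : d.D v q ∈ d.admSub B := by
  obtain ⟨hqB, Ψ, h1, h2⟩ := hq
  refine ⟨hB.stab v q hqB, fun l => d.act v (Ψ l) + ∑ p,
    (⟨algebraMap K _ (d.g v p l), B.algebraMap_mem _⟩ : B) • Ψ p, fun l => ?_, ?_⟩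
  · exact Submodule.add_mem _ (act_mem hB v (h1 l))
      (Submodule.sum_mem _ fun p _ => Submodule.smul_mem _ _ (h1 p))
  · intro c hc u
    have e1 := congrArg (d.D v) (h2 c hc u)
    rw [Derivation.leibniz, map_sum] at e1
    simp only [Derivation.leibniz, smul_eq_mul] at e1
    have e2 := h2 _ (hB.stab v c hc) u
    have e3 : d.D v (d.D u c) = d.D u (d.D v c) + ∑ p, C (d.g v u p) * d.D p c := by
      rw [← D_comm]; ring
    have e4 : q * ∑ p, C (d.g v u p) * d.D p c =
        ∑ l, d.D l c * ∑ p, C (d.g v u p) * Ψ l p := by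
      rw [Finset.mul_sum]
      simp only [Finset.mul_sum]
      rw [Finset.sum_comm]
      refine Finset.sum_congr rfl fun p _ => ?_
      rw [show q * (C (d.g v u p) * d.D p c) = C (d.g v u p) * (q * d.D p c) by ring,
        h2 c hc p, Finset.mul_sum]
      exact Finset.sum_congr rfl fun l _ => by ring
    have e5 : ∑ l, Ψ l u * d.D v (d.D l c) = ∑ l, d.D l (d.D v c) * Ψ l u +
        ∑ l, d.D l c * ∑ p, C (d.g v p l) * Ψ p u := by
      have : ∀ l, Ψ l u * d.D v (d.D l c) = d.D l (d.D v c) * Ψ l u +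
          ∑ p, Ψ l u * (C (d.g v l p) * d.D p c) := by
        intro l
        rw [← Finset.mul_sum, ← D_comm]; ring
      rw [Finset.sum_congr rfl fun l _ => this l, Finset.sum_add_distrib]
      congr 1
      rw [Finset.sum_comm]
      refine Finset.sum_congr rfl fun p _ => ?_
      rw [Finset.mul_sum]
      exact Finset.sum_congr rfl fun l _ => by ring
    have e6 : ∀ l, (d.act v (Ψ l) + ∑ p,
        (⟨algebraMap K _ (d.g v p l), B.algebraMap_mem _⟩ : B) • Ψ p) u =
        d.D v (Ψ l u) - ∑ p, C (d.g v u p) * Ψ l p + ∑ p, C (d.g v p l) * Ψ p u := by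
      intro l
      rw [Pi.add_apply, Finset.sum_apply]
      rfl
    have e7 : ∑ l, d.D l c * (d.act v (Ψ l) + ∑ p,
        (⟨algebraMap K _ (d.g v p l), B.algebraMap_mem _⟩ : B) • Ψ p) u =
        ∑ l, (d.D l c * d.D v (Ψ l u) - d.D l c * ∑ p, C (d.g v u p) * Ψ l p +
          d.D l c * ∑ p, C (d.g v p l) * Ψ p u) := by
      refine Finset.sum_congr rfl fun l _ => ?_
      rw [e6 l]; ring
    refine Eq.trans ?_ e7.symm
    rw [Finset.sum_add_distrib, Finset.sum_sub_distrib]
    rw [Finset.sum_add_distrib, e5, e3, mul_add, e2, e4] at e1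
    linear_combination e1

lemma proj_aux {F : Type*} [Field F] (V : Submodule F (Fin N → F)) (π : (Fin N → F) →ₗ[F] V)
    (x : Fin N → F) (hx : (π x : Fin N → F) = x) (u : Fin N) :
    ∑ l, x l * (π (Pi.single l 1)).1 u = x u := by
  classical
  have h3 : x = ∑ l, x l • (Pi.single l 1 : Fin N → F) := by
    funext u
    simp [Finset.sum_apply, Pi.single_apply]
  have h5 := congrFun hx u
  rw [← h5]
  conv_rhs => rw [h3, map_sum]
  rw [Submodule.coe_sum, Finset.sum_apply]
  refine Finset.sum_congr rfl fun l _ => ?_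
  rw [map_smul]; rfl

variable {d} in
/-- there is a nonzero admissible denominator -/
lemma admSub_ne_bot {B : Subalgebra K (MvPolynomial (Fin N) K)} (hB : d.SC B) :
    ∃ q ∈ d.admSub B, q ≠ 0 := by
  classical
  let F := FractionRing B
  let e : B → (Fin N → F) := fun c u => algebraMap B F ⟨d.D u c, hB.stab u c c.2⟩
  let V : Submodule F (Fin N → F) := Submodule.span F (Set.range e)
  let R' : Submodule B (Fin N → B) :=
    Submodule.span B (Set.range fun c : B => fun u => (⟨d.D u c, hB.stab u c c.2⟩ : B))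
  have hinj : Function.Injective (algebraMap B F) := IsFractionRing.injective B F
  -- denominators
  have key : ∀ x ∈ V, ∃ q : B, q ≠ 0 ∧ ∃ r ∈ R', ∀ u, algebraMap B F (r u) =
      algebraMap B F q * x u := by
    intro x hx
    induction hx using Submodule.span_induction with
    | mem x hx =>
      obtain ⟨c, rfl⟩ := hx
      exact ⟨1, one_ne_zero, _, Submodule.subset_span ⟨c, rfl⟩, fun u => by
        rw [map_one, one_mul]⟩
    | zero => exact ⟨1, one_ne_zero, 0, Submodule.zero_mem _, fun u => by simp⟩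
    | add x y _ _ h1 h2 =>
      obtain ⟨q, hq, r, hr, h1⟩ := h1
      obtain ⟨q', hq', r', hr', h2⟩ := h2
      refine ⟨q * q', mul_ne_zero hq hq', q' • r + q • r',
        Submodule.add_mem _ (Submodule.smul_mem _ _ hr) (Submodule.smul_mem _ _ hr'), ?_⟩
      intro u
      simp only [Pi.add_apply, Pi.smul_apply, smul_eq_mul, map_add, map_mul, h1, h2]
      ring
    | smul a x _ h =>
      obtain ⟨q, hq, r, hr, h⟩ := h
      obtain ⟨n, m, hm, rfl⟩ := IsFractionRing.div_surjective (A := B) a
      have hm0 : m ≠ 0 := nonZeroDivisors.ne_zero hm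
      have hm1 : algebraMap B F m ≠ 0 := by
        rw [Ne, map_eq_zero_iff _ hinj]; exact hm0
      refine ⟨m * q, mul_ne_zero hm0 hq, n • r, Submodule.smul_mem _ _ hr, ?_⟩
      intro u
      have h8 : algebraMap B F m * (algebraMap B F n / algebraMap B F m) = algebraMap B F n :=
        mul_div_cancel₀ _ hm1
      have h9 : (n • r) u = n * r u := rfl
      have h10 : ((algebraMap B F n / algebraMap B F m) • x) u =
        (algebraMap B F n / algebraMap B F m) * x u := rfl
      rw [h9, h10, map_mul, map_mul, h]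
      linear_combination (-(algebraMap B F q * x u)) * h8
  obtain ⟨π, hπ⟩ := V.subtype.exists_leftInverse_of_injective V.ker_subtype
  have hproj : ∀ x ∈ V, ((π x : V) : Fin N → F) = x := by
    intro x hx
    have := congrArg (fun f => ((f ⟨x, hx⟩ : V) : Fin N → F)) hπ
    exact this
  choose q hq r hr hqr using fun l : Fin N => key (π (Pi.single l 1) : V) (π (Pi.single l 1)).2
  have hR : ∀ r ∈ R', (fun u => (r u : MvPolynomial (Fin N) K)) ∈ d.R B := by
    intro r hr
    induction hr using Submodule.span_induction with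
    | mem x hx =>
      obtain ⟨c, rfl⟩ := hx
      exact Submodule.subset_span ⟨c, c.2, rfl⟩
    | zero => exact Submodule.zero_mem (d.R B)
    | add x y _ _ h1 h2 => exact Submodule.add_mem _ h1 h2
    | smul a x _ h => exact Submodule.smul_mem _ a h
  refine ⟨((∏ l, q l : B) : MvPolynomial (Fin N) K), ⟨(∏ l, q l : B).2, fun l u =>
    (((∏ i ∈ Finset.univ.erase l, q i) * r l u : B) : MvPolynomial (Fin N) K), ?_, ?_⟩, ?_⟩
  · intro l
    exact hR ((∏ i ∈ Finset.univ.erase l, q i) • r l) (Submodule.smul_mem _ _ (hr l))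
  · intro c hc u
    have h1 : (∏ l, q l) * (⟨d.D u c, hB.stab u c hc⟩ : B) =
        ∑ l, (⟨d.D l c, hB.stab l c hc⟩ : B) * ((∏ i ∈ Finset.univ.erase l, q i) * r l u) := by
      apply hinj
      rw [map_sum, map_mul]
      have h2 : ∀ l, algebraMap B F ((⟨d.D l c, hB.stab l c hc⟩ : B) *
          ((∏ i ∈ Finset.univ.erase l, q i) * r l u)) =
          algebraMap B F (∏ l, q l) * (e ⟨c, hc⟩ l * (π (Pi.single l 1) : V).1 u) := by
        intro l
        rw [map_mul, map_mul, hqr l u, ← Finset.mul_prod_erase Finset.univ q (Finset.mem_univ l),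
          map_mul]
        ring
      rw [Finset.sum_congr rfl fun l _ => h2 l, ← Finset.mul_sum]
      congr 1
      exact (proj_aux V π (e ⟨c, hc⟩) (hproj _ (Submodule.subset_span ⟨_, rfl⟩)) u).symm
    have := congrArg (Subtype.val : B → MvPolynomial (Fin N) K) h1
    simpa using this
  · intro h0
    have : (∏ l, q l : B) = 0 := Subtype.ext h0
    rw [Finset.prod_eq_zero_iff] at this
    obtain ⟨l, _, hl⟩ := this
    exact hq l hl

variable {d} in
/-- there is a nonzero invariant admissible denominator -/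
theorem exists_adm {B : Subalgebra K (MvPolynomial (Fin N) K)} (hB : d.SC B) :
    ∃ Q : MvPolynomial (Fin N) K, Q ≠ 0 ∧ (∀ i, d.D i Q = 0) ∧ Q ∈ B ∧ d.Adm B Q := by
  obtain ⟨q, hq, hq0⟩ := admSub_ne_bot hB
  obtain ⟨Q, h1, h2, h3⟩ := d.engel ⊥ (d.admSub B)
    (fun i f hf => by rw [Submodule.mem_bot] at hf ⊢; rw [hf, map_zero])
    (fun i f hf => admSub_stab hB i hf) hq (by rwa [Submodule.mem_bot])
  rw [Submodule.mem_bot] at h2
  exact ⟨Q, h2, fun i => (Submodule.mem_bot _).1 (h3 i), h1.1, h1.2⟩

end Pool.Agent.H865_nil.NData
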