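import Mathlib

/-!
An infinitesimal form of Rosenlicht's theorem for chains of locally nilpotent derivations.
-/

namespace Pool.Agent.H865_nil

variable {k A F : Type*} [Field k] [CommRing A] [Algebra k A] [Field F] [Algebra k F]

/-- A linear map which is a derivation along an algebra map. -/
def IsDer (ev : A →ₐ[k] F) (ν : A →ₗ[k] F) : Prop :=
  ∀ f g, ν (f * g) = ev f * ν g + ev g * ν f

lemma IsDer.sub_sum {s : ℕ} {ev : A →ₐ[k] F} {ν : A →ₗ[k] F} (h : IsDer ev ν)
    (δ : Fin s → Derivation k A A) (b : Fin s → F) (f g : A) :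
    ν (f * g) - ∑ i, b i * ev (δ i (f * g)) =
      ev f * (ν g - ∑ i, b i * ev (δ i g)) + ev g * (ν f - ∑ i, b i * ev (δ i f)) := by
  have h1 : ∑ i, b i * ev (δ i (f * g)) =
      ev f * ∑ i, b i * ev (δ i g) + ev g * ∑ i, b i * ev (δ i f) := by
    rw [Finset.mul_sum, Finset.mul_sum, ← Finset.sum_add_distrib]
    refine Finset.sum_congr rfl fun i _ => ?_
    rw [Derivation.leibniz, map_add, smul_eq_mul, smul_eq_mul, map_mul, map_mul]
    ring
  rw [h f g, h1]; ring

/-- Single step: a derivation along `ev` vanishing on the constants of `D` is a multiple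
of `ev ∘ D`. -/
lemma slice_step [CharZero F] (ev : A →ₐ[k] F) (D : Derivation k A A) (S : A → Prop)
    (hSmul : ∀ f g, S f → S g → S (f * g)) (hSsub : ∀ f g, S f → S g → S (f - g))
    (hSD : ∀ f, S f → S (D f))
    (hker : ∀ f, S f → ev f = 0 → ev (D f) = 0)
    (hnil : ∀ f, S f → ∃ n, D^[n] f = 0)
    (μ : A → F) (hμadd : ∀ f g, μ (f - g) = μ f - μ g)
    (hμnsmul : ∀ (n : ℕ) f, μ (n • f) = n • μ f)
    (hμ : ∀ f g, S f → S g → μ (f * g) = ev f * μ g + ev g * μ f)
    (hμker : ∀ f, S f → ev f = 0 → μ f = 0)
    (hμinv : ∀ f, S f → ev (D f) = 0 → μ f = 0) :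
    ∃ β : F, ∀ f, S f → μ f = β * ev (D f) := by
  classical
  by_cases hall : ∀ f, S f → ev (D f) = 0
  · exact ⟨0, fun f hf => by rw [hμinv f hf (hall f hf), zero_mul]⟩
  push Not at hall
  obtain ⟨f₀, hf₀, hne₀⟩ := hall
  have hSit : ∀ n f, S f → S (D^[n] f) := by
    intro n
    induction n with
    | zero => intro f hf; exact hf
    | succ n ih => intro f hf; rw [Function.iterate_succ_apply]; exact ih _ (hSD f hf)
  have hkerit : ∀ n f, S f → ev f = 0 → ev (D^[n] f) = 0 := by
    intro n
    induction n with
    | zero => intro f _ h; exact h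
    | succ n ih =>
      intro f hf h; rw [Function.iterate_succ_apply]; exact ih _ (hSD f hf) (hker f hf h)
  -- local slice
  obtain ⟨s, hs, hs1, hs2⟩ : ∃ s, S s ∧ ev (D s) ≠ 0 ∧ ev (D (D s)) = 0 := by
    have hex : ∃ n, ev (D^[n + 2] f₀) = 0 := by
      obtain ⟨n, hn⟩ := hnil f₀ hf₀
      refine ⟨n, ?_⟩
      rw [Function.iterate_add_apply, Function.Commute.iterate_iterate_self D n 2 f₀]
      have : D^[n] f₀ = 0 := hn
      rw [this]
      simp
    refine ⟨D^[Nat.find hex] f₀, hSit _ _ hf₀, ?_, ?_⟩
    · rw [← Function.iterate_succ_apply' D]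
      rcases Nat.eq_zero_or_pos (Nat.find hex) with h0 | hpos
      · rw [h0]; simpa using hne₀
      · have := Nat.find_min hex (Nat.sub_lt hpos one_pos)
        have e : Nat.find hex - 1 + 2 = Nat.find hex + 1 := by omega
        rw [e] at this
        exact this
    · rw [← Function.iterate_succ_apply' D, ← Function.iterate_succ_apply' D]
      exact Nat.find_spec hex
  set t := D s with ht
  have hSt : S t := hSD s hs
  have claimA : ∀ n h, S h → ev (D^[n] (t * h)) = ev t * ev (D^[n] h) := by
    intro n
    induction n with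
    | zero => intro h _; simp
    | succ n ih =>
      intro h hh
      rw [Function.iterate_succ_apply, Function.iterate_succ_apply, Derivation.leibniz]
      simp only [smul_eq_mul]
      have e1 : D^[n] (t * D h + h * D t) = D^[n] (t * D h) + D^[n] (h * D t) := by
        exact iterate_map_add D n _ _
      rw [e1, map_add, ih _ (hSD h hh)]
      have e2 : ev (D^[n] (h * D t)) = 0 := by
        apply hkerit
        · exact hSmul _ _ hh (hSD _ hSt)
        · rw [map_mul, hs2, mul_zero]
      rw [e2, add_zero]
  have claimB : ∀ n h, S h → ev (D^[n + 1] (s * h)) =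
      ev s * ev (D^[n + 1] h) + (n + 1 : ℕ) * (ev t * ev (D^[n] h)) := by
    intro n
    induction n with
    | zero =>
      intro h hh
      rw [Function.iterate_succ_apply, Function.iterate_succ_apply, Derivation.leibniz]
      simp only [smul_eq_mul, Function.iterate_zero, id_eq, map_add, map_mul, zero_add,
        Nat.cast_one, one_mul]
      ring
    | succ n ih =>
      intro h hh
      rw [Function.iterate_succ_apply, Derivation.leibniz]
      simp only [smul_eq_mul]
      rw [iterate_map_add D (n + 1), map_add, ih _ (hSD h hh)]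
      have e : D^[n + 1] (h * D s) = D^[n + 1] (t * h) := by rw [mul_comm]
      rw [e, claimA _ _ hh, ← Function.iterate_succ_apply, ← Function.iterate_succ_apply]
      push_cast
      ring
  refine ⟨μ s / ev t, ?_⟩
  set β := μ s / ev t with hβ
  -- μ'' = μ - β ev D
  have key : ∀ n f, S f → ev (D^[n] f) = 0 → μ f - β * ev (D f) = 0 := by
    intro n
    induction n using Nat.strong_induction_on with
    | _ n ih =>
      intro f hf hn
      match n, ih, hn with
      | 0, _, hn =>
        have hn' : ev f = 0 := hn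
        rw [hμker f hf hn', hker f hf hn']; ring
      | 1, _, hn =>
        have hn' : ev (D f) = 0 := hn
        rw [hμinv f hf hn', hn']; ring
      | (m + 2), ih, hn =>
        set g := (m + 1) • (t * f) - s * D f with hg
        have hSn : ∀ (j : ℕ) h, S h → S (j • h) := by
          intro j h hh
          induction j with
          | zero => rw [zero_smul]; simpa using hSsub h h hh hh
          | succ j ihj =>
            have h0 : S (0 : A) := by simpa using hSsub h h hh hh
            have e : (j + 1) • h = j • h - (0 - h) := by rw [succ_nsmul]; ring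
            rw [e]
            exact hSsub _ _ ihj (hSsub _ _ h0 hh)
        have hSg : S g := hSsub _ _ (hSn _ _ (hSmul _ _ hSt hf)) (hSmul _ _ hs (hSD f hf))
        have h1 : ev (D^[m + 1] g) = 0 := by
          rw [hg, iterate_map_sub D (m + 1), map_sub, claimB _ _ (hSD f hf)]
          have e1 : D^[m + 1] ((m + 1) • (t * f)) = (m + 1) • D^[m + 1] (t * f) :=
            iterate_map_nsmul D (m + 1) _ _
          rw [e1, map_nsmul, claimA _ _ hf, ← Function.iterate_succ_apply,
            ← Function.iterate_succ_apply]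
          have e2 : ev (D^[m + 1 + 1] f) = 0 := hn
          rw [e2, nsmul_eq_mul]
          ring
        have h2 := ih (m + 1) (by omega) g hSg h1
        have h3 := ih (m + 1) (by omega) (D f) (hSD f hf) (by
          rw [← Function.iterate_succ_apply]; exact hn)
        have h4 : μ t - β * ev (D t) = 0 := by rw [hμinv t hSt hs2, hs2]; ring
        have h5 : μ s - β * ev t = 0 := by
          rw [hβ]; field_simp; ring
        have h6 : μ g - β * ev (D g) = (m + 1 : ℕ) * (ev t * (μ f - β * ev (D f)) +
            ev f * (μ t - β * ev (D t))) - (ev s * (μ (D f) - β * ev (D (D f))) +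
            ev (D f) * (μ s - β * ev t)) := by
          rw [hg, hμadd, hμnsmul, hμ _ _ hSt hf, hμ _ _ hs (hSD f hf), map_sub, map_nsmul,
            Derivation.leibniz, Derivation.leibniz, map_sub, map_nsmul]
          simp only [smul_eq_mul, map_add, map_mul, nsmul_eq_mul, ← ht]
          ring
        rw [h2, h3, h4, h5] at h6
        have h7 : ((m + 1 : ℕ) : F) * (ev t * (μ f - β * ev (D f))) = 0 := by
          linear_combination -h6
        have h8 : ((m + 1 : ℕ) : F) ≠ 0 := Nat.cast_ne_zero.2 (Nat.succ_ne_zero m)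
        exact (mul_eq_zero.1 ((mul_eq_zero.1 h7).resolve_left h8)).resolve_left hs1
  intro f hf
  obtain ⟨n, hn⟩ := hnil f hf
  exact sub_eq_zero.1 (key n f hf (by rw [hn, map_zero]))

/-- The stable case. -/
theorem ros_stable [CharZero F] {s : ℕ} (ev : A →ₐ[k] F) (B : Subalgebra k A)
    (δ : Fin s → Derivation k A A) (hδB : ∀ i f, f ∈ B → δ i f ∈ B)
    (c : Fin s → Fin s → Fin s → k) (hc : ∀ i j l, c i j l ≠ 0 → l < i ∧ l < j)
    (hbr : ∀ i j f, δ i (δ j f) - δ j (δ i f) = ∑ l, c i j l • δ l f)
    (hnil : ∀ i f, f ∈ B → ∃ n, (δ i)^[n] f = 0)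
    (hst : ∀ i f, f ∈ B → ev f = 0 → ev (δ i f) = 0)
    (ν : A →ₗ[k] F) (hν : IsDer ev ν) (hν0 : ∀ f ∈ B, ev f = 0 → ν f = 0)
    (hinv : ∀ f ∈ B, (∀ i, ev (δ i f) = 0) → ν f = 0) :
    ∃ b : Fin s → F, ∀ f ∈ B, ν f = ∑ i, b i * ev (δ i f) := by
  classical
  have claim : ∀ m, m ≤ s → ∃ b : Fin s → F, ∀ f ∈ B,
      (∀ i : Fin s, (i : ℕ) < s - m → ev (δ i f) = 0) → ν f = ∑ i, b i * ev (δ i f) := by
    intro m
    induction m with
    | zero =>
      intro _
      refine ⟨0, fun f hf h => ?_⟩
      rw [hinv f hf (fun i => h i (by have := i.2; omega))]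
      simp
    | succ m ih =>
      intro hm
      obtain ⟨b, hb⟩ := ih (by omega)
      set i₀ : Fin s := ⟨s - (m + 1), by omega⟩ with hi₀
      set S : A → Prop := fun f => f ∈ B ∧ ∀ i : Fin s, (i : ℕ) < s - (m + 1) → ev (δ i f) = 0
        with hS
      obtain ⟨β, hβ⟩ := slice_step ev (δ i₀) S
        (by
          rintro f g ⟨hf, hf'⟩ ⟨hg, hg'⟩
          refine ⟨B.mul_mem hf hg, fun i hi => ?_⟩
          rw [Derivation.leibniz, map_add, smul_eq_mul, smul_eq_mul, map_mul, map_mul,
            hf' i hi, hg' i hi]; ring)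
        (by
          rintro f g ⟨hf, hf'⟩ ⟨hg, hg'⟩
          refine ⟨B.sub_mem hf hg, fun i hi => ?_⟩
          rw [map_sub, map_sub, hf' i hi, hg' i hi]; ring)
        (by
          rintro f ⟨hf, hf'⟩
          refine ⟨hδB _ _ hf, fun i hi => ?_⟩
          have h1 := congrArg ev (hbr i i₀ f)
          rw [map_sub, hst i₀ _ (hδB _ _ hf) (hf' i hi), sub_zero, map_sum] at h1
          rw [h1]
          refine Finset.sum_eq_zero fun l _ => ?_
          by_cases hcl : c i i₀ l = 0
          · rw [hcl, zero_smul, map_zero]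
          · have := (hc _ _ _ hcl).1
            rw [map_smul, hf' l (lt_trans this hi), smul_zero])
        (fun f hf h => hst _ _ hf.1 h)
        (fun f hf => hnil _ _ hf.1)
        (fun f => ν f - ∑ i, b i * ev (δ i f))
        (by
          intro f g
          simp only [map_sub, mul_sub, Finset.sum_sub_distrib]
          ring)
        (by
          intro n f
          simp only [map_nsmul, mul_smul_comm, ← Finset.smul_sum, smul_sub])
        (fun f g _ _ => hν.sub_sum δ b f g)
        (by
          rintro f ⟨hf, -⟩ h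
          simp only [hν0 f hf h, hst _ f hf h, mul_zero, Finset.sum_const_zero, sub_zero])
        (by
          rintro f ⟨hf, hf'⟩ h
          rw [sub_eq_zero]
          apply hb f hf
          intro i hi
          rcases Nat.lt_or_ge (i : ℕ) (s - (m + 1)) with h1 | h1
          · exact hf' i h1
          · have : i = i₀ := Fin.ext (by rw [hi₀]; simp only; omega)
            rw [this]; exact h)
      refine ⟨fun i => b i + if i = i₀ then β else 0, fun f hf h => ?_⟩
      have h1 := hβ f ⟨hf, h⟩
      have h2 : ∑ i, (b i + if i = i₀ then β else 0) * ev (δ i f) =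
          ∑ i, b i * ev (δ i f) + β * ev (δ i₀ f) := by
        simp only [add_mul, Finset.sum_add_distrib, ite_mul, zero_mul, Finset.sum_ite_eq',
          Finset.mem_univ, if_true]
      rw [h2]
      linear_combination h1
  obtain ⟨b, hb⟩ := claim s le_rfl
  exact ⟨b, fun f hf => hb f hf (fun i hi => by omega)⟩

end Pool.Agent.H865_nil
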