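import Pool.Agent.H865_nil.Hat
import Pool.Agent.H865_nil.Gen

/-!
The Weil restriction of the Lie-Poisson algebra along `k[λ]/q`, its loop derivations and
the subalgebra of residues.
-/

open MvPolynomial

set_option linter.unusedSectionVars false

namespace Pool.Agent.H865_nil.NData


lemma coeff_mod_congr {R : Type*} [CommRing R] {q p p' : Polynomial R} (hq : q.Monic)
    (h : q ∣ p - p') (n : ℕ) : (p %ₘ q).coeff n = (p' %ₘ q).coeff n := by
  rw [modByMonic_congr hq h]

lemma eq_sum_of_degree_lt {R : Type*} [CommRing R] (r : Polynomial R) (D : ℕ)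
    (h : r.degree < D) : r = ∑ i : Fin D, Polynomial.C (r.coeff i) * Polynomial.X ^ (i : ℕ) := by
  ext n
  rw [Polynomial.finsetSum_coeff]
  rcases Nat.lt_or_ge n D with hn | hn
  · rw [Finset.sum_eq_single (⟨n, hn⟩ : Fin D)]
    · rw [Polynomial.coeff_C_mul_X_pow, if_pos rfl]
    · intro j _ hj
      rw [Polynomial.coeff_C_mul_X_pow, if_neg (fun h => hj (Fin.ext h.symm))]
    · simp
  · rw [Finset.sum_eq_zero]
    · exact (Polynomial.degree_lt_iff_coeff_zero _ _).1 h n hn
    · intro j _
      rw [Polynomial.coeff_C_mul_X_pow, if_neg (by omega)]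

section weil

variable {K : Type*} [Field K] {N : ℕ}
variable {k : Type*} [Field k] [Algebra K k] (q : Polynomial k)

variable (N) in
/-- coordinates of the Weil restriction -/
abbrev MM : Type _ := MvPolynomial (Fin N × Fin q.natDegree) k

/-- the generic point modulo `q` -/
noncomputable def YY (m : Fin N) : Polynomial (MM N q) :=
  ∑ j : Fin q.natDegree, Polynomial.C (X (m, j)) * Polynomial.X ^ (j : ℕ)

lemma coeff_YY_lt (m : Fin N) (n : Fin q.natDegree) :
    (YY q m : Polynomial (MM N q)).coeff n = X (m, n) := by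
  classical
  rw [YY, Polynomial.finsetSum_coeff, Finset.sum_eq_single n]
  · rw [Polynomial.coeff_C_mul_X_pow, if_pos rfl]
  · intro j _ hj
    rw [Polynomial.coeff_C_mul_X_pow, if_neg (fun h => hj (Fin.ext h.symm))]
  · simp

lemma coeff_YY_ge (m : Fin N) {n : ℕ} (h : q.natDegree ≤ n) :
    (YY q m : Polynomial (MM N q)).coeff n = 0 := by
  rw [YY, Polynomial.finsetSum_coeff]
  refine Finset.sum_eq_zero fun j _ => ?_
  rw [Polynomial.coeff_C_mul_X_pow, if_neg (by omega)]

/-- evaluation at the generic point -/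
noncomputable def phi : MvPolynomial (Fin N) K →ₐ[K] Polynomial (MM N q) := aeval (YY q)

lemma phi_X (m : Fin N) : phi (K := K) q (X m) = YY q m := by rw [phi, aeval_X]

variable (N) in
/-- the modulus over the Weil restriction -/
noncomputable def qM : Polynomial (MM N q) := q.map (algebraMap k (MM N q))

/-- the functions `coeff_h (λ^j f(Y) mod q)` -/
noncomputable def ZZ (h : ℕ) (f : MvPolynomial (Fin N) K) (j : ℕ) : MM N q :=
  ((Polynomial.X ^ j * phi q f) %ₘ qM N q).coeff h

lemma ZZ_add (h : ℕ) (f g : MvPolynomial (Fin N) K) (j : ℕ) :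
    ZZ q h (f + g) j = ZZ q h f j + ZZ q h g j := by
  rw [ZZ, map_add, mul_add, Polynomial.add_modByMonic, Polynomial.coeff_add]; rfl

lemma ZZ_zero (h : ℕ) (j : ℕ) : ZZ q h (0 : MvPolynomial (Fin N) K) j = 0 := by
  rw [ZZ, map_zero, mul_zero, Polynomial.zero_modByMonic, Polynomial.coeff_zero]

lemma ZZ_sum {J : Type*} (s : Finset J) (h : ℕ) (f : J → MvPolynomial (Fin N) K) (j : ℕ) :
    ZZ q h (∑ i ∈ s, f i) j = ∑ i ∈ s, ZZ q h (f i) j := by
  classical
  induction s using Finset.induction_on with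
  | empty => simp [ZZ_zero]
  | insert a s ha ih => rw [Finset.sum_insert ha, Finset.sum_insert ha, ZZ_add, ih]

lemma phi_C (c : K) : phi (N := N) q (C c) =
    (Polynomial.C (algebraMap K k c)).map (algebraMap k (MM N q)) := by
  rw [Polynomial.map_C, phi, aeval_C, Polynomial.algebraMap_apply]
  congr 1

lemma ZZ_C_mul (h : ℕ) (c : K) (f : MvPolynomial (Fin N) K) (j : ℕ) :
    ZZ q h (C c * f) j = algebraMap K k c • ZZ q h f j := by
  rw [ZZ, map_mul, phi_C, Polynomial.map_C]
  rw [show Polynomial.X ^ j * (Polynomial.C (algebraMap k (MM N q) (algebraMap K k c)) * phi q f) =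
    (algebraMap k (MM N q) (algebraMap K k c)) • (Polynomial.X ^ j * phi q f) by
    rw [Polynomial.smul_eq_C_mul]; ring]
  rw [Polynomial.smul_modByMonic, Polynomial.coeff_smul, smul_eq_mul, Algebra.smul_def, ZZ]

lemma ZZ_sub (h : ℕ) (f g : MvPolynomial (Fin N) K) (j : ℕ) :
    ZZ q h (f - g) j = ZZ q h f j - ZZ q h g j := by
  rw [ZZ, map_sub, mul_sub, Polynomial.sub_modByMonic, Polynomial.coeff_sub]; rfl

variable {F : Type*} [CommRing F] [Algebra k F]

/-- chain rule -/
lemma hat_phi {ev : MM N q →ₐ[k] F} {ν : MM N q →ₗ[k] F} (hν : IsDer' ev ν)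
    (f : MvPolynomial (Fin N) K) :
    hat ν (phi q f) = ∑ m, (phi q (pderiv m f)).map (ev : MM N q →+* F) * hat ν (YY q m) := by
  classical
  induction f using MvPolynomial.induction_on with
  | C c =>
    rw [phi_C, hat_const hν]
    simp
  | add f g hf hg =>
    rw [map_add, hat_add, hf, hg, ← Finset.sum_add_distrib]
    refine Finset.sum_congr rfl fun m _ => ?_
    rw [map_add, map_add, Polynomial.map_add]; ring
  | mul_X f i hf =>
    rw [map_mul, hat_mul hν, hf, phi_X, Finset.mul_sum]
    have h1 : ∀ m, (phi q (pderiv m (f * X i))).map (ev : MM N q →+* F) * hat ν (YY q m) =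
        (if i = m then (phi q f).map (ev : MM N q →+* F) * hat ν (YY q m) else 0) +
        (YY q i).map (ev : MM N q →+* F) *
          ((phi q (pderiv m f)).map (ev : MM N q →+* F) * hat ν (YY q m)) := by
      intro m
      rw [Derivation.leibniz, smul_eq_mul, smul_eq_mul, map_add, map_mul, map_mul, phi_X,
        pderiv_X, Polynomial.map_add, Polynomial.map_mul, Polynomial.map_mul]
      by_cases h : i = m
      · subst h; simp; ring
      · rw [if_neg h, Pi.single_apply, if_neg h, map_zero, Polynomial.map_zero]; ring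
    rw [Finset.sum_congr rfl fun m _ => h1 m, Finset.sum_add_distrib]
    simp

variable [Nontrivial F] {q} (hq : q.Monic)

include hq in
lemma nu_ZZ {ev : MM N q →ₐ[k] F} {ν : MM N q →ₗ[k] F} (hν : IsDer' ev ν) (h j : ℕ)
    (f : MvPolynomial (Fin N) K) :
    ν (ZZ q h f j) = ((Polynomial.X ^ j * ∑ m, (phi q (pderiv m f)).map (ev : MM N q →+* F) *
      hat ν (YY q m)) %ₘ q.map (algebraMap k F)).coeff h := by
  rw [ZZ, ← coeff_hat, qM, hat_modByMonic hν hq, hat_mul hν, hat_X_pow hν, mul_zero, add_zero,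
    hat_phi q hν, Polynomial.map_pow, Polynomial.map_X]

lemma qM_monic (hq : q.Monic) : (qM N q).Monic := hq.map _

lemma natDegree_qM (hq : q.Monic) : (qM N q).natDegree = q.natDegree := hq.natDegree_map _

end weil

section delta

variable {K : Type*} [Field K] {N : ℕ} (d : NData K N)
variable {k : Type*} [Field k] [Algebra K k] (q : Polynomial k)

/-- loop derivations -/
noncomputable def delta (l : Fin N) (i : ℕ) : Derivation k (MM N q) (MM N q) :=
  mkDerivation k fun mh => ZZ q mh.2 (d.Γ l mh.1) (i + 1)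

lemma delta_X (l : Fin N) (i : ℕ) (m : Fin N) (h : Fin q.natDegree) :
    d.delta q l i (X (m, h)) = ZZ q h (d.Γ l m) (i + 1) := by
  rw [delta, mkDerivation_X]

lemma delta_isDer (l : Fin N) (i : ℕ) :
    IsDer' (AlgHom.id k (MM N q)) (d.delta q l i : MM N q →ₗ[k] MM N q) := by
  intro f g
  simp only [Derivation.coeFn_coe, Derivation.leibniz, smul_eq_mul, AlgHom.id_apply]

variable {q} (hq : q.Monic)

include hq in
lemma hat_delta_YY (l : Fin N) (i : ℕ) (m : Fin N) :
    hat (d.delta q l i : MM N q →ₗ[k] MM N q) (YY q m) =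
      (Polynomial.X ^ (i + 1) * phi q (d.Γ l m)) %ₘ qM N q := by
  ext1 n
  rw [coeff_hat]
  rcases Nat.lt_or_ge n q.natDegree with h | h
  · have e : (YY q m : Polynomial (MM N q)).coeff n = X (m, ⟨n, h⟩) := coeff_YY_lt q m ⟨n, h⟩
    rw [e, Derivation.coeFn_coe, delta_X, ZZ]
  · rw [coeff_YY_ge q m h, map_zero, Polynomial.coeff_eq_zero_of_degree_lt]
    refine lt_of_lt_of_le (Polynomial.degree_modByMonic_lt _ (qM_monic hq)) ?_
    rw [Polynomial.degree_eq_natDegree (qM_monic hq).ne_zero, natDegree_qM hq]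
    exact_mod_cast h

include hq in
lemma delta_ZZ (l : Fin N) (i : ℕ) (h j : ℕ) (f : MvPolynomial (Fin N) K) :
    d.delta q l i (ZZ q h f j) = ZZ q h (d.D l f) (j + i + 1) := by
  have e := nu_ZZ (K := K) hq (d.delta_isDer q l i) h j f
  rw [Derivation.coeFn_coe] at e
  rw [e, ZZ]
  refine coeff_mod_congr (qM_monic hq) ?_ h
  rw [D_eq, map_sum]
  have e2 : Polynomial.X ^ j * ∑ m, (phi q (pderiv m f)).map ((AlgHom.id k (MM N q) : MM N q →ₐ[k] MM N q) :
      MM N q →+* MM N q) * hat (d.delta q l i : MM N q →ₗ[k] MM N q) (YY q m) -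
      Polynomial.X ^ (j + i + 1) * ∑ m, phi q (d.Γ l m * pderiv m f) =
      - (Polynomial.X ^ j * ∑ m, phi q (pderiv m f) * ((Polynomial.X ^ (i + 1) * phi q (d.Γ l m)) -
        (Polynomial.X ^ (i + 1) * phi q (d.Γ l m)) %ₘ qM N q)) := by
    simp only [Finset.mul_sum]
    rw [← Finset.sum_sub_distrib, ← Finset.sum_neg_distrib]
    refine Finset.sum_congr rfl fun m _ => ?_
    have e3 : (phi q (pderiv m f)).map ((AlgHom.id k (MM N q) : MM N q →ₐ[k] MM N q) :
      MM N q →+* MM N q) = phi q (pderiv m f) := Polynomial.map_id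
    rw [e3, d.hat_delta_YY hq, map_mul]
    ring
  rw [e2, dvd_neg]
  refine Dvd.dvd.mul_left (Finset.dvd_sum fun m _ => Dvd.dvd.mul_left ?_ _) _
  exact dvd_sub_modByMonic _ _

include hq in
lemma ZZ_X (m : Fin N) (h : Fin q.natDegree) : ZZ (K := K) q h (X m) 0 = X (m, h) := by
  rw [ZZ, pow_zero, one_mul, phi_X, (Polynomial.modByMonic_eq_self_iff (qM_monic hq)).2,
    coeff_YY_lt]
  rw [Polynomial.degree_eq_natDegree (qM_monic hq).ne_zero, natDegree_qM hq,
    Polynomial.degree_lt_iff_coeff_zero]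
  intro n hn
  exact coeff_YY_ge q m hn

include hq in
lemma delta_comm (l l' : Fin N) (i j : ℕ) (f : MM N q) :
    d.delta q l i (d.delta q l' j f) - d.delta q l' j (d.delta q l i f) =
      ∑ p, algebraMap K k (d.g l l' p) • d.delta q p (i + j + 1) f := by
  have hs : ∀ (s : Finset (Fin N)) (f : MM N q), (∑ p ∈ s, algebraMap K k (d.g l l' p) •
      d.delta q p (i + j + 1)) f = ∑ p ∈ s, algebraMap K k (d.g l l' p) •
      d.delta q p (i + j + 1) f := by
    classical
    intro s f
    induction s using Finset.induction_on with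
    | empty => simp
    | insert a s ha ih =>
      rw [Finset.sum_insert ha, Finset.sum_insert ha, Derivation.add_apply, ih]; rfl
  have h : ⁅d.delta q l i, d.delta q l' j⁆ = ∑ p, algebraMap K k (d.g l l' p) •
      d.delta q p (i + j + 1) := by
    apply derivation_ext
    rintro ⟨m, h⟩
    rw [Derivation.commutator_apply, hs]
    rw [← ZZ_X (K := K) hq m h, d.delta_ZZ hq, d.delta_ZZ hq, d.delta_ZZ hq, d.delta_ZZ hq,
      show 0 + j + 1 + i + 1 = i + j + 1 + 1 by ring,
      show 0 + i + 1 + j + 1 = i + j + 1 + 1 by ring, ← ZZ_sub, D_comm, ZZ_sum]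
    refine Finset.sum_congr rfl fun p _ => ?_
    rw [ZZ_C_mul, d.delta_ZZ hq, zero_add]
  rw [← Derivation.commutator_apply, h, hs]

include hq in
lemma ZZ_reduce (h : ℕ) (f : MvPolynomial (Fin N) K) (e : ℕ) :
    ZZ q h f (e + 1) = ∑ i : Fin q.natDegree, ((Polynomial.X ^ e %ₘ q).coeff i) • ZZ q h f (i + 1) := by
  obtain ⟨G, hG⟩ : ∃ G, G = phi q f := ⟨_, rfl⟩
  have hr1 : (Polynomial.X ^ e %ₘ q).degree < q.natDegree := by
    rw [← Polynomial.degree_eq_natDegree hq.ne_zero]
    exact Polynomial.degree_modByMonic_lt _ hq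
  have hr2 := dvd_sub_modByMonic q (Polynomial.X ^ e)
  generalize (Polynomial.X ^ e %ₘ q) = r at hr1 hr2
  have h1 : r = ∑ i : Fin q.natDegree, Polynomial.C (r.coeff i) * Polynomial.X ^ (i : ℕ) :=
    eq_sum_of_degree_lt _ _ hr1
  have h2 : qM N q ∣ Polynomial.X ^ e - r.map (algebraMap k (MM N q)) := by
    have := Polynomial.map_dvd (algebraMap k (MM N q)) hr2
    rwa [Polynomial.map_sub, Polynomial.map_pow, Polynomial.map_X] at this
  have h3 : ∑ i : Fin q.natDegree, (r.coeff i) • ZZ q h f (i + 1) =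
      ((∑ i : Fin q.natDegree, algebraMap k (MM N q) (r.coeff i) •
        (Polynomial.X ^ ((i : ℕ) + 1) * G)) %ₘ qM N q).coeff h := by
    have : ∀ s : Finset (Fin q.natDegree), ∑ i ∈ s, (r.coeff i) • ZZ q h f (i + 1) =
      ((∑ i ∈ s, algebraMap k (MM N q) (r.coeff i) •
        (Polynomial.X ^ ((i : ℕ) + 1) * G)) %ₘ qM N q).coeff h := by
      classical
      intro s
      induction s using Finset.induction_on with
      | empty => simp
      | insert a s ha ih =>
        rw [Finset.sum_insert ha, Finset.sum_insert ha, ih, Polynomial.add_modByMonic,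
          Polynomial.coeff_add, Polynomial.smul_modByMonic, Polynomial.coeff_smul, smul_eq_mul,
          Algebra.smul_def, ZZ, hG]
    exact this _
  rw [h3, ZZ]
  refine coeff_mod_congr (qM_monic hq) ?_ h
  have h6 : r.map (algebraMap k (MM N q)) =
      ∑ i : Fin q.natDegree, Polynomial.C (algebraMap k (MM N q) (r.coeff i)) * Polynomial.X ^ (i : ℕ) := by
    conv_lhs => rw [h1]
    rw [Polynomial.map_sum]
    refine Finset.sum_congr rfl fun i _ => ?_
    rw [Polynomial.map_mul, Polynomial.map_pow, Polynomial.map_X, Polynomial.map_C]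
  have h7 : ∑ i : Fin q.natDegree, algebraMap k (MM N q) (r.coeff i) •
      (Polynomial.X ^ ((i : ℕ) + 1) * G) = (Polynomial.X * G) *
      ∑ i : Fin q.natDegree, Polynomial.C (algebraMap k (MM N q) (r.coeff i)) * Polynomial.X ^ (i : ℕ) := by
    rw [Finset.mul_sum]
    refine Finset.sum_congr rfl fun i _ => ?_
    rw [Polynomial.smul_eq_C_mul]
    ring
  rw [h7, ← h6, ← hG]
  have h8 : Polynomial.X ^ (e + 1) * G - Polynomial.X * G * r.map (algebraMap k (MM N q)) =
      (Polynomial.X * G) * (Polynomial.X ^ e - r.map (algebraMap k (MM N q))) := by ring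
  rw [h8]
  exact Dvd.dvd.mul_left h2 _

include hq in
/-- reduction of the loop exponent -/
lemma delta_reduce (p : Fin N) (e : ℕ) (f : MM N q) :
    d.delta q p e f = ∑ i : Fin q.natDegree, ((Polynomial.X ^ e %ₘ q).coeff i) • d.delta q p i f := by
  have hs : ∀ (s : Finset (Fin q.natDegree)) (f : MM N q), (∑ i ∈ s, ((Polynomial.X ^ e %ₘ q).coeff i) •
      d.delta q p i) f = ∑ i ∈ s, ((Polynomial.X ^ e %ₘ q).coeff i) • d.delta q p i f := by
    classical
    intro s f
    induction s using Finset.induction_on with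
    | empty => simp
    | insert a s ha ih =>
      rw [Finset.sum_insert ha, Finset.sum_insert ha, Derivation.add_apply, ih]; rfl
  rw [← hs]
  congr 1
  apply derivation_ext
  rintro ⟨m, h⟩
  rw [hs, delta_X]
  simp only [delta_X]
  exact ZZ_reduce hq h _ e

end delta

end Pool.Agent.H865_nil.NData
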